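import Mathlib

/-!
# From the asymptotic bound to the exact fractional bound

If every graph of maximum degree at most `D`, `D` large, has a strong edge colouring with fewer than
`(c + ε) D²` colours, then the fractional strong chromatic index of EVERY graph of maximum degree at
most `D` is at most `c D²`: the blow-up `G[t]` has maximum degree `t D`, its colour classes project
to induced matchings of `G` and every edge of `G` is covered by exactly `t²` colours.  The limit is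
attained by compactness.
-/

namespace MP433Frac

open Finset

/-- the asymptotic bound for the strong chromatic index with constant `c` -/
def StrongAsym (c : ℝ) : Prop :=
  ∀ ε : ℝ, 0 < ε → ∃ K : ℕ, ∀ (V : Type) [Fintype V] (G : SimpleGraph V) (D : ℕ), K ≤ D →
    (∀ v, (G.neighborSet v).ncard ≤ D) →
    ∃ col : Sym2 V → ℕ,
      (∀ a b, G.Adj a b → (col s(a, b) : ℝ) < (c + ε) * (D : ℝ) ^ 2) ∧
      ∀ a b c e, G.Adj a b → G.Adj c e → s(a, b) ≠ s(c, e) → (b = c ∨ G.Adj b c) →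
        col s(a, b) ≠ col s(c, e)

universe u

variable {V : Type u} [Fintype V] [DecidableEq V] (G : SimpleGraph V)

/-- `M` is an induced matching -/
def IsIM (M : Finset (Sym2 V)) : Prop :=
  (∀ e ∈ M, e ∈ G.edgeSet) ∧
    ∀ e ∈ M, ∀ e' ∈ M, e ≠ e' → ∀ x ∈ e, ∀ y ∈ e', x ≠ y ∧ ¬ G.Adj x y

/-- the blow-up with vertex classes of size `t` -/
def blowup (t : ℕ) : SimpleGraph (Fin (Fintype.card V) × Fin t) where
  Adj p q := G.Adj ((Fintype.equivFin V).symm p.1) ((Fintype.equivFin V).symm q.1)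
  symm := by
    constructor
    intro p q h
    exact h.symm
  loopless := by
    constructor
    intro p h
    exact G.loopless.irrefl _ h

/-- projection of a vertex of the blow-up -/
noncomputable def prj {t : ℕ} (p : Fin (Fintype.card V) × Fin t) : V :=
  (Fintype.equivFin V).symm p.1

variable {G}

omit [DecidableEq V] in
theorem blowup_adj {t : ℕ} {p q : Fin (Fintype.card V) × Fin t} :
    (blowup G t).Adj p q ↔ G.Adj (prj p) (prj q) := Iff.rfl

omit [DecidableEq V] in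
theorem blowup_degree (t D : ℕ) (hD : ∀ v, (G.neighborSet v).ncard ≤ D)
    (p : Fin (Fintype.card V) × Fin t) : ((blowup G t).neighborSet p).ncard ≤ t * D := by
  have h1 : (blowup G t).neighborSet p ⊆
      (fun x : V × Fin t => ((Fintype.equivFin V) x.1, x.2)) ''
        ((G.neighborSet (prj p)) ×ˢ (Set.univ : Set (Fin t))) := by
    intro q hq
    refine ⟨(prj q, q.2), ⟨?_, Set.mem_univ _⟩, ?_⟩
    · exact hq
    · simp [prj]
  refine le_trans (Set.ncard_le_ncard h1 (Set.toFinite _)) ?_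
  refine le_trans (Set.ncard_image_le (Set.toFinite _)) ?_
  rw [Set.ncard_prod, Set.ncard_univ, Nat.card_fin, mul_comm]
  exact Nat.mul_le_mul_left _ (hD _)

/-- `e` is the projection of an edge of colour `k` -/
def InCls {t : ℕ} (G : SimpleGraph V)
    (col : Sym2 (Fin (Fintype.card V) × Fin t) → ℕ) (k : ℕ) (e : Sym2 V) : Prop :=
  ∃ a b : Fin (Fintype.card V) × Fin t,
    s(prj a, prj b) = e ∧ (blowup G t).Adj a b ∧ col s(a, b) = k

open Classical in
/-- the projection of a colour class -/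
noncomputable def cls {t : ℕ} (G : SimpleGraph V)
    (col : Sym2 (Fin (Fintype.card V) × Fin t) → ℕ) (k : ℕ) : Finset (Sym2 V) :=
  univ.filter (InCls G col k)

omit [DecidableEq V] in
theorem mem_cls {t : ℕ} {col : Sym2 (Fin (Fintype.card V) × Fin t) → ℕ} {k : ℕ} {e : Sym2 V} :
    e ∈ cls G col k ↔ ∃ a b : Fin (Fintype.card V) × Fin t,
      s(prj a, prj b) = e ∧ (blowup G t).Adj a b ∧ col s(a, b) = k := by
  classical
  unfold cls
  rw [mem_filter]
  simp only [mem_univ, true_and]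
  rfl

omit [DecidableEq V] in
/-- an orientation of an edge of a class with a given second end -/
theorem mem_cls_orient {t : ℕ} {col : Sym2 (Fin (Fintype.card V) × Fin t) → ℕ} {k : ℕ}
    {e : Sym2 V} (he : e ∈ cls G col k) {x : V} (hx : x ∈ e) :
    ∃ a b : Fin (Fintype.card V) × Fin t,
      s(prj a, prj b) = e ∧ prj b = x ∧ (blowup G t).Adj a b ∧ col s(a, b) = k := by
  obtain ⟨a, b, h1, h2, h3⟩ := mem_cls.1 he
  rw [← h1, Sym2.mem_iff] at hx
  rcases hx with hx | hx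
  · exact ⟨b, a, by rw [← h1, Sym2.eq_swap], hx.symm, h2.symm, by rw [Sym2.eq_swap]; exact h3⟩
  · exact ⟨a, b, h1, hx.symm, h2, h3⟩

omit [DecidableEq V] in
theorem cls_isIM {t : ℕ} {col : Sym2 (Fin (Fintype.card V) × Fin t) → ℕ}
    (hcol : ∀ a b c e, (blowup G t).Adj a b → (blowup G t).Adj c e → s(a, b) ≠ s(c, e) →
      (b = c ∨ (blowup G t).Adj b c) → col s(a, b) ≠ col s(c, e)) (k : ℕ) :
    IsIM G (cls G col k) := by
  constructor
  · intro e he
    obtain ⟨a, b, h1, h2, -⟩ := mem_cls.1 he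
    rw [← h1, SimpleGraph.mem_edgeSet]
    exact h2
  · intro e he e' he' hne x hx y hy
    obtain ⟨a, b, h1, h2, h3, h4⟩ := mem_cls_orient he hx
    obtain ⟨a', b', h1', h2', h3', h4'⟩ := mem_cls_orient he' hy
    have hns : s(a, b) ≠ s(b', a') := by
      intro h
      apply hne
      rw [← h1, ← h1']
      have h5 := congrArg (Sym2.map prj) h
      rw [Sym2.map_mk, Sym2.map_mk] at h5
      rw [h5, Sym2.eq_swap]
    constructor
    · intro hxy
      have hns2 : s(b, a) ≠ s(b', a') := by rwa [Sym2.eq_swap (a := b)]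
      refine hcol b a b' a' h3.symm h3'.symm hns2 (Or.inr ?_) ?_
      · rw [blowup_adj, h2', ← hxy, ← h2]
        exact h3
      · rw [Sym2.eq_swap (a := b), h4, Sym2.eq_swap, h4']
    · intro hxy
      refine hcol a b b' a' h3 h3'.symm hns (Or.inr ?_) ?_
      · rw [blowup_adj, h2, h2']
        exact hxy
      · rw [h4, Sym2.eq_swap, h4']

theorem card_cls {t N : ℕ} {col : Sym2 (Fin (Fintype.card V) × Fin t) → ℕ}
    (hN : ∀ a b, (blowup G t).Adj a b → col s(a, b) < N)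
    (hcol : ∀ a b c e, (blowup G t).Adj a b → (blowup G t).Adj c e → s(a, b) ≠ s(c, e) →
      (b = c ∨ (blowup G t).Adj b c) → col s(a, b) ≠ col s(c, e)) (e : Sym2 V)
    (he : e ∈ G.edgeSet) : ((range N).filter fun k => e ∈ cls G col k).card = t ^ 2 := by
  induction e using Sym2.ind with
  | _ u v =>
  rw [SimpleGraph.mem_edgeSet] at he
  set iu := Fintype.equivFin V u with hiu
  set iv := Fintype.equivFin V v with hiv
  have pu : ∀ α : Fin t, prj (iu, α) = u := fun α => by simp [prj, hiu]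
  have pv : ∀ α : Fin t, prj (iv, α) = v := fun α => by simp [prj, hiv]
  have hadj : ∀ α β : Fin t, (blowup G t).Adj (iu, α) (iv, β) := fun α β => by
    rw [blowup_adj, pu, pv]
    exact he
  have himg : (range N).filter (fun k => s(u, v) ∈ cls G col k) =
      (univ : Finset (Fin t × Fin t)).image fun x => col s((iu, x.1), (iv, x.2)) := by
    ext k
    rw [mem_filter, mem_image, mem_range]
    constructor
    · rintro ⟨hk, hm⟩
      obtain ⟨a, b, h1, h2, h3, h4⟩ := mem_cls_orient hm (Sym2.mem_mk_right u v)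
      have ha : prj a = u := by
        rw [Sym2.eq_iff] at h1
        rcases h1 with ⟨h5, -⟩ | ⟨h5, h6⟩
        · exact h5
        · rw [h2] at h6
          exact absurd (h6 ▸ he) (G.loopless.irrefl _)
      refine ⟨(a.2, b.2), mem_univ _, ?_⟩
      rw [← h4]
      have ea : (iu, a.2) = a := by
        refine Prod.ext ?_ rfl
        rw [hiu, ← ha]
        simp [prj]
      have eb : (iv, b.2) = b := by
        refine Prod.ext ?_ rfl
        rw [hiv, ← h2]
        simp [prj]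
      simp only [ea, eb]
    · rintro ⟨x, -, rfl⟩
      refine ⟨hN _ _ (hadj _ _), ?_⟩
      rw [mem_cls]
      exact ⟨(iu, x.1), (iv, x.2), by rw [pu, pv], hadj _ _, rfl⟩
  rw [himg, card_image_of_injective, card_univ, Fintype.card_prod, Fintype.card_fin, pow_two]
  rintro ⟨α, β⟩ ⟨α', β'⟩ h
  by_contra hne
  refine hcol (iu, α) (iv, β) (iu, α') (iv, β') (hadj _ _) (hadj _ _) ?_
    (Or.inr (hadj _ _).symm) h
  intro h5
  rw [Sym2.eq_iff] at h5
  rcases h5 with ⟨h6, h7⟩ | ⟨h6, -⟩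
  · exact hne (Prod.ext (Prod.ext_iff.1 h6).2 (Prod.ext_iff.1 h7).2)
  · have h8 : iu = iv := (Prod.ext_iff.1 h6).1
    have h9 : u = v := (Fintype.equivFin V).injective h8
    exact G.loopless.irrefl _ (h9 ▸ he)

/-- the fractional colouring from a colouring of the blow-up -/
theorem frac_step (c ε : ℝ) (hc : 0 ≤ c + ε) (t D : ℕ) (ht : 1 ≤ t)
    (col : Sym2 (Fin (Fintype.card V) × Fin t) → ℕ)
    (h1 : ∀ a b, (blowup G t).Adj a b → (col s(a, b) : ℝ) < (c + ε) * ((t * D : ℕ) : ℝ) ^ 2)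
    (hcol : ∀ a b c e, (blowup G t).Adj a b → (blowup G t).Adj c e → s(a, b) ≠ s(c, e) →
      (b = c ∨ (blowup G t).Adj b c) → col s(a, b) ≠ col s(c, e)) :
    ∃ μ : Finset (Sym2 V) → ℝ, (∀ M, 0 ≤ μ M) ∧ (∀ M, ¬ IsIM G M → μ M = 0) ∧
      (∀ e ∈ G.edgeSet, ∑ M with e ∈ M, μ M = 1) ∧
      ∑ M, μ M ≤ (c + ε) * (D : ℝ) ^ 2 + 1 / (t : ℝ) ^ 2 := by
  have ht0 : (0 : ℝ) < (t : ℝ) ^ 2 := by
    have : (0 : ℝ) < t := by exact_mod_cast ht
    positivity
  set N : ℕ := ⌈(c + ε) * ((t * D : ℕ) : ℝ) ^ 2⌉₊ with hN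
  have hNle : (N : ℝ) ≤ (c + ε) * ((t * D : ℕ) : ℝ) ^ 2 + 1 :=
    (Nat.ceil_lt_add_one (mul_nonneg hc (by positivity))).le
  have hlt : ∀ a b, (blowup G t).Adj a b → col s(a, b) < N := by
    intro a b hab
    have h2 : (col s(a, b) : ℝ) < N := lt_of_lt_of_le (h1 a b hab) (Nat.le_ceil _)
    exact_mod_cast h2
  refine ⟨fun M => (((range N).filter fun k => cls G col k = M).card : ℝ) / (t : ℝ) ^ 2,
    fun M => by positivity, fun M hM => ?_, fun e he => ?_, ?_⟩
  · have : (range N).filter (fun k => cls G col k = M) = ∅ := by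
      rw [filter_eq_empty_iff]
      intro k _ hk
      exact hM (hk ▸ cls_isIM hcol k)
    simp only [this, card_empty, Nat.cast_zero, zero_div]
  · rw [← sum_div, div_eq_one_iff_eq ht0.ne', ← Nat.cast_sum]
    have h2 := card_cls hlt hcol e he
    have h3 : ∑ M with e ∈ M, ((range N).filter fun k => cls G col k = M).card = t ^ 2 := by
      rw [← h2, card_eq_sum_card_fiberwise (f := fun k => cls G col k)
        (t := univ.filter fun M => e ∈ M)]
      · refine sum_congr rfl fun M hM => ?_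
        congr 1
        ext k
        rw [mem_filter, mem_filter, mem_filter]
        constructor
        · rintro ⟨h4, h5⟩
          exact ⟨⟨h4, h5 ▸ (mem_filter.1 hM).2⟩, h5⟩
        · rintro ⟨⟨h4, -⟩, h5⟩
          exact ⟨h4, h5⟩
      · intro k hk
        rw [mem_coe, mem_filter] at hk
        rw [mem_coe, mem_filter]
        exact ⟨mem_univ _, hk.2⟩
    rw [h3]
    push_cast
    rfl
  · rw [← sum_div, ← Nat.cast_sum]
    have h3 : ∑ M : Finset (Sym2 V), ((range N).filter fun k => cls G col k = M).card = N := by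
      rw [← card_eq_sum_card_fiberwise (f := fun k => cls G col k) (t := univ)
        (fun k _ => mem_coe.2 (mem_univ _)), card_range]
    rw [h3, div_le_iff₀ ht0]
    refine le_trans hNle (le_of_eq ?_)
    push_cast
    field_simp

/-- **The exact fractional bound from the asymptotic bound** for the blow-ups of the graph. -/
theorem frac_of_blow (c : ℝ) (hc : 0 ≤ c) (D : ℕ) (hD : ∀ v, (G.neighborSet v).ncard ≤ D)
    (h : ∀ ε : ℝ, 0 < ε → ∃ K : ℕ, ∀ t : ℕ, K ≤ t * D →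
      ∃ col : Sym2 (Fin (Fintype.card V) × Fin t) → ℕ,
        (∀ a b, (blowup G t).Adj a b → (col s(a, b) : ℝ) < (c + ε) * ((t * D : ℕ) : ℝ) ^ 2) ∧
        ∀ a b c e, (blowup G t).Adj a b → (blowup G t).Adj c e → s(a, b) ≠ s(c, e) →
          (b = c ∨ (blowup G t).Adj b c) → col s(a, b) ≠ col s(c, e)) :
    ∃ μ : Finset (Sym2 V) → ℝ, (∀ M, 0 ≤ μ M) ∧ (∀ M, ¬ IsIM G M → μ M = 0) ∧
      (∀ e ∈ G.edgeSet, ∑ M with e ∈ M, μ M = 1) ∧ ∑ M, μ M ≤ c * (D : ℝ) ^ 2 := by
  classical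
  rcases Nat.eq_zero_or_pos D with rfl | hD0
  · refine ⟨fun _ => 0, fun _ => le_rfl, fun _ _ => rfl, fun e he => ?_, by simp⟩
    exfalso
    induction e using Sym2.ind with
    | _ a b =>
      rw [SimpleGraph.mem_edgeSet] at he
      have h1 := hD a
      have h2 : G.neighborSet a = ∅ := by
        rw [← Set.ncard_eq_zero (Set.toFinite _)]
        omega
      have h3 : b ∈ G.neighborSet a := he
      rw [h2] at h3
      exact h3
  -- approximate solutions
  have happ : ∀ ε : ℝ, 0 < ε → ∃ μ : Finset (Sym2 V) → ℝ, (∀ M, 0 ≤ μ M) ∧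
      (∀ M, ¬ IsIM G M → μ M = 0) ∧
      (∀ e ∈ G.edgeSet, ∑ M with e ∈ M, μ M = 1) ∧
      ∑ M, μ M ≤ (c + ε) * (D : ℝ) ^ 2 + ε := by
    intro ε hε
    obtain ⟨K, hK⟩ := h ε hε
    set t : ℕ := max K (⌈1 / ε⌉₊ + 1) with ht
    have ht1 : 1 ≤ t := le_trans (by omega) (le_max_right _ _)
    have htK : K ≤ t * D := le_trans (le_max_left _ _) (Nat.le_mul_of_pos_right _ hD0)
    obtain ⟨col, h1, h2⟩ := hK t htK
    obtain ⟨μ, m1, m2, m3, m4⟩ := frac_step c ε (by linarith) t D ht1 col h1 h2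
    refine ⟨μ, m1, m2, m3, le_trans m4 ?_⟩
    have ht1' : (1 : ℝ) ≤ t := by exact_mod_cast ht1
    have h3 : 1 / ε ≤ t := by
      have h4 : (1 / ε : ℝ) ≤ ⌈1 / ε⌉₊ := Nat.le_ceil _
      have h5 : ((⌈1 / ε⌉₊ + 1 : ℕ) : ℝ) ≤ t := by exact_mod_cast le_max_right _ _
      push_cast at h5
      linarith
    have h6 : 1 / (t : ℝ) ^ 2 ≤ ε := by
      rw [div_le_iff₀ (by positivity)]
      rw [div_le_iff₀ hε] at h3
      nlinarith
    linarith
  -- compactness
  set B : ℝ := (c + 1) * (D : ℝ) ^ 2 + 1 with hB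
  have hB0 : 0 ≤ B := by positivity
  set S : Set (Finset (Sym2 V) → ℝ) := {μ | (∀ M, 0 ≤ μ M) ∧ (∀ M, ¬ IsIM G M → μ M = 0) ∧
      (∀ e ∈ G.edgeSet, ∑ M with e ∈ M, μ M = 1) ∧ ∑ M, μ M ≤ B} with hS
  have hcpt : IsCompact S := by
    refine IsCompact.of_isClosed_subset
      (isCompact_univ_pi fun _ : Finset (Sym2 V) => isCompact_Icc (a := (0 : ℝ)) (b := B)) ?_ ?_
    · have e1 : S = (⋂ M, {μ : Finset (Sym2 V) → ℝ | 0 ≤ μ M}) ∩
          ((⋂ M, ⋂ (_ : ¬ IsIM G M), {μ : Finset (Sym2 V) → ℝ | μ M = 0}) ∩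
          ((⋂ e, ⋂ (_ : e ∈ G.edgeSet), {μ : Finset (Sym2 V) → ℝ | ∑ M with e ∈ M, μ M = 1}) ∩
            {μ : Finset (Sym2 V) → ℝ | ∑ M, μ M ≤ B})) := by
        ext μ
        simp only [hS, Set.mem_ofPred_eq, Set.mem_inter_iff, Set.mem_iInter]
      rw [e1]
      refine IsClosed.inter ?_ (IsClosed.inter ?_ (IsClosed.inter ?_ ?_))
      · exact isClosed_iInter fun M => isClosed_le continuous_const (continuous_apply M)
      · exact isClosed_iInter fun M => isClosed_iInter fun _ =>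
          isClosed_eq (continuous_apply M) continuous_const
      · exact isClosed_iInter fun e => isClosed_iInter fun _ =>
          isClosed_eq (continuous_finsetSum _ fun M _ => continuous_apply M) continuous_const
      · exact isClosed_le (continuous_finsetSum _ fun M _ => continuous_apply M) continuous_const
    · intro μ hμ M _
      refine ⟨hμ.1 M, le_trans ?_ hμ.2.2.2⟩
      exact single_le_sum (f := fun M => μ M) (fun M _ => hμ.1 M) (mem_univ M)
  have hne : S.Nonempty := by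
    obtain ⟨μ, m1, m2, m3, m4⟩ := happ 1 one_pos
    exact ⟨μ, m1, m2, m3, m4⟩
  obtain ⟨μ, hμ, hmin⟩ := hcpt.exists_isMinOn hne
    (f := fun μ : Finset (Sym2 V) → ℝ => ∑ M, μ M)
    (continuous_finsetSum _ fun M _ => continuous_apply M).continuousOn
  refine ⟨μ, hμ.1, hμ.2.1, hμ.2.2.1, ?_⟩
  refine le_of_forall_pos_le_add fun δ hδ => ?_
  set ε : ℝ := min 1 (δ / ((D : ℝ) ^ 2 + 1)) with hε
  have hε0 : 0 < ε := by positivity
  obtain ⟨ν, m1, m2, m3, m4⟩ := happ ε hε0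
  have hDD : (0 : ℝ) < (D : ℝ) ^ 2 + 1 := by positivity
  have h7 : ε * ((D : ℝ) ^ 2 + 1) ≤ δ := by
    have h8 : ε ≤ δ / ((D : ℝ) ^ 2 + 1) := min_le_right _ _
    rwa [le_div_iff₀ hDD] at h8
  have h9 : ε ≤ 1 := min_le_left _ _
  have hν : ν ∈ S := by
    refine ⟨m1, m2, m3, le_trans m4 ?_⟩
    have : ε * (D : ℝ) ^ 2 ≤ 1 * (D : ℝ) ^ 2 := mul_le_mul_of_nonneg_right h9 (by positivity)
    rw [hB]
    linarith
  have h10 : ∑ M, μ M ≤ ∑ M, ν M := hmin hν
  linarith

/-- **The exact fractional bound from the asymptotic bound.** -/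
theorem frac_of_strong (c : ℝ) (hc : 0 ≤ c) (h : StrongAsym c) (D : ℕ)
    (hD : ∀ v, (G.neighborSet v).ncard ≤ D) :
    ∃ μ : Finset (Sym2 V) → ℝ, (∀ M, 0 ≤ μ M) ∧ (∀ M, ¬ IsIM G M → μ M = 0) ∧
      (∀ e ∈ G.edgeSet, ∑ M with e ∈ M, μ M = 1) ∧ ∑ M, μ M ≤ c * (D : ℝ) ^ 2 := by
  refine frac_of_blow c hc D hD fun ε hε => ?_
  obtain ⟨K, hK⟩ := h ε hε
  exact ⟨K, fun t ht => hK _ (blowup G t) (t * D) ht (blowup_degree t D hD)⟩

/-- the asymptotic bound for the strong chromatic index of triangle-free graphs -/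
def StrongAsymTF (c : ℝ) : Prop :=
  ∀ ε : ℝ, 0 < ε → ∃ K : ℕ, ∀ (V : Type) [Fintype V] (G : SimpleGraph V) (D : ℕ), K ≤ D →
    G.CliqueFree 3 → (∀ v, (G.neighborSet v).ncard ≤ D) →
    ∃ col : Sym2 V → ℕ,
      (∀ a b, G.Adj a b → (col s(a, b) : ℝ) < (c + ε) * (D : ℝ) ^ 2) ∧
      ∀ a b c e, G.Adj a b → G.Adj c e → s(a, b) ≠ s(c, e) → (b = c ∨ G.Adj b c) →
        col s(a, b) ≠ col s(c, e)

theorem blowup_cliqueFree (hG : G.CliqueFree 3) (t : ℕ) : (blowup G t).CliqueFree 3 := by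
  classical
  intro s hs
  rw [SimpleGraph.is3Clique_iff] at hs
  obtain ⟨a, b, c, hab, hac, hbc, -⟩ := hs
  exact hG {prj a, prj b, prj c}
    (SimpleGraph.is3Clique_iff.2 ⟨prj a, prj b, prj c, hab, hac, hbc, rfl⟩)

/-- **The exact fractional bound from the asymptotic bound**, triangle-free graphs. -/
theorem frac_of_strongTF (c : ℝ) (hc : 0 ≤ c) (h : StrongAsymTF c) (hG : G.CliqueFree 3) (D : ℕ)
    (hD : ∀ v, (G.neighborSet v).ncard ≤ D) :
    ∃ μ : Finset (Sym2 V) → ℝ, (∀ M, 0 ≤ μ M) ∧ (∀ M, ¬ IsIM G M → μ M = 0) ∧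
      (∀ e ∈ G.edgeSet, ∑ M with e ∈ M, μ M = 1) ∧ ∑ M, μ M ≤ c * (D : ℝ) ^ 2 := by
  refine frac_of_blow c hc D hD fun ε hε => ?_
  obtain ⟨K, hK⟩ := h ε hε
  exact ⟨K, fun t ht => hK _ (blowup G t) (t * D) ht (blowup_cliqueFree hG t)
    (blowup_degree t D hD)⟩

/-- strong cliques -/
theorem clique_of_frac (c : ℝ) (D : ℕ) (μ : Finset (Sym2 V) → ℝ) (m1 : ∀ M, 0 ≤ μ M)
    (m2 : ∀ M, ¬ IsIM G M → μ M = 0) (m3 : ∀ e ∈ G.edgeSet, ∑ M with e ∈ M, μ M = 1)
    (m4 : ∑ M, μ M ≤ c * (D : ℝ) ^ 2) (F : Finset (Sym2 V)) (hF : ∀ e ∈ F, e ∈ G.edgeSet)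
    (hcl : ∀ e ∈ F, ∀ e' ∈ F, e ≠ e' → ∃ x ∈ e, ∃ y ∈ e', x = y ∨ G.Adj x y) :
    (F.card : ℝ) ≤ c * (D : ℝ) ^ 2 := by
  classical
  have h1 : (F.card : ℝ) = ∑ e ∈ F, ∑ M with e ∈ M, μ M := by
    rw [sum_congr rfl fun e he => m3 e (hF e he)]
    simp
  have h2 : ∑ e ∈ F, ∑ M with e ∈ M, μ M = ∑ M, ((F ∩ M).card : ℝ) * μ M := by
    simp_rw [sum_filter]
    rw [sum_comm]
    refine sum_congr rfl fun M _ => ?_
    rw [← sum_filter, sum_const, nsmul_eq_mul, filter_mem_eq_inter]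
  have h3 : ∀ M, ((F ∩ M).card : ℝ) * μ M ≤ μ M := by
    intro M
    by_cases hM : IsIM G M
    · have h4 : (F ∩ M).card ≤ 1 := by
        rw [card_le_one]
        intro e he e' he'
        rw [mem_inter] at he he'
        by_contra hne
        obtain ⟨x, hx, y, hy, hxy⟩ := hcl e he.1 e' he'.1 hne
        obtain ⟨h5, h6⟩ := hM.2 e he.2 e' he'.2 hne x hx y hy
        rcases hxy with hxy | hxy
        · exact h5 hxy
        · exact h6 hxy
      have h5 : ((F ∩ M).card : ℝ) ≤ 1 := by exact_mod_cast h4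
      nlinarith [m1 M]
    · rw [m2 M hM, mul_zero]
  rw [h1, h2]
  exact le_trans (sum_le_sum fun M _ => h3 M) m4

/-- weighted induced matchings -/
theorem matching_of_frac (c : ℝ) (D : ℕ) (μ : Finset (Sym2 V) → ℝ) (m1 : ∀ M, 0 ≤ μ M)
    (m2 : ∀ M, ¬ IsIM G M → μ M = 0) (m3 : ∀ e ∈ G.edgeSet, ∑ M with e ∈ M, μ M = 1)
    (m4 : ∑ M, μ M ≤ c * (D : ℝ) ^ 2) (w : Sym2 V → ℝ) (hw : ∀ e ∉ G.edgeSet, w e = 0)
    (hw0 : 0 ≤ ∑ e, w e) :
    ∃ M, IsIM G M ∧ ∑ e, w e ≤ c * (D : ℝ) ^ 2 * ∑ e ∈ M, w e := by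
  classical
  by_contra hcon
  push Not at hcon
  have h1 : ∑ e, w e = ∑ M, μ M * ∑ e ∈ M, w e := by
    have h2 : ∀ e, w e = w e * ∑ M with e ∈ M, μ M := by
      intro e
      by_cases he : e ∈ G.edgeSet
      · rw [m3 e he, mul_one]
      · rw [hw e he, zero_mul]
    rw [sum_congr rfl fun e _ => h2 e]
    simp_rw [sum_filter, mul_sum]
    rw [sum_comm]
    refine sum_congr rfl fun M _ => ?_
    rw [← sum_filter_add_sum_filter_not univ (fun e => e ∈ M)]
    have e1 : ∑ e with e ∉ M, w e * (if e ∈ M then μ M else 0) = 0 :=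
      sum_eq_zero fun e he => by rw [if_neg (mem_filter.1 he).2, mul_zero]
    rw [e1, add_zero]
    have e2 : (univ.filter fun e => e ∈ M) = M := by
      ext e
      simp
    rw [e2]
    refine sum_congr rfl fun e he => ?_
    rw [if_pos he, mul_comm]
  have hempty : IsIM G ∅ := ⟨fun e he => absurd he (notMem_empty e),
    fun e he => absurd he (notMem_empty e)⟩
  have h0 := hcon ∅ hempty
  rw [sum_empty, mul_zero] at h0
  -- multiply by the weights
  have h3 : ∀ M, μ M * (c * (D : ℝ) ^ 2 * ∑ e ∈ M, w e) ≤ μ M * ∑ e, w e := by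
    intro M
    by_cases hM : IsIM G M
    · exact mul_le_mul_of_nonneg_left (hcon M hM).le (m1 M)
    · rw [m2 M hM, zero_mul, zero_mul]
  have h4 := sum_le_sum fun M (_ : M ∈ (univ : Finset (Finset (Sym2 V)))) => h3 M
  rw [← sum_mul] at h4
  have h5 : ∑ M, μ M * (c * (D : ℝ) ^ 2 * ∑ e ∈ M, w e) = c * (D : ℝ) ^ 2 * ∑ e, w e := by
    rw [h1, mul_sum]
    exact sum_congr rfl fun M _ => by ring
  rw [h5] at h4
  have h6 : (∑ M, μ M) * ∑ e, w e ≤ c * (D : ℝ) ^ 2 * ∑ e, w e :=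
    mul_le_mul_of_nonneg_right m4 hw0
  have h7 : (∑ M, μ M) * ∑ e, w e = c * (D : ℝ) ^ 2 * ∑ e, w e := le_antisymm h6 h4
  have h8 : ∑ M, μ M = c * (D : ℝ) ^ 2 := mul_right_cancel₀ h0.ne' h7
  -- some M has positive weight
  have h9 : ∃ M, 0 < μ M := by
    by_contra hno
    push Not at hno
    have h10 : ∀ M, μ M = 0 := fun M => le_antisymm (hno M) (m1 M)
    rw [h1] at h0
    simp [h10] at h0
  obtain ⟨M, hM⟩ := h9
  have hIM : IsIM G M := by
    by_contra hn
    rw [m2 M hn] at hM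
    exact lt_irrefl _ hM
  have h10 : ∑ M, μ M * (c * (D : ℝ) ^ 2 * ∑ e ∈ M, w e) < ∑ M, μ M * ∑ e, w e :=
    sum_lt_sum (fun M _ => h3 M) ⟨M, mem_univ _, mul_lt_mul_of_pos_left (hcon M hIM) hM⟩
  rw [h5, ← sum_mul, h8] at h10
  exact lt_irrefl _ h10

end MP433Frac
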