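import Pool.Agent.Work.MP_433a35_co.GB.Defs

/-!
# The recursion for the weight of the ordered cliques
-/

namespace MP433GB

open Finset

variable {V : Type*} [Fintype V] [DecidableEq V]

section

variable (G : SimpleGraph V) [DecidableRel G.Adj] (a : V → ℝ)

theorem cl_eq_ite (m : ℕ) (U : Finset V) :
    cl G a m U = ∑ v : Fin m → V,
      if (∀ i, v i ∈ U) ∧ (∀ i j, i ≠ j → G.Adj (v i) (v j)) then ∏ i, a (v i) else 0 := by
  unfold cl
  rw [← Finset.sum_filter]
  refine Finset.sum_congr ?_ fun _ _ => rfl
  ext v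
  simp [Fintype.mem_piFinset]

theorem clr_zero (U : Finset V) : cl G a 0 U = 1 := by
  rw [cl_eq_ite]
  simp

theorem clr_succ (m : ℕ) (U : Finset V) :
    cl G a (m + 1) U = ∑ v ∈ U, a v * cl G a m (U.filter (fun u => G.Adj v u)) := by
  rw [cl_eq_ite]
  rw [← (Fin.consEquiv (fun _ : Fin (m + 1) => V)).sum_comp, Fintype.sum_prod_type]
  rw [← Finset.sum_subset (Finset.subset_univ U)]
  · refine Finset.sum_congr rfl fun x hx => ?_
    rw [cl_eq_ite, Finset.mul_sum]
    refine Finset.sum_congr rfl fun v _ => ?_
    have hc : ((∀ i, (Fin.cons x v : Fin (m + 1) → V) i ∈ U) ∧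
        (∀ i j, i ≠ j → G.Adj ((Fin.cons x v : Fin (m + 1) → V) i)
          ((Fin.cons x v : Fin (m + 1) → V) j))) ↔
        ((∀ i, v i ∈ U.filter (fun u => G.Adj x u)) ∧ (∀ i j, i ≠ j → G.Adj (v i) (v j))) := by
      constructor
      · rintro ⟨h1, h2⟩
        refine ⟨fun i => Finset.mem_filter.2 ⟨by simpa using h1 i.succ, ?_⟩, fun i j hij => ?_⟩
        · simpa using h2 0 i.succ (Fin.succ_ne_zero i).symm
        · simpa using h2 i.succ j.succ (fun h => hij (Fin.succ_injective _ h))
      · rintro ⟨h1, h2⟩
        refine ⟨fun i => ?_, fun i j hij => ?_⟩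
        · refine Fin.cases ?_ (fun i => ?_) i
          · simpa using hx
          · simpa using (Finset.mem_filter.1 (h1 i)).1
        · revert hij
          refine Fin.cases ?_ (fun i => ?_) i
          · refine Fin.cases ?_ (fun j => ?_) j
            · intro h; exact absurd rfl h
            · intro _; simpa using (Finset.mem_filter.1 (h1 j)).2
          · refine Fin.cases ?_ (fun j => ?_) j
            · intro _; simpa using (Finset.mem_filter.1 (h1 i)).2.symm
            · intro h; simpa using h2 i j (fun e => h (by rw [e]))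
    have hcons : ∀ p : V × (Fin m → V), (Fin.consEquiv (fun _ : Fin (m + 1) => V)) p =
        (Fin.cons p.1 p.2 : Fin (m + 1) → V) := fun p => rfl
    simp only [hcons]
    rw [if_congr hc rfl rfl]
    split_ifs with h
    · rw [Fin.prod_univ_succ]
      simp
    · simp
  · intro x _ hx
    refine Finset.sum_eq_zero fun v _ => ?_
    rw [if_neg]
    rintro ⟨h1, _⟩
    exact hx (by simpa using h1 0)

end

end MP433GB
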