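import Pool.Agent.Work.MP_433a35_co.GB.Prod

/-!
# One colour: resampling the class of one colour in a neighbourhood
-/

namespace MP433GB

open Finset

set_option linter.unusedSectionVars false

variable {V : Type*} [Fintype V] [DecidableEq V]

/-- the expected weight of the `m`-cliques of the random set `free G Q J` -/
lemma exp_cl (G : SimpleGraph V) [DecidableRel G.Adj] (mu : V → ℝ) (hmu : ∀ v, 0 ≤ mu v)
    (Q R : Finset V) (m : ℕ) (q : ℝ)
    (htup : ∀ x : Fin m → V, (∀ i, x i ∈ Q) → (∀ i j, i ≠ j → G.Adj (x i) (x j)) →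
      ∑ J ∈ (inds G R).filter (fun J => ∀ i, x i ∈ free G Q J),
        (∏ y ∈ J, mu y) * hc G mu (free G Q J) ≤ q * hc G mu (Q ∪ R)) :
    ∑ J ∈ inds G R, (∏ y ∈ J, mu y) * hc G mu (free G Q J) * cl G mu m (free G Q J) ≤
      q * cl G mu m Q * hc G mu (Q ∪ R) := by
  have h1 : ∀ J, cl G mu m (free G Q J) =
      ∑ x ∈ (Fintype.piFinset fun _ : Fin m => Q).filter
        (fun v => ∀ i j, i ≠ j → G.Adj (v i) (v j)),
        if (∀ i, x i ∈ free G Q J) then ∏ i, mu (x i) else 0 := by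
    intro J
    rw [← sum_filter, cl]
    congr 1
    ext x
    simp only [mem_filter, Fintype.mem_piFinset]
    constructor
    · rintro ⟨h1, h2⟩
      exact ⟨⟨fun i => free_subset G Q J (h1 i), h2⟩, h1⟩
    · rintro ⟨⟨_, h2⟩, h1⟩
      exact ⟨h1, h2⟩
  calc ∑ J ∈ inds G R, (∏ y ∈ J, mu y) * hc G mu (free G Q J) * cl G mu m (free G Q J)
      = ∑ x ∈ (Fintype.piFinset fun _ : Fin m => Q).filter
          (fun v => ∀ i j, i ≠ j → G.Adj (v i) (v j)),
          (∏ i, mu (x i)) * ∑ J ∈ (inds G R).filter (fun J => ∀ i, x i ∈ free G Q J),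
            (∏ y ∈ J, mu y) * hc G mu (free G Q J) := by
        simp_rw [h1, mul_sum]
        rw [sum_comm]
        refine sum_congr rfl fun x _ => ?_
        rw [sum_filter]
        refine sum_congr rfl fun J _ => ?_
        split_ifs with h <;> ring
    _ ≤ ∑ x ∈ (Fintype.piFinset fun _ : Fin m => Q).filter
          (fun v => ∀ i j, i ≠ j → G.Adj (v i) (v j)),
          (∏ i, mu (x i)) * (q * hc G mu (Q ∪ R)) := by
        refine sum_le_sum fun x hx => ?_
        rw [mem_filter, Fintype.mem_piFinset] at hx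
        exact mul_le_mul_of_nonneg_left (htup x hx.1 hx.2) (prod_nonneg fun i _ => hmu _)
    _ = q * cl G mu m Q * hc G mu (Q ∪ R) := by
        rw [← sum_mul, cl]; ring

/-- The inequality for one colour. -/
theorem colour_ineq (G : SimpleGraph V) [DecidableRel G.Adj] (mu : V → ℝ) (hmu : ∀ v, 0 ≤ mu v)
    (mm : ℝ) (hmm : ∀ v, mu v ≤ mm) (hmm0 : 0 ≤ mm)
    (Q R : Finset V) (hQR : Disjoint Q R) (m : ℕ) (q Lam e : ℝ)
    (he : 0 < e) (he2 : e ≤ 1 / 4) (hLam : (m : ℝ) ^ 2 * (mm + 1 / e) ≤ Lam) (hLam0 : 0 < Lam)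
    (htup : ∀ x : Fin m → V, (∀ i, x i ∈ Q) → (∀ i j, i ≠ j → G.Adj (x i) (x j)) →
      ∑ J ∈ (inds G R).filter (fun J => ∀ i, x i ∈ free G Q J),
        (∏ y ∈ J, mu y) * hc G mu (free G Q J) ≤ q * hc G mu (Q ∪ R))
    (hcl : 2 * (q * cl G mu m Q) ≤ e * ((1 + 2 * e) * Lam) ^ m) :
    (1 - 2 * e) * hc G mu (Q ∪ R) ≤ ∑ I ∈ inds G (Q ∪ R), (∏ x ∈ I, mu x) *
      ((if I ∩ Q = ∅ then 1 + Lam / 2 else 0) + ((I ∩ Q).card : ℝ) / 2) := by
  classical
  set Z := hc G mu (Q ∪ R) with hZ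
  have hZpos : 0 < Z := hc_pos G hmu _
  let bad : Finset V → Prop := fun J =>
    2 * e * hc G mu (free G Q J) < ∑ v ∈ free G Q J, mu v - Lam
  -- the weight of the bad sets
  have hbadsum : ∑ J ∈ (inds G R).filter bad, (∏ y ∈ J, mu y) * hc G mu (free G Q J) ≤ e * Z := by
    have hM : 0 < ((1 + 2 * e) * Lam) ^ m / 2 := by positivity
    have h1 : (((1 + 2 * e) * Lam) ^ m / 2) *
        ∑ J ∈ (inds G R).filter bad, (∏ y ∈ J, mu y) * hc G mu (free G Q J) ≤
        q * cl G mu m Q * Z := by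
      refine le_trans ?_ (exp_cl G mu hmu Q R m q htup)
      rw [mul_sum]
      refine le_trans (sum_le_sum fun J hJ => ?_)
        (sum_le_sum_of_subset_of_nonneg (filter_subset bad (inds G R)) fun J _ _ => ?_)
      · have hb := (mem_filter.1 hJ).2
        have h2 := bad_cliques G mu hmu mm hmm hmm0 (free G Q J) Lam e he he2 m hLam hb
        rw [mul_comm]
        exact mul_le_mul_of_nonneg_left h2
          (mul_nonneg (wt_nonneg hmu J) (hc_pos G hmu _).le)
      · refine mul_nonneg (mul_nonneg (wt_nonneg hmu J) (hc_pos G hmu _).le) ?_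
        exact sum_nonneg fun x _ => prod_nonneg fun i _ => hmu _
    have h2 : q * cl G mu m Q * Z ≤ (((1 + 2 * e) * Lam) ^ m / 2) * (e * Z) := by
      have h3 : q * cl G mu m Q ≤ e * ((1 + 2 * e) * Lam) ^ m / 2 := by linarith
      calc _ ≤ (e * ((1 + 2 * e) * Lam) ^ m / 2) * Z := mul_le_mul_of_nonneg_right h3 hZpos.le
        _ = _ := by ring
    exact le_of_mul_le_mul_left (h1.trans h2) hM
  -- the main computation
  rw [markov G mu Q R hQR]
  have hinner : ∀ J ∈ inds G R,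
      (if bad J then 0 else (1 - e) * hc G mu (free G Q J)) ≤
      ∑ I ∈ inds G (free G Q J), (∏ x ∈ I, mu x) *
        ((if (I ∪ J) ∩ Q = ∅ then 1 + Lam / 2 else 0) + (((I ∪ J) ∩ Q).card : ℝ) / 2) := by
    intro J hJ
    rw [mem_inds] at hJ
    have hcongr : ∑ I ∈ inds G (free G Q J), (∏ x ∈ I, mu x) *
        ((if (I ∪ J) ∩ Q = ∅ then 1 + Lam / 2 else 0) + (((I ∪ J) ∩ Q).card : ℝ) / 2) =
        ∑ I ∈ inds G (free G Q J), (∏ x ∈ I, mu x) *
        ((if I = ∅ then 1 + Lam / 2 else 0) + (I.card : ℝ) / 2) := by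
      refine sum_congr rfl fun I hI => ?_
      rw [mem_inds] at hI
      have e2 : (I ∪ J) ∩ Q = I := by
        rw [union_inter_distrib_right, inter_eq_left.2 (hI.1.trans (free_subset G Q J)),
          disjoint_iff_inter_eq_empty.1 (hQR.symm.mono_left hJ.1), union_empty]
      rw [e2]
    rw [hcongr]
    split_ifs with hb
    · refine sum_nonneg fun I _ => mul_nonneg (wt_nonneg hmu I) ?_
      split_ifs <;> positivity
    · have h1 := static_ineq G mu hmu (free G Q J) Lam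
      have h2 : ∑ v ∈ free G Q J, mu v - Lam ≤ 2 * e * hc G mu (free G Q J) := not_lt.1 hb
      linarith
  calc (1 - 2 * e) * Z ≤ (1 - e) * (Z - e * Z) := by
        nlinarith [mul_nonneg (sq_nonneg e) hZpos.le]
    _ ≤ (1 - e) * (Z - ∑ J ∈ (inds G R).filter bad,
          (∏ y ∈ J, mu y) * hc G mu (free G Q J)) :=
        mul_le_mul_of_nonneg_left (by linarith) (by linarith)
    _ = ∑ J ∈ inds G R, (∏ x ∈ J, mu x) *
          (if bad J then 0 else (1 - e) * hc G mu (free G Q J)) := by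
        rw [hZ, hc_markov G mu Q R hQR, sum_filter, ← sum_sub_distrib, mul_sum]
        refine sum_congr rfl fun J _ => ?_
        split_ifs <;> ring
    _ ≤ _ := sum_le_sum fun J hJ => mul_le_mul_of_nonneg_left (hinner J hJ) (wt_nonneg hmu J)

end MP433GB
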