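import Mathlib

/-!
# Theorem GB (note 3101): definitions

`ind G I`: `I` is an independent set of `G`.  `hc G mu P`: the partition function of the hard-core
model with activities `mu` on the vertex set `P`.  `cl G a m U`: the total weight of the ordered
`m`-cliques inside `U`.
-/

namespace MP433GB

open Finset

variable {V : Type*} [Fintype V] [DecidableEq V]

/-- `I` is independent. -/
def ind (G : SimpleGraph V) (I : Finset V) : Prop := ∀ x ∈ I, ∀ y ∈ I, ¬ G.Adj x y

instance (G : SimpleGraph V) [DecidableRel G.Adj] (I : Finset V) : Decidable (ind G I) := by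
  unfold ind; infer_instance

/-- the independent subsets of `P` -/
def inds (G : SimpleGraph V) [DecidableRel G.Adj] (P : Finset V) : Finset (Finset V) :=
  P.powerset.filter (ind G)

/-- hard-core partition function -/
noncomputable def hc (G : SimpleGraph V) [DecidableRel G.Adj] (mu : V → ℝ) (P : Finset V) : ℝ :=
  ∑ I ∈ inds G P, ∏ x ∈ I, mu x

/-- total weight of the ordered `m`-cliques of `G` inside `U` -/
noncomputable def cl (G : SimpleGraph V) [DecidableRel G.Adj] (a : V → ℝ) (m : ℕ)
    (U : Finset V) : ℝ :=
  ∑ v ∈ (Fintype.piFinset fun _ : Fin m => U).filter (fun v => ∀ i j, i ≠ j → G.Adj (v i) (v j)),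
    ∏ i, a (v i)

/-- ordered pairs of distinct non-adjacent vertices of `U` -/
def nonadj (G : SimpleGraph V) [DecidableRel G.Adj] (U : Finset V) : Finset (V × V) :=
  (U ×ˢ U).filter fun q => q.1 ≠ q.2 ∧ ¬ G.Adj q.1 q.2

end MP433GB
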