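import Pool.Agent.Work.MP_433a35_co.GB.Main

/-!
# From Theorem GB to the strong chromatic index

`RStar kap`: the robust harmonic clique inequality with constant `kap`.  `edge_main`: `RStar kap`
implies that the strong chromatic index is at most `(kap / 2 + ε) D²`.
-/

namespace MP433GB

open Finset

set_option linter.unusedSectionVars false

variable {V : Type*} [Fintype V] [DecidableEq V]

/-- number of common neighbours -/
def codeg (G : SimpleGraph V) [DecidableRel G.Adj] (u v : V) : ℕ :=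
  (G.neighborFinset u ∩ G.neighborFinset v).card

/-- number of ordered pairs of adjacent vertices inside `N(u) ∪ N(v)` (twice the number of edges) -/
def inn (G : SimpleGraph V) [DecidableRel G.Adj] (u v : V) : ℕ :=
  (((G.neighborFinset u ∪ G.neighborFinset v) ×ˢ (G.neighborFinset u ∪ G.neighborFinset v)).filter
    fun q => G.Adj q.1 q.2).card

/-- the edges `ab` and `cd` do not conflict -/
def nonconf (G : SimpleGraph V) (a b c d : V) : Prop :=
  (a ≠ c ∧ ¬ G.Adj a c) ∧ (a ≠ d ∧ ¬ G.Adj a d) ∧ (b ≠ c ∧ ¬ G.Adj b c) ∧ (b ≠ d ∧ ¬ G.Adj b d)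

instance (G : SimpleGraph V) [DecidableRel G.Adj] (a b c d : V) : Decidable (nonconf G a b c d) := by
  unfold nonconf; infer_instance

/-- The robust harmonic clique inequality: if a set `F` of edges of a graph `G` with maximum degree
at most `D` has at most `eta D⁴` ordered quadruples `(a, b, c, d)` with `ab, cd ∈ F` not
conflicting, then `∑_{uv ∈ F} 1 / ((kap - 2) D² + codeg(u,v) D + e(N(u) ∪ N(v))) ≤ 1 + e1`
(the sum over ordered pairs is twice that). -/
def RStar (kap : ℝ) : Prop :=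
  ∀ e1 : ℝ, 0 < e1 → ∃ eta : ℝ, 0 < eta ∧ ∃ D0 : ℕ, ∀ (V : Type) [Fintype V] [DecidableEq V]
    (G F : SimpleGraph V) [DecidableRel G.Adj] [DecidableRel F.Adj] (D : ℕ), D0 ≤ D → F ≤ G →
    (∀ v, G.degree v ≤ D) →
    (((univ : Finset ((V × V) × (V × V))).filter fun q => F.Adj q.1.1 q.1.2 ∧ F.Adj q.2.1 q.2.2 ∧
      nonconf G q.1.1 q.1.2 q.2.1 q.2.2).card : ℝ) ≤ eta * (D : ℝ) ^ 4 →
    ∑ q ∈ (univ : Finset (V × V)).filter (fun q => F.Adj q.1 q.2),
      1 / ((kap - 2) * (D : ℝ) ^ 2 + codeg G q.1 q.2 * D + (inn G q.1 q.2 : ℝ) / 2) ≤ 2 * (1 + e1)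

/-- the conflict graph of the edges of `G` -/
def cg (G : SimpleGraph V) : SimpleGraph (Sym2 V) where
  Adj e f := e ≠ f ∧ e ∈ G.edgeSet ∧ f ∈ G.edgeSet ∧ ∃ x ∈ e, ∃ y ∈ f, x = y ∨ G.Adj x y
  symm := by
    constructor
    rintro e f ⟨h1, h2, h3, x, hx, y, hy, h⟩
    refine ⟨h1.symm, h3, h2, y, hy, x, hx, ?_⟩
    rcases h with h | h
    · exact Or.inl h.symm
    · exact Or.inr h.symm
  loopless := by
    constructor
    rintro e ⟨h, _⟩
    exact h rfl

lemma cg_adj {G : SimpleGraph V} {e f : Sym2 V} : (cg G).Adj e f ↔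
    e ≠ f ∧ e ∈ G.edgeSet ∧ f ∈ G.edgeSet ∧ ∃ x ∈ e, ∃ y ∈ f, x = y ∨ G.Adj x y := Iff.rfl

/-- every edge has two orientations -/
lemma sum_orient (U : Finset (Sym2 V)) (hU : ∀ e ∈ U, ¬ e.IsDiag) (g : Sym2 V → ℝ) :
    ∑ q ∈ (univ : Finset (V × V)).filter (fun q => s(q.1, q.2) ∈ U), g s(q.1, q.2) =
      2 * ∑ e ∈ U, g e := by
  classical
  rw [← sum_fiberwise_of_maps_to (s := (univ : Finset (V × V)).filter (fun q => s(q.1, q.2) ∈ U))
    (t := U) (g := fun q => s(q.1, q.2)) (fun q hq => (mem_filter.1 hq).2), mul_sum]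
  refine sum_congr rfl fun e he => ?_
  induction e using Sym2.ind with
  | _ a b =>
    have hne : a ≠ b := by
      have := hU _ he
      simpa using this
    have hset : ((univ : Finset (V × V)).filter (fun q => s(q.1, q.2) ∈ U)).filter
        (fun q => s(q.1, q.2) = s(a, b)) = {(a, b), (b, a)} := by
      ext q
      simp only [mem_filter, mem_univ, true_and, mem_insert, mem_singleton, Sym2.eq_iff,
        Prod.ext_iff]
      constructor
      · rintro ⟨_, h⟩; exact h
      · intro h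
        refine ⟨?_, h⟩
        rcases h with ⟨h1, h2⟩ | ⟨h1, h2⟩
        · rw [h1, h2]; exact he
        · rw [h1, h2, Sym2.eq_swap]; exact he
    rw [hset, sum_pair (by
      intro h
      exact hne (Prod.ext_iff.1 h).1)]
    simp only
    rw [Sym2.eq_swap (a := b) (b := a)]
    ring

/-- the closed neighbourhood of an edge in the conflict graph -/
lemma degree_cg (G : SimpleGraph V) [DecidableRel G.Adj] [DecidableRel (cg G).Adj] (D : ℕ)
    (hD : ∀ v, G.degree v ≤ D) (u v : V) (huv : G.Adj u v) :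
    (((cg G).degree s(u, v) : ℝ) + 1) + codeg G u v * D + (inn G u v : ℝ) / 2 ≤
      2 * (D : ℝ) ^ 2 := by
  classical
  set W : Finset V := G.neighborFinset u ∪ G.neighborFinset v with hW
  -- the graph of the edges touching W
  let G' : SimpleGraph V :=
    { Adj := fun y z => G.Adj y z ∧ (y ∈ W ∨ z ∈ W)
      symm := by
        constructor
        rintro y z ⟨h1, h2⟩
        exact ⟨h1.symm, h2.symm⟩
      loopless := by
        constructor
        rintro y ⟨h1, _⟩
        exact G.irrefl h1 }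
  have hu : u ∈ W := by
    rw [hW, mem_union, SimpleGraph.mem_neighborFinset, SimpleGraph.mem_neighborFinset]
    exact Or.inr huv.symm
  have hv : v ∈ W := by
    rw [hW, mem_union, SimpleGraph.mem_neighborFinset, SimpleGraph.mem_neighborFinset]
    exact Or.inl huv
  -- neighbours of the edge are edges of G'
  have h1 : (cg G).degree s(u, v) + 1 ≤ G'.edgeFinset.card := by
    rw [← SimpleGraph.card_neighborFinset_eq_degree]
    have hnot : s(u, v) ∉ (cg G).neighborFinset s(u, v) := by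
      rw [SimpleGraph.mem_neighborFinset]
      exact (cg G).irrefl
    rw [← card_insert_of_notMem hnot]
    apply card_le_card
    intro f hf
    rw [SimpleGraph.mem_edgeFinset]
    rw [mem_insert, SimpleGraph.mem_neighborFinset] at hf
    rcases hf with hf | hf
    · rw [hf, SimpleGraph.mem_edgeSet]
      exact ⟨huv, Or.inl hu⟩
    · rw [cg_adj] at hf
      obtain ⟨_, _, hfe, x, hx, y, hy, hxy⟩ := hf
      obtain ⟨z, rfl⟩ := hy
      rw [SimpleGraph.mem_edgeSet] at hfe ⊢
      refine ⟨hfe, ?_⟩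
      rw [Sym2.mem_iff] at hx
      rcases hxy with rfl | hxy
      · left
        rcases hx with rfl | rfl
        · exact hu
        · exact hv
      · left
        rw [hW, mem_union, SimpleGraph.mem_neighborFinset, SimpleGraph.mem_neighborFinset]
        rcases hx with rfl | rfl
        · exact Or.inl hxy
        · exact Or.inr hxy
  -- count ordered pairs
  have hcount : ∀ (K : SimpleGraph V) [DecidableRel K.Adj] (S : Finset V),
      ((univ : Finset (V × V)).filter fun q => K.Adj q.1 q.2 ∧ q.1 ∈ S).card =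
        ∑ y ∈ S, K.degree y := by
    intro K _ S
    rw [card_filter, ← univ_product_univ, sum_product, ← sum_subset (subset_univ S)]
    · refine sum_congr rfl fun y hy => ?_
      rw [← SimpleGraph.card_neighborFinset_eq_degree, SimpleGraph.neighborFinset_eq_filter,
        card_filter]
      refine sum_congr rfl fun z _ => ?_
      simp [hy]
    · intro y _ hy
      refine sum_eq_zero fun z _ => ?_
      simp [hy]
  have h2 : 2 * G'.edgeFinset.card =
      ((univ : Finset (V × V)).filter fun q => G'.Adj q.1 q.2).card := by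
    have h := hcount G' univ
    simp only [mem_univ, and_true] at h
    rw [h, G'.sum_degrees_eq_twice_card_edges]
  have hsym : ((univ : Finset (V × V)).filter fun q => G.Adj q.1 q.2 ∧ q.2 ∈ W).card =
      ((univ : Finset (V × V)).filter fun q => G.Adj q.1 q.2 ∧ q.1 ∈ W).card := by
    refine card_bij' (fun q _ => (q.2, q.1)) (fun q _ => (q.2, q.1)) ?_ ?_ ?_ ?_
    · intro q hq
      simp only [mem_filter, mem_univ, true_and] at hq ⊢
      exact ⟨hq.1.symm, hq.2⟩
    · intro q hq
      simp only [mem_filter, mem_univ, true_and] at hq ⊢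
      exact ⟨hq.1.symm, hq.2⟩
    · intro q _; rfl
    · intro q _; rfl
  have h3 : ((univ : Finset (V × V)).filter fun q => G'.Adj q.1 q.2).card + inn G u v =
      2 * ∑ y ∈ W, G.degree y := by
    have h4 := card_union_add_card_inter
      ((univ : Finset (V × V)).filter fun q => G.Adj q.1 q.2 ∧ q.1 ∈ W)
      ((univ : Finset (V × V)).filter fun q => G.Adj q.1 q.2 ∧ q.2 ∈ W)
    rw [hsym, hcount G W, ← two_mul] at h4
    rw [← h4]
    congr 1
    · congr 1
      ext q
      simp only [mem_filter, mem_univ, true_and, mem_union]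
      constructor
      · rintro ⟨h5, h6 | h6⟩
        · exact Or.inl ⟨h5, h6⟩
        · exact Or.inr ⟨h5, h6⟩
      · rintro (⟨h5, h6⟩ | ⟨h5, h6⟩)
        · exact ⟨h5, Or.inl h6⟩
        · exact ⟨h5, Or.inr h6⟩
    · unfold inn
      congr 1
      ext q
      simp only [mem_filter, mem_univ, true_and, mem_inter, mem_product, ← hW]
      tauto
  have h4 : W.card + codeg G u v = G.degree u + G.degree v := by
    rw [← SimpleGraph.card_neighborFinset_eq_degree, ← SimpleGraph.card_neighborFinset_eq_degree]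
    exact card_union_add_card_inter _ _
  have h5 : ∑ y ∈ W, G.degree y ≤ W.card * D := by
    rw [← smul_eq_mul, ← sum_const]
    exact sum_le_sum fun y _ => hD y
  have h1' : ((cg G).degree s(u, v) : ℝ) + 1 ≤ G'.edgeFinset.card := by exact_mod_cast h1
  have h23 : 2 * (G'.edgeFinset.card : ℝ) + inn G u v = 2 * ((∑ y ∈ W, G.degree y : ℕ) : ℝ) := by
    have : 2 * G'.edgeFinset.card + inn G u v = 2 * ∑ y ∈ W, G.degree y := by rw [h2, h3]
    exact_mod_cast this
  have h5' : ((∑ y ∈ W, G.degree y : ℕ) : ℝ) ≤ (W.card : ℝ) * D := by exact_mod_cast h5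
  have h4' : (W.card : ℝ) + codeg G u v ≤ 2 * D := by
    have h6 : (W.card : ℝ) + codeg G u v = G.degree u + G.degree v := by exact_mod_cast h4
    have h7 : (G.degree u : ℝ) ≤ D := by exact_mod_cast hD u
    have h8 : (G.degree v : ℝ) ≤ D := by exact_mod_cast hD v
    linarith
  have h6 : (W.card : ℝ) * D + codeg G u v * D ≤ 2 * (D : ℝ) ^ 2 := by
    have := mul_le_mul_of_nonneg_right h4' (Nat.cast_nonneg (α := ℝ) D)
    nlinarith
  linarith

/-- the number of non-conflicting quadruples of a set of edges -/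
lemma quads_le (G : SimpleGraph V) [DecidableRel G.Adj] [DecidableRel (cg G).Adj]
    (U : Finset (Sym2 V)) (hU : ∀ e ∈ U, e ∈ G.edgeSet) (F : SimpleGraph V) [DecidableRel F.Adj]
    (hF : ∀ a b, F.Adj a b ↔ s(a, b) ∈ U) :
    (((univ : Finset ((V × V) × (V × V))).filter fun q => F.Adj q.1.1 q.1.2 ∧
      F.Adj q.2.1 q.2.2 ∧ nonconf G q.1.1 q.1.2 q.2.1 q.2.2).card : ℝ) ≤
      4 * ((nonadj (cg G) U).card : ℝ) := by
  classical
  have hdiag : ∀ e ∈ U, ¬ e.IsDiag := fun e he => G.not_isDiag_of_mem_edgeSet (hU e he)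
  set g : Sym2 V → Sym2 V → ℝ := fun e f => if e ≠ f ∧ ¬ (cg G).Adj e f then 1 else 0 with hg
  have h1 : ((nonadj (cg G) U).card : ℝ) = ∑ e ∈ U, ∑ f ∈ U, g e f := by
    unfold nonadj
    rw [card_filter, sum_product]
    push_cast
    rfl
  have h2 : (((univ : Finset ((V × V) × (V × V))).filter fun q => F.Adj q.1.1 q.1.2 ∧
      F.Adj q.2.1 q.2.2 ∧ nonconf G q.1.1 q.1.2 q.2.1 q.2.2).card : ℝ) ≤
      ∑ q ∈ (univ : Finset (V × V)).filter (fun q => s(q.1, q.2) ∈ U),
        ∑ r ∈ (univ : Finset (V × V)).filter (fun r => s(r.1, r.2) ∈ U),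
          g s(q.1, q.2) s(r.1, r.2) := by
    rw [← sum_product', card_eq_sum_ones]
    push_cast
    have hsub : ((univ : Finset ((V × V) × (V × V))).filter fun q => F.Adj q.1.1 q.1.2 ∧
      F.Adj q.2.1 q.2.2 ∧ nonconf G q.1.1 q.1.2 q.2.1 q.2.2) ⊆
      (univ : Finset (V × V)).filter (fun q => s(q.1, q.2) ∈ U) ×ˢ
        (univ : Finset (V × V)).filter (fun r => s(r.1, r.2) ∈ U) := by
      intro q hq
      simp only [mem_filter, mem_univ, true_and, mem_product] at hq ⊢
      exact ⟨(hF _ _).1 hq.1, (hF _ _).1 hq.2.1⟩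
    refine le_trans (sum_le_sum fun q hq => ?_) (sum_le_sum_of_subset_of_nonneg hsub fun q _ _ => ?_)
    · simp only [mem_filter, mem_univ, true_and] at hq
      obtain ⟨hq1, hq2, hn⟩ := hq
      obtain ⟨n1, n2, n3, n4⟩ := hn
      have hne : s(q.1.1, q.1.2) ≠ s(q.2.1, q.2.2) := by
        intro h
        rw [Sym2.eq_iff] at h
        rcases h with ⟨h, _⟩ | ⟨h, _⟩
        · exact n1.1 h
        · exact n2.1 h
      have hna : ¬ (cg G).Adj s(q.1.1, q.1.2) s(q.2.1, q.2.2) := by
        rw [cg_adj]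
        rintro ⟨_, _, _, x, hx, y, hy, hxy⟩
        rw [Sym2.mem_iff] at hx hy
        rcases hx with rfl | rfl <;> rcases hy with rfl | rfl <;> rcases hxy with h | h
        · exact n1.1 h
        · exact n1.2 h
        · exact n2.1 h
        · exact n2.2 h
        · exact n3.1 h
        · exact n3.2 h
        · exact n4.1 h
        · exact n4.2 h
      simp only [hg]
      rw [if_pos ⟨hne, hna⟩]
    · simp only [hg]
      split_ifs <;> norm_num
  refine h2.trans ?_
  rw [h1]
  have h3 : ∀ q : V × V, ∑ r ∈ (univ : Finset (V × V)).filter (fun r => s(r.1, r.2) ∈ U),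
      g s(q.1, q.2) s(r.1, r.2) = 2 * ∑ f ∈ U, g s(q.1, q.2) f := fun q =>
    sum_orient U hdiag fun f => g s(q.1, q.2) f
  simp_rw [h3]
  rw [← mul_sum, sum_orient U hdiag fun e => ∑ f ∈ U, g e f]
  linarith

/-- **`RStar kap` bounds the strong chromatic index by `(kap / 2 + ε) D²`.** -/
theorem edge_main (kap : ℝ) (hkap : 2 < kap) (hR : RStar kap) (ε : ℝ) (hε : 0 < ε) :
    ∃ K : ℕ, ∀ (V : Type) [Fintype V] (G : SimpleGraph V) (D : ℕ), K ≤ D →
      (∀ v, (G.neighborSet v).ncard ≤ D) →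
      ∃ col : Sym2 V → ℕ,
        (∀ a b, G.Adj a b → (col s(a, b) : ℝ) < (kap / 2 + ε) * (D : ℝ) ^ 2) ∧
        ∀ a b c e, G.Adj a b → G.Adj c e → s(a, b) ≠ s(c, e) → (b = c ∨ G.Adj b c) →
          col s(a, b) ≠ col s(c, e) := by
  classical
  obtain ⟨e1, he1, hgb⟩ := gb.{0} kap (kap - 2) (ε / 2) (by linarith) (by linarith) (by linarith)
  obtain ⟨eta, heta, D0, hD0⟩ := hR e1 he1
  obtain ⟨N0, hN0⟩ := hgb (eta / 4) (by linarith)
  refine ⟨max (max 1 D0) (max ⌈N0⌉₊ ⌈2 / ε⌉₊), fun V _ G D hKD hdeg => ?_⟩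
  have hD1 : 1 ≤ D := le_trans ((le_max_left _ _).trans (le_max_left _ _)) hKD
  have hDD0 : D0 ≤ D := le_trans ((le_max_right _ _).trans (le_max_left _ _)) hKD
  have hDN : ⌈N0⌉₊ ≤ D := le_trans ((le_max_left _ _).trans (le_max_right _ _)) hKD
  have hDe : ⌈2 / ε⌉₊ ≤ D := le_trans ((le_max_right _ _).trans (le_max_right _ _)) hKD
  have hD1' : (1 : ℝ) ≤ D := by exact_mod_cast hD1
  have hDsq : (D : ℝ) ≤ (D : ℝ) ^ 2 := by nlinarith
  have hN : N0 ≤ (D : ℝ) ^ 2 := by
    have h1 : N0 ≤ ⌈N0⌉₊ := Nat.le_ceil _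
    have h2 : ((⌈N0⌉₊ : ℕ) : ℝ) ≤ D := by exact_mod_cast hDN
    linarith
  have he2 : 2 ≤ ε * (D : ℝ) ^ 2 := by
    have h1 : 2 / ε ≤ ⌈2 / ε⌉₊ := Nat.le_ceil _
    have h2 : ((⌈2 / ε⌉₊ : ℕ) : ℝ) ≤ D := by exact_mod_cast hDe
    have h3 : 2 / ε ≤ (D : ℝ) ^ 2 := by linarith
    rw [div_le_iff₀ hε] at h3
    linarith
  have hdeg' : ∀ v, G.degree v ≤ D := by
    intro v
    rw [← SimpleGraph.card_neighborFinset_eq_degree, ← Set.ncard_coe_finset,
      SimpleGraph.coe_neighborFinset]
    exact hdeg v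
  set X : Sym2 V → ℝ := fun e => kap * (D : ℝ) ^ 2 - 1 - (cg G).degree e with hX
  have hlow : ∀ e, (kap - 2) * (D : ℝ) ^ 2 ≤ X e := by
    intro e
    by_cases he : e ∈ G.edgeSet
    · induction e using Sym2.ind with
      | _ u v =>
        have h := degree_cg G D hdeg' u v he
        have h1 : (0 : ℝ) ≤ codeg G u v * D := by positivity
        have h2 : (0 : ℝ) ≤ (inn G u v : ℝ) / 2 := by positivity
        simp only [hX]
        linarith
    · have h0 : (cg G).degree e = 0 := by
        rw [← SimpleGraph.card_neighborFinset_eq_degree, card_eq_zero, eq_empty_iff_forall_notMem]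
        intro f hf
        rw [SimpleGraph.mem_neighborFinset, cg_adj] at hf
        exact he hf.2.1
      simp only [hX, h0]
      push_cast
      linarith
  have hcol := hN0 ((D : ℝ) ^ 2) hN (Sym2 V) (cg G) X hlow (fun e => by simp only [hX]; linarith) ?_
    ⌈(kap / 2 + ε / 2) * (D : ℝ) ^ 2⌉₊ (Nat.le_ceil _)
  · obtain ⟨C⟩ := hcol
    refine ⟨fun e => (C e : ℕ), fun a b _ => ?_, fun a b c d hab hcd hne hbc => ?_⟩
    · have h1 : ((C s(a, b) : ℕ) : ℝ) < (⌈(kap / 2 + ε / 2) * (D : ℝ) ^ 2⌉₊ : ℕ) := by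
        exact_mod_cast (C s(a, b)).isLt
      have h2 : ((C s(a, b) : ℕ) : ℝ) + 1 ≤ (⌈(kap / 2 + ε / 2) * (D : ℝ) ^ 2⌉₊ : ℕ) := by
        exact_mod_cast (C s(a, b)).isLt
      have h3 : ((⌈(kap / 2 + ε / 2) * (D : ℝ) ^ 2⌉₊ : ℕ) : ℝ) <
          (kap / 2 + ε / 2) * (D : ℝ) ^ 2 + 1 := Nat.ceil_lt_add_one (by
            have : 0 < kap / 2 + ε / 2 := by linarith
            positivity)
      have h4 : (kap / 2 + ε) * (D : ℝ) ^ 2 =
          (kap / 2 + ε / 2) * (D : ℝ) ^ 2 + ε * (D : ℝ) ^ 2 / 2 := by ring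
      rw [h4]
      linarith
    · have hadj : (cg G).Adj s(a, b) s(c, d) := by
        rw [cg_adj]
        exact ⟨hne, hab, hcd, b, Sym2.mem_mk_right a b, c, Sym2.mem_mk_left c d, hbc⟩
      have h1 := C.valid hadj
      intro h2
      exact h1 (Fin.ext h2)
  · intro w U hU hnon
    have hUe : ∀ e ∈ U, e ∈ G.edgeSet := by
      intro e he
      have := hU he
      rw [SimpleGraph.mem_neighborFinset, cg_adj] at this
      exact this.2.2.1
    let F : SimpleGraph V :=
      { Adj := fun a b => s(a, b) ∈ U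
        symm := by
          constructor
          intro a b h
          rwa [Sym2.eq_swap]
        loopless := by
          constructor
          intro a h
          have := hUe _ h
          exact G.irrefl this }
    have hF : ∀ a b, F.Adj a b ↔ s(a, b) ∈ U := fun a b => Iff.rfl
    have hFG : F ≤ G := fun a b h => hUe _ h
    have hq := quads_le G U hUe F hF
    have h4 : (4 : ℝ) * ((nonadj (cg G) U).card : ℝ) ≤ eta * (D : ℝ) ^ 4 := by
      have h5 : eta / 4 * ((D : ℝ) ^ 2) ^ 2 = eta * (D : ℝ) ^ 4 / 4 := by ring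
      rw [h5] at hnon
      linarith
    have hstar := hD0 V G F D hDD0 hFG hdeg' (hq.trans h4)
    have hor := sum_orient U (fun e he => G.not_isDiag_of_mem_edgeSet (hUe e he))
      (fun e => 1 / X e)
    have hle : ∑ q ∈ (univ : Finset (V × V)).filter (fun q => s(q.1, q.2) ∈ U),
        1 / X s(q.1, q.2) ≤ 2 * (1 + e1) := by
      refine le_trans ?_ hstar
      refine le_trans (le_of_eq ?_) (sum_le_sum (s := (univ : Finset (V × V)).filter
        (fun q => F.Adj q.1 q.2)) (f := fun q => 1 / X s(q.1, q.2)) fun q hq => ?_)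
      · refine sum_congr ?_ fun q _ => rfl
        ext q
        simp [hF]
      · have hadj : G.Adj q.1 q.2 := hFG (mem_filter.1 hq).2
        have h := degree_cg G D hdeg' q.1 q.2 hadj
        have h1 : (0 : ℝ) ≤ codeg G q.1 q.2 * D := by positivity
        have h2 : (0 : ℝ) ≤ (inn G q.1 q.2 : ℝ) / 2 := by positivity
        have h3 : 0 < (kap - 2) * (D : ℝ) ^ 2 := mul_pos (by linarith) (by positivity)
        refine div_le_div_of_nonneg_left zero_le_one (by linarith) ?_
        simp only [hX]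
        linarith
    rw [hor] at hle
    linarith

end MP433GB
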