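import Pool.Agent.Work.MP_433a35_co.GB.Edge

/-!
# The main theorem for classes of graphs

`RStarP P kap` is `RStar kap` for the graphs with the property `P`; the proof of `edge_main` never
changes the graph, so it gives the bound for the graphs with the property `P`.
-/

namespace MP433GB

open Finset

set_option linter.unusedSectionVars false

variable {V : Type*} [Fintype V] [DecidableEq V]

/-- `RStar` for the graphs with the property `P` -/
def RStarP (P : (V : Type) → SimpleGraph V → Prop) (kap : ℝ) : Prop :=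
  ∀ e1 : ℝ, 0 < e1 → ∃ eta : ℝ, 0 < eta ∧ ∃ D0 : ℕ, ∀ (V : Type) [Fintype V] [DecidableEq V]
    (G F : SimpleGraph V) [DecidableRel G.Adj] [DecidableRel F.Adj] (D : ℕ), D0 ≤ D → P V G →
    F ≤ G → (∀ v, G.degree v ≤ D) →
    (((univ : Finset ((V × V) × (V × V))).filter fun q => F.Adj q.1.1 q.1.2 ∧ F.Adj q.2.1 q.2.2 ∧
      nonconf G q.1.1 q.1.2 q.2.1 q.2.2).card : ℝ) ≤ eta * (D : ℝ) ^ 4 →
    ∑ q ∈ (univ : Finset (V × V)).filter (fun q => F.Adj q.1 q.2),
      1 / ((kap - 2) * (D : ℝ) ^ 2 + codeg G q.1 q.2 * D + (inn G q.1 q.2 : ℝ) / 2) ≤ 2 * (1 + e1)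

theorem rstar_of_rstarP (kap : ℝ) (h : RStarP (fun _ _ => True) kap) : RStar kap := by
  intro e1 he1
  obtain ⟨eta, heta, D0, hD0⟩ := h e1 he1
  refine ⟨eta, heta, D0, ?_⟩
  intro V _ _ G F _ _ D hD hFG hdeg hbad
  exact hD0 V G F D hD trivial hFG hdeg hbad

/-- **`RStar kap` for the graphs with the property `P` bounds their strong chromatic index by
`(kap / 2 + ε) D²`.** -/
theorem edge_mainP (P : (V : Type) → SimpleGraph V → Prop) (kap : ℝ) (hkap : 2 < kap)
    (hR : RStarP P kap) (ε : ℝ) (hε : 0 < ε) :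
    ∃ K : ℕ, ∀ (V : Type) [Fintype V] (G : SimpleGraph V) (D : ℕ), K ≤ D → P V G →
      (∀ v, (G.neighborSet v).ncard ≤ D) →
      ∃ col : Sym2 V → ℕ,
        (∀ a b, G.Adj a b → (col s(a, b) : ℝ) < (kap / 2 + ε) * (D : ℝ) ^ 2) ∧
        ∀ a b c e, G.Adj a b → G.Adj c e → s(a, b) ≠ s(c, e) → (b = c ∨ G.Adj b c) →
          col s(a, b) ≠ col s(c, e) := by
  classical
  obtain ⟨e1, he1, hgb⟩ := gb.{0} kap (kap - 2) (ε / 2) (by linarith) (by linarith) (by linarith)
  obtain ⟨eta, heta, D0, hD0⟩ := hR e1 he1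
  obtain ⟨N0, hN0⟩ := hgb (eta / 4) (by linarith)
  refine ⟨max (max 1 D0) (max ⌈N0⌉₊ ⌈2 / ε⌉₊), fun V _ G D hKD hPG hdeg => ?_⟩
  have hD1 : 1 ≤ D := le_trans ((le_max_left _ _).trans (le_max_left _ _)) hKD
  have hDD0 : D0 ≤ D := le_trans ((le_max_right _ _).trans (le_max_left _ _)) hKD
  have hDN : ⌈N0⌉₊ ≤ D := le_trans ((le_max_left _ _).trans (le_max_right _ _)) hKD
  have hDe : ⌈2 / ε⌉₊ ≤ D := le_trans ((le_max_right _ _).trans (le_max_right _ _)) hKD
  have hD1' : (1 : ℝ) ≤ D := by exact_mod_cast hD1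
  have hDsq : (D : ℝ) ≤ (D : ℝ) ^ 2 := by nlinarith
  have hN : N0 ≤ (D : ℝ) ^ 2 := by
    have h1 : N0 ≤ ⌈N0⌉₊ := Nat.le_ceil _
    have h2 : ((⌈N0⌉₊ : ℕ) : ℝ) ≤ D := by exact_mod_cast hDN
    linarith
  have he2 : 2 ≤ ε * (D : ℝ) ^ 2 := by
    have h1 : 2 / ε ≤ ⌈2 / ε⌉₊ := Nat.le_ceil _
    have h2 : ((⌈2 / ε⌉₊ : ℕ) : ℝ) ≤ D := by exact_mod_cast hDe
    have h3 : 2 / ε ≤ (D : ℝ) ^ 2 := by linarith
    rw [div_le_iff₀ hε] at h3
    linarith
  have hdeg' : ∀ v, G.degree v ≤ D := by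
    intro v
    rw [← SimpleGraph.card_neighborFinset_eq_degree, ← Set.ncard_coe_finset,
      SimpleGraph.coe_neighborFinset]
    exact hdeg v
  set X : Sym2 V → ℝ := fun e => kap * (D : ℝ) ^ 2 - 1 - (cg G).degree e with hX
  have hlow : ∀ e, (kap - 2) * (D : ℝ) ^ 2 ≤ X e := by
    intro e
    by_cases he : e ∈ G.edgeSet
    · induction e using Sym2.ind with
      | _ u v =>
        have h := degree_cg G D hdeg' u v he
        have h1 : (0 : ℝ) ≤ codeg G u v * D := by positivity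
        have h2 : (0 : ℝ) ≤ (inn G u v : ℝ) / 2 := by positivity
        simp only [hX]
        linarith
    · have h0 : (cg G).degree e = 0 := by
        rw [← SimpleGraph.card_neighborFinset_eq_degree, card_eq_zero, eq_empty_iff_forall_notMem]
        intro f hf
        rw [SimpleGraph.mem_neighborFinset, cg_adj] at hf
        exact he hf.2.1
      simp only [hX, h0]
      push_cast
      linarith
  have hcol := hN0 ((D : ℝ) ^ 2) hN (Sym2 V) (cg G) X hlow (fun e => by simp only [hX]; linarith) ?_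
    ⌈(kap / 2 + ε / 2) * (D : ℝ) ^ 2⌉₊ (Nat.le_ceil _)
  · obtain ⟨C⟩ := hcol
    refine ⟨fun e => (C e : ℕ), fun a b _ => ?_, fun a b c d hab hcd hne hbc => ?_⟩
    · have h1 : ((C s(a, b) : ℕ) : ℝ) < (⌈(kap / 2 + ε / 2) * (D : ℝ) ^ 2⌉₊ : ℕ) := by
        exact_mod_cast (C s(a, b)).isLt
      have h2 : ((C s(a, b) : ℕ) : ℝ) + 1 ≤ (⌈(kap / 2 + ε / 2) * (D : ℝ) ^ 2⌉₊ : ℕ) := by
        exact_mod_cast (C s(a, b)).isLt
      have h3 : ((⌈(kap / 2 + ε / 2) * (D : ℝ) ^ 2⌉₊ : ℕ) : ℝ) <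
          (kap / 2 + ε / 2) * (D : ℝ) ^ 2 + 1 := Nat.ceil_lt_add_one (by
            have : 0 < kap / 2 + ε / 2 := by linarith
            positivity)
      have h4 : (kap / 2 + ε) * (D : ℝ) ^ 2 =
          (kap / 2 + ε / 2) * (D : ℝ) ^ 2 + ε * (D : ℝ) ^ 2 / 2 := by ring
      rw [h4]
      linarith
    · have hadj : (cg G).Adj s(a, b) s(c, d) := by
        rw [cg_adj]
        exact ⟨hne, hab, hcd, b, Sym2.mem_mk_right a b, c, Sym2.mem_mk_left c d, hbc⟩
      have h1 := C.valid hadj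
      intro h2
      exact h1 (Fin.ext h2)
  · intro w U hU hnon
    have hUe : ∀ e ∈ U, e ∈ G.edgeSet := by
      intro e he
      have := hU he
      rw [SimpleGraph.mem_neighborFinset, cg_adj] at this
      exact this.2.2.1
    let F : SimpleGraph V :=
      { Adj := fun a b => s(a, b) ∈ U
        symm := by
          constructor
          intro a b h
          rwa [Sym2.eq_swap]
        loopless := by
          constructor
          intro a h
          have := hUe _ h
          exact G.irrefl this }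
    have hF : ∀ a b, F.Adj a b ↔ s(a, b) ∈ U := fun a b => Iff.rfl
    have hFG : F ≤ G := fun a b h => hUe _ h
    have hq := quads_le G U hUe F hF
    have h4 : (4 : ℝ) * ((nonadj (cg G) U).card : ℝ) ≤ eta * (D : ℝ) ^ 4 := by
      have h5 : eta / 4 * ((D : ℝ) ^ 2) ^ 2 = eta * (D : ℝ) ^ 4 / 4 := by ring
      rw [h5] at hnon
      linarith
    have hstar := hD0 V G F D hDD0 hPG hFG hdeg' (hq.trans h4)
    have hor := sum_orient U (fun e he => G.not_isDiag_of_mem_edgeSet (hUe e he))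
      (fun e => 1 / X e)
    have hle : ∑ q ∈ (univ : Finset (V × V)).filter (fun q => s(q.1, q.2) ∈ U),
        1 / X s(q.1, q.2) ≤ 2 * (1 + e1) := by
      refine le_trans ?_ hstar
      refine le_trans (le_of_eq ?_) (sum_le_sum (s := (univ : Finset (V × V)).filter
        (fun q => F.Adj q.1 q.2)) (f := fun q => 1 / X s(q.1, q.2)) fun q hq => ?_)
      · refine sum_congr ?_ fun q _ => rfl
        ext q
        simp [hF]
      · have hadj : G.Adj q.1 q.2 := hFG (mem_filter.1 hq).2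
        have h := degree_cg G D hdeg' q.1 q.2 hadj
        have h1 : (0 : ℝ) ≤ codeg G q.1 q.2 * D := by positivity
        have h2 : (0 : ℝ) ≤ (inn G q.1 q.2 : ℝ) / 2 := by positivity
        have h3 : 0 < (kap - 2) * (D : ℝ) ^ 2 := mul_pos (by linarith) (by positivity)
        refine div_le_div_of_nonneg_left zero_le_one (by linarith) ?_
        simp only [hX]
        linarith
    rw [hor] at hle
    linarith

end MP433GB
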