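import Mathlib

/-!
# The lopsided local lemma for a nonnegative weight on a finite type
-/

namespace MP433GB

open Finset

/-- Lopsided local lemma. `near i` (with `i ∈ near i`) are the events close to `i`; conditioned on any
family of far events not happening, `B i` has probability at most `p`. -/
theorem lllg {Om ι : Type*} [Fintype Om] [DecidableEq ι] (T : Finset ι) (w : Om → ℝ)
    (hw : ∀ x, 0 ≤ w x) (htot : 0 < ∑ x, w x) (B : ι → Finset Om) [DecidableEq Om]
    (near : ι → Finset ι) (hself : ∀ i, i ∈ near i) (p : ℝ) (hp : 0 ≤ p) (D : ℕ)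
    (hD : ∀ i, (near i).card ≤ D) (h4 : 4 * p * D ≤ 1)
    (hcond : ∀ i ∈ T, ∀ S : Finset ι, (∀ j ∈ S, j ∉ near i) →
      ∑ x ∈ (B i).filter (fun x => ∀ j ∈ S, x ∉ B j), w x ≤
        p * ∑ x ∈ univ.filter (fun x => ∀ j ∈ S, x ∉ B j), w x) :
    ∃ x, 0 < w x ∧ ∀ i ∈ T, x ∉ B i := by
  classical
  set W : Finset ι → ℝ := fun S => ∑ x ∈ univ.filter (fun x => ∀ j ∈ S, x ∉ B j), w x with hW
  set P : ι → Finset ι → ℝ := fun i S =>
    ∑ x ∈ (B i).filter (fun x => ∀ j ∈ S, x ∉ B j), w x with hP
  have hW0 : ∀ S, 0 ≤ W S := fun S => sum_nonneg fun x _ => hw x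
  have hP0 : ∀ i S, 0 ≤ P i S := fun i S => sum_nonneg fun x _ => hw x
  have hWi : ∀ S, W S = ∑ x, if ∀ j ∈ S, x ∉ B j then w x else 0 := fun S => by
    rw [hW]
    simp only [sum_filter]
  have hPi : ∀ i S, P i S = ∑ x, if x ∈ B i ∧ ∀ j ∈ S, x ∉ B j then w x else 0 := fun i S => by
    rw [hP]
    simp only
    rw [← sum_filter]
    apply sum_congr _ fun _ _ => rfl
    ext x
    simp
  have hins : ∀ i S, W S = W (insert i S) + P i S := by
    intro i S
    rw [hWi, hWi, hPi, ← sum_add_distrib]
    apply sum_congr rfl
    intro x _
    by_cases h1 : ∀ j ∈ S, x ∉ B j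
    · by_cases h2 : x ∈ B i
      · rw [if_pos h1, if_neg, if_pos ⟨h2, h1⟩, zero_add]
        intro h3
        exact h3 i (mem_insert_self _ _) h2
      · rw [if_pos h1, if_pos, if_neg (fun h => h2 h.1), add_zero]
        intro j hj
        rcases mem_insert.1 hj with rfl | hj
        · exact h2
        · exact h1 j hj
    · rw [if_neg h1, if_neg, if_neg (fun h => h1 h.2), add_zero]
      intro h3
      exact h1 fun j hj => h3 j (mem_insert_of_mem hj)
  have key : ∀ n : ℕ, ∀ S ⊆ T, S.card = n → ∀ i ∈ T, P i S ≤ 2 * p * W S := by
    intro n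
    induction n using Nat.strong_induction_on with
    | _ n ih =>
    intro S hS hn i hi
    set S1 := S.filter (fun j => j ∈ near i) with hS1
    set S2 := S.filter (fun j => j ∉ near i) with hS2
    have hS2S : S2 ⊆ S := filter_subset _ _
    have h1 : P i S2 ≤ p * W S2 := hcond i hi S2 fun j hj => (mem_filter.1 hj).2
    have h2 : P i S ≤ P i S2 := by
      rw [hPi, hPi]
      apply sum_le_sum
      intro x _
      by_cases h3 : x ∈ B i ∧ ∀ j ∈ S, x ∉ B j
      · rw [if_pos h3, if_pos ⟨h3.1, fun j hj => h3.2 j (hS2S hj)⟩]
      · rw [if_neg h3]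
        split_ifs
        · exact hw x
        · exact le_rfl
    have h3 : W S2 ≤ 2 * W S := by
      rcases S1.eq_empty_or_nonempty with h0 | h0
      · have : S2 = S := by
          have h4 := filter_union_filter_not_eq (fun j => j ∈ near i) S
          change S1 ∪ S2 = S at h4
          rwa [h0, empty_union] at h4
        rw [this]
        linarith [hW0 S]
      · have hlt : S2.card < n := by
          have h7 : S1.card + S2.card = S.card :=
            card_filter_add_card_filter_not (s := S) (fun j => j ∈ near i)
          have h8 : 0 < S1.card := card_pos.2 h0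
          omega
        have h5 : W S2 ≤ W S + ∑ j ∈ S1, P j S2 := by
          simp only [hWi, hPi]
          rw [sum_comm, ← sum_add_distrib]
          apply sum_le_sum
          intro x _
          by_cases h6 : ∀ j ∈ S2, x ∉ B j
          · rw [if_pos h6]
            by_cases h7 : ∀ j ∈ S, x ∉ B j
            · rw [if_pos h7]
              have : 0 ≤ ∑ j ∈ S1, if x ∈ B j ∧ ∀ j ∈ S2, x ∉ B j then w x else 0 :=
                sum_nonneg fun j _ => by
                  split_ifs
                  · exact hw x
                  · exact le_rfl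
              linarith
            · rw [if_neg h7, zero_add]
              push Not at h7
              obtain ⟨j, hj, hxj⟩ := h7
              have hj1 : j ∈ S1 := by
                rw [hS1, mem_filter]
                refine ⟨hj, ?_⟩
                by_contra h8
                exact h6 j (mem_filter.2 ⟨hj, h8⟩) hxj
              have h9 := single_le_sum (f := fun j => if x ∈ B j ∧ ∀ j ∈ S2, x ∉ B j
                then w x else 0) (s := S1) (fun j _ => by
                  split_ifs
                  · exact hw x
                  · exact le_rfl) hj1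
              rw [if_pos ⟨hxj, h6⟩] at h9
              exact h9
          · rw [if_neg h6]
            apply add_nonneg
            · split_ifs
              · exact hw x
              · exact le_rfl
            · exact sum_nonneg fun j _ => by
                split_ifs
                · exact hw x
                · exact le_rfl
        have h6 : ∑ j ∈ S1, P j S2 ≤ ∑ j ∈ S1, 2 * p * W S2 :=
          sum_le_sum fun j hj => ih _ hlt S2 (hS2S.trans hS) rfl j
            (hS (filter_subset _ _ hj))
        rw [sum_const, nsmul_eq_mul] at h6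
        have h7 : (S1.card : ℝ) ≤ D := by
          have : S1 ⊆ near i := fun j hj => (mem_filter.1 hj).2
          exact_mod_cast (card_le_card this).trans (hD i)
        have h8 : (S1.card : ℝ) * (2 * p * W S2) ≤ D * (2 * p * W S2) :=
          mul_le_mul_of_nonneg_right h7 (mul_nonneg (by linarith) (hW0 _))
        have h9 : (D : ℝ) * (2 * p * W S2) = (4 * p * D) * (W S2 / 2) := by ring
        have h10 : (4 * p * D) * (W S2 / 2) ≤ 1 * (W S2 / 2) :=
          mul_le_mul_of_nonneg_right h4 (by linarith [hW0 S2])
        linarith
    calc P i S ≤ P i S2 := h2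
      _ ≤ p * W S2 := h1
      _ ≤ p * (2 * W S) := mul_le_mul_of_nonneg_left h3 hp
      _ = 2 * p * W S := by ring
  have hpos : ∀ S : Finset ι, S ⊆ T → 0 < W S := by
    intro S
    induction S using Finset.induction_on with
    | empty =>
      intro _
      rw [hWi]
      simpa using htot
    | insert i S hiS ihS =>
      intro hS
      have h1 := ihS ((subset_insert _ _).trans hS)
      have hiT : i ∈ T := hS (mem_insert_self _ _)
      have h2 := key _ S ((subset_insert _ _).trans hS) rfl i hiT
      have h3 := hins i S
      have h5 : (1 : ℝ) ≤ D := by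
        have h6 : 1 ≤ (near i).card := card_pos.2 ⟨i, hself i⟩
        exact_mod_cast h6.trans (hD i)
      have h6 : p ≤ 1 / 4 := by nlinarith
      nlinarith
  have hT := hpos T subset_rfl
  by_contra hcon
  push Not at hcon
  have : W T ≤ 0 := by
    apply sum_nonpos
    intro x hx
    rw [mem_filter] at hx
    by_contra h1
    push Not at h1
    obtain ⟨i, hi, hxi⟩ := hcon x h1
    exact hx.2 i hi hxi
  linarith

end MP433GB
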