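import Mathlib

/-!
# Factorial moment tail bound
-/

namespace MP433GB

open Finset

lemma pow_self_le_fact (s : ℕ) : (s : ℝ) ^ s ≤ 3 ^ s * s.factorial := by
  have h1 : (s : ℝ) ^ s / s.factorial ≤ Real.exp s := by
    have := Real.pow_div_factorial_le_exp (s : ℝ) (Nat.cast_nonneg s) s
    exact this
  have h2 : Real.exp (s : ℝ) ≤ 3 ^ s := by
    have h3 : Real.exp (s : ℝ) = (Real.exp 1) ^ s := by
      rw [← Real.exp_nat_mul, mul_one]
    rw [h3]
    exact pow_le_pow_left₀ (Real.exp_pos _).le (by linarith [Real.exp_one_lt_d9]) _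
  have h3 : (0 : ℝ) < s.factorial := by exact_mod_cast s.factorial_pos
  rw [div_le_iff₀ h3] at h1
  exact h1.trans (mul_le_mul_of_nonneg_right h2 h3.le)

/-- If every `S ⊆ W` lies in the random set `R` with weight at most `r ^ |S|`, then `R ∩ W` has at
least `s` elements with weight at most `(3/4)^s`, when `4 r |W| ≤ s`. -/
theorem tail {Om V : Type*} [Fintype Om] [DecidableEq V] (w : Om → ℝ) (hw : ∀ x, 0 ≤ w x)
    (R : Om → Finset V) (W : Finset V) (r : ℝ) (hr : 0 ≤ r) (tot : ℝ)
    (hprod : ∀ S ⊆ W, ∑ x ∈ univ.filter (fun x => S ⊆ R x), w x ≤ r ^ S.card * tot)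
    (htot : 0 ≤ tot) (s : ℕ) (hs : 4 * r * W.card ≤ s) :
    ∑ x ∈ univ.filter (fun x => s ≤ (R x ∩ W).card), w x ≤ (3 / 4) ^ s * tot := by
  classical
  have h1 : ∑ x ∈ univ.filter (fun x => s ≤ (R x ∩ W).card), w x ≤
      ∑ S ∈ W.powersetCard s, ∑ x ∈ univ.filter (fun x => S ⊆ R x), w x := by
    simp only [sum_filter]
    rw [sum_comm]
    apply sum_le_sum
    intro x _
    have h0 : ∀ S ∈ W.powersetCard s, (0 : ℝ) ≤ if S ⊆ R x then w x else 0 := fun S _ => by
      split_ifs
      · exact hw x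
      · exact le_rfl
    split_ifs with h2
    · obtain ⟨S, hS, hSc⟩ := exists_subset_card_eq h2
      have h3 := single_le_sum h0 (mem_powersetCard.2 ⟨hS.trans inter_subset_right, hSc⟩)
      rw [if_pos (hS.trans inter_subset_left)] at h3
      exact h3
    · exact sum_nonneg h0
  have h2 : ∑ S ∈ W.powersetCard s, ∑ x ∈ univ.filter (fun x => S ⊆ R x), w x ≤
      ∑ S ∈ W.powersetCard s, r ^ s * tot := by
    apply sum_le_sum
    intro S hS
    rw [mem_powersetCard] at hS
    have := hprod S hS.1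
    rwa [hS.2] at this
  refine (h1.trans h2).trans ?_
  rw [sum_const, card_powersetCard, nsmul_eq_mul, ← mul_assoc]
  apply mul_le_mul_of_nonneg_right _ htot
  have hf : (0 : ℝ) < s.factorial := by exact_mod_cast s.factorial_pos
  have h3 : ((W.card.choose s : ℕ) : ℝ) ≤ (W.card : ℝ) ^ s / s.factorial := by
    have := Nat.choose_le_pow_div (α := ℝ) s W.card
    exact this
  have h4 : (r * W.card) ^ s ≤ ((s : ℝ) / 4) ^ s := by
    apply pow_le_pow_left₀ (by positivity)
    linarith
  calc ((W.card.choose s : ℕ) : ℝ) * r ^ s ≤ (W.card : ℝ) ^ s / s.factorial * r ^ s :=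
        mul_le_mul_of_nonneg_right h3 (by positivity)
    _ = (r * W.card) ^ s / s.factorial := by
        rw [mul_pow]
        ring
    _ ≤ ((s : ℝ) / 4) ^ s / s.factorial := div_le_div_of_nonneg_right h4 hf.le
    _ = ((s : ℝ) ^ s / s.factorial) * (1 / 4) ^ s := by
        rw [div_pow, one_div, inv_pow]
        ring
    _ ≤ 3 ^ s * (1 / 4) ^ s := by
        apply mul_le_mul_of_nonneg_right _ (by positivity)
        rw [div_le_iff₀ hf]
        exact pow_self_le_fact s
    _ = (3 / 4) ^ s := by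
        rw [← mul_pow]
        norm_num

end MP433GB
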