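import Pool.Agent.Work.MP_433a35_co.GB.Prod
import Pool.Agent.Work.MP_433a35_co.GB.LLLG
import Pool.Agent.Work.MP_433a35_co.GB.Tail

/-!
# The end of the proof: from the hole bound to a proper colouring
-/

namespace MP433GB

open Finset

variable {V : Type*} [Fintype V] [DecidableEq V]

set_option linter.unusedSectionVars false

/-- closed neighbourhood -/
def cn (H : SimpleGraph V) [DecidableRel H.Adj] (v : V) : Finset V :=
  insert v (H.neighborFinset v)

/-- balls -/
def bal (H : SimpleGraph V) [DecidableRel H.Adj] (v : V) : ℕ → Finset V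
  | 0 => {v}
  | (r + 1) => (bal H v r).biUnion (cn H)

/-- the uncoloured vertices -/
def holes {k : ℕ} (I : Finset (V × Fin k)) : Finset V :=
  univ.filter fun u => ∀ c, (u, c) ∉ I

section

variable {H : SimpleGraph V} [DecidableRel H.Adj] {k : ℕ}

lemma mem_cn {v u : V} : u ∈ cn H v ↔ u = v ∨ H.Adj v u := by
  simp [cn]

lemma cn_symm {v u : V} (h : u ∈ cn H v) : v ∈ cn H u := by
  rw [mem_cn] at h ⊢
  rcases h with h | h
  · exact Or.inl h.symm
  · exact Or.inr h.symm

lemma card_cn (n : ℕ) (hdeg : ∀ v, H.degree v + 1 ≤ n) (v : V) : (cn H v).card ≤ n := by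
  unfold cn
  refine (card_insert_le _ _).trans ?_
  rw [SimpleGraph.card_neighborFinset_eq_degree]
  exact hdeg v

lemma bal_step {v u x : V} {r : ℕ} (hu : u ∈ bal H v r) (hx : x ∈ cn H u) :
    x ∈ bal H v (r + 1) := mem_biUnion.2 ⟨u, hu, hx⟩

lemma bal_succ_mono (v : V) (r : ℕ) : bal H v r ⊆ bal H v (r + 1) := fun _ hu =>
  bal_step hu (mem_cn.2 (Or.inl rfl))

lemma bal_mono (v : V) {r s : ℕ} (h : r ≤ s) : bal H v r ⊆ bal H v s := by
  induction h with
  | refl => exact Subset.refl _
  | step _ ih => exact ih.trans (bal_succ_mono v _)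

lemma self_mem_bal (v : V) (r : ℕ) : v ∈ bal H v r :=
  bal_mono v (Nat.zero_le r) (mem_singleton_self v)

lemma card_bal (n : ℕ) (hdeg : ∀ v, H.degree v + 1 ≤ n) (v : V) (r : ℕ) :
    (bal H v r).card ≤ n ^ r := by
  induction r with
  | zero => simp [bal]
  | succ r ih =>
    calc (bal H v (r + 1)).card ≤ (bal H v r).card * n :=
          card_biUnion_le_card_mul _ _ _ fun _ _ => card_cn n hdeg _
      _ ≤ n ^ r * n := Nat.mul_le_mul_right _ ih
      _ = n ^ (r + 1) := (pow_succ _ _).symm

lemma mem_holes {I : Finset (V × Fin k)} {u : V} : u ∈ holes I ↔ ∀ c, (u, c) ∉ I := by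
  simp [holes]

/-- full lists on the ball of radius `b` make the vertices at distance `a` deep -/
lemma deep_of_full (P : Finset (V × Fin k)) (v : V) (b : ℕ)
    (hfull : ∀ x ∈ bal H v b, ∀ c, (x, c) ∈ P) (j : ℕ) :
    ∀ (u : V) (a : ℕ), u ∈ bal H v a → a + j ≤ b + 1 → Deep H P j u := by
  induction j with
  | zero => intro _ _ _ _; trivial
  | succ j ih =>
    intro u a hu hab
    refine ⟨Or.inl (hfull u (bal_mono v (by omega) hu)), fun g hg => ?_⟩
    exact ih g (a + 1) (bal_step hu (mem_cn.2 (Or.inr hg))) (by omega)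

lemma inds_er (P : Finset (V × Fin k)) (S : Finset V) :
    inds (pg H k) (er P S) = (inds (pg H k) P).filter fun I => S ⊆ holes I := by
  ext I
  rw [mem_filter, mem_inds, mem_inds]
  constructor
  · rintro ⟨h1, h2⟩
    refine ⟨⟨fun x hx => (mem_er.1 (h1 hx)).1, h2⟩, fun u hu => ?_⟩
    rw [mem_holes]
    intro c hc
    exact (mem_er.1 (h1 hc)).2 hu
  · rintro ⟨⟨h1, h2⟩, h3⟩
    refine ⟨fun x hx => ?_, h2⟩
    rw [mem_er]
    refine ⟨h1 hx, fun hS => ?_⟩
    exact (mem_holes.1 (h3 hS)) x.2 hx

/-- the tail bound inside the ball, for every outside colouring -/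
lemma inner_tail (hk : 1 ≤ k) (lam : V → ℝ) (hlam : ∀ v, 0 ≤ lam v) (rs : ℝ) (hrs : 0 < rs)
    (J : ℕ)
    (hHB : ∀ (P : Finset (V × Fin k)) (f : V), Deep H P J f → (∃ c, (f, c) ∈ P) →
      hc (pg H k) (act k lam) (er P {f}) ≤ rs * hc (pg H k) (act k lam) P)
    (n : ℕ) (hdeg : ∀ v, H.degree v + 1 ≤ n) (s : ℕ) (hs : 4 * rs * n ≤ s)
    (v : V) (P : Finset (V × Fin k)) (hfull : ∀ x ∈ bal H v (J + 1), ∀ c, (x, c) ∈ P) :
    ∑ I ∈ (inds (pg H k) P).filter (fun I => s ≤ (holes I ∩ cn H v).card),
      ∏ x ∈ I, act k lam x ≤ (3 / 4) ^ s * hc (pg H k) (act k lam) P := by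
  have hact : ∀ x, 0 ≤ act k lam x := fun x => hlam x.1
  have htot : 0 ≤ hc (pg H k) (act k lam) P := (hc_pos _ hact P).le
  have h := tail (Om := Finset (V × Fin k))
    (fun I => if I ∈ inds (pg H k) P then ∏ x ∈ I, act k lam x else 0)
    (fun I => by
      split_ifs
      · exact wt_nonneg hact I
      · exact le_rfl)
    holes (cn H v) rs hrs.le (hc (pg H k) (act k lam) P) ?_ htot s ?_
  · refine le_trans (le_of_eq ?_) h
    rw [← sum_filter, filter_filter, sum_filter, sum_filter, ← sum_subset (subset_univ (inds (pg H k) P))]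
    · refine sum_congr rfl fun I hI => ?_
      simp only [hI, and_true]
    · intro I _ hI
      simp [hI]
  · intro S hS
    have hpb := prod_bound H lam J rs hrs.le hHB P S (fun u hu => ?_)
    · refine le_trans (le_of_eq ?_) hpb
      unfold hc
      rw [inds_er, ← sum_filter, filter_filter]
      refine sum_congr ?_ fun _ _ => rfl
      ext I
      simp only [mem_filter, mem_univ, true_and]
      exact and_comm
    · have hu1 : u ∈ bal H v 1 := bal_step (mem_singleton_self v) (hS hu)
      refine ⟨deep_of_full P v (J + 1) hfull J u 1 hu1 (by omega), ⟨0, hk⟩, ?_⟩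
      exact hfull u (bal_mono v (by omega) hu1) _
  · refine le_trans ?_ hs
    have : ((cn H v).card : ℝ) ≤ n := by exact_mod_cast card_cn n hdeg v
    exact mul_le_mul_of_nonneg_left this (by positivity)

/-- splitting a sum over the states at a ball -/
lemma split_ball (lam : V → ℝ) (W : Finset V) (h : Finset (V × Fin k) → ℝ) :
    ∑ I ∈ inds (pg H k) univ, (∏ x ∈ I, act k lam x) * h I =
      ∑ J ∈ inds (pg H k) (univ.filter fun x : V × Fin k => x.1 ∉ W),
        (∏ x ∈ J, act k lam x) *
        ∑ I ∈ inds (pg H k) (free (pg H k) (univ.filter fun x : V × Fin k => x.1 ∈ W) J),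
          (∏ x ∈ I, act k lam x) * h (I ∪ J) := by
  have hun : (univ.filter fun x : V × Fin k => x.1 ∈ W) ∪
      (univ.filter fun x : V × Fin k => x.1 ∉ W) = univ :=
    filter_union_filter_not_eq _ _
  have hdis : Disjoint (univ.filter fun x : V × Fin k => x.1 ∈ W)
      (univ.filter fun x : V × Fin k => x.1 ∉ W) := disjoint_filter_filter_not _ _ _
  have := markov (pg H k) (act k lam) _ _ hdis h
  rw [hun] at this
  exact this

lemma holes_union_inside (W : Finset V) (I J : Finset (V × Fin k)) (hJ : ∀ x ∈ J, x.1 ∉ W)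
    (C : Finset V) (hC : C ⊆ W) : holes (I ∪ J) ∩ C = holes I ∩ C := by
  ext u
  simp only [mem_inter, mem_holes, mem_union, not_or]
  constructor
  · rintro ⟨h1, h2⟩
    exact ⟨fun c => (h1 c).1, h2⟩
  · rintro ⟨h1, h2⟩
    exact ⟨fun c => ⟨h1 c, fun hc => hJ _ hc (hC h2)⟩, h2⟩

lemma holes_union_outside (W : Finset V) (I J : Finset (V × Fin k)) (hI : ∀ x ∈ I, x.1 ∈ W)
    (C : Finset V) (hC : ∀ u ∈ C, u ∉ W) : holes (I ∪ J) ∩ C = holes J ∩ C := by
  ext u
  simp only [mem_inter, mem_holes, mem_union, not_or]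
  constructor
  · rintro ⟨h1, h2⟩
    exact ⟨fun c => (h1 c).2, h2⟩
  · rintro ⟨h1, h2⟩
    exact ⟨fun c => ⟨fun hc => hC u h2 (hI _ hc), h1 c⟩, h2⟩

/-- the conditional bound -/
lemma cond_bound (hk : 1 ≤ k) (lam : V → ℝ) (hlam : ∀ v, 0 ≤ lam v) (rs : ℝ) (hrs : 0 < rs)
    (J : ℕ)
    (hHB : ∀ (P : Finset (V × Fin k)) (f : V), Deep H P J f → (∃ c, (f, c) ∈ P) →
      hc (pg H k) (act k lam) (er P {f}) ≤ rs * hc (pg H k) (act k lam) P)
    (n : ℕ) (hdeg : ∀ v, H.degree v + 1 ≤ n) (s : ℕ) (hs : 4 * rs * n ≤ s)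
    (v : V) (S : Finset V) (hS : ∀ j ∈ S, j ∉ bal H v (J + 3)) :
    ∑ I ∈ inds (pg H k) univ, (∏ x ∈ I, act k lam x) *
      (if s ≤ (holes I ∩ cn H v).card ∧ ∀ j ∈ S, ¬ s ≤ (holes I ∩ cn H j).card then 1 else 0) ≤
    (3 / 4) ^ s * ∑ I ∈ inds (pg H k) univ, (∏ x ∈ I, act k lam x) *
      (if ∀ j ∈ S, ¬ s ≤ (holes I ∩ cn H j).card then 1 else 0) := by
  have hact : ∀ x, 0 ≤ act k lam x := fun x => hlam x.1
  rw [split_ball lam (bal H v (J + 2)), split_ball lam (bal H v (J + 2)), mul_sum]
  refine sum_le_sum fun K hK => ?_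
  rw [mem_inds] at hK
  have hKW : ∀ x ∈ K, x.1 ∉ bal H v (J + 2) := fun x hx => (mem_filter.1 (hK.1 hx)).2
  rw [mul_left_comm]
  refine mul_le_mul_of_nonneg_left ?_ (wt_nonneg hact K)
  set P := free (pg H k) (univ.filter fun x : V × Fin k => x.1 ∈ bal H v (J + 2)) K with hP
  have hPW : ∀ I ∈ inds (pg H k) P, ∀ x ∈ I, x.1 ∈ bal H v (J + 2) := by
    intro I hI x hx
    have h1 := (mem_inds.1 hI).1 hx
    exact (mem_filter.1 (mem_free.1 h1).1).2
  have hfar : ∀ I ∈ inds (pg H k) P, ∀ j ∈ S,
      holes (I ∪ K) ∩ cn H j = holes K ∩ cn H j := by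
    intro I hI j hj
    refine holes_union_outside (bal H v (J + 2)) I K (hPW I hI) _ fun u hu hW => ?_
    exact hS j hj (bal_step hW (cn_symm hu))
  have hnear : ∀ I : Finset (V × Fin k), holes (I ∪ K) ∩ cn H v = holes I ∩ cn H v := by
    intro I
    refine holes_union_inside (bal H v (J + 2)) I K hKW _ fun u hu => ?_
    exact bal_mono v (by omega) (bal_step (r := 0) (mem_singleton_self v) hu)
  by_cases hgood : ∀ j ∈ S, ¬ s ≤ (holes K ∩ cn H j).card
  · have e1 : ∑ I ∈ inds (pg H k) P, (∏ x ∈ I, act k lam x) *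
        (if ∀ j ∈ S, ¬ s ≤ (holes (I ∪ K) ∩ cn H j).card then (1 : ℝ) else 0) =
        hc (pg H k) (act k lam) P := by
      unfold hc
      refine sum_congr rfl fun I hI => ?_
      rw [if_pos, mul_one]
      intro j hj
      rw [hfar I hI j hj]
      exact hgood j hj
    rw [e1]
    refine le_trans ?_ (inner_tail hk lam hlam rs hrs J hHB n hdeg s hs v P ?_)
    · rw [sum_filter]
      refine sum_le_sum fun I _ => ?_
      rw [hnear I]
      split_ifs with h1 h2 h2
      · rw [mul_one]
      · exact absurd h1.1 h2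
      · rw [mul_zero]
        exact wt_nonneg hact I
      · rw [mul_zero]
    · intro x hx c
      rw [hP, mem_free, mem_filter]
      refine ⟨⟨mem_univ _, bal_succ_mono v _ hx⟩, fun y hy hadj => ?_⟩
      rcases pg_adj.1 hadj with h1 | h1
      · exact hKW y hy (bal_step hx (mem_cn.2 (Or.inr h1.1)))
      · apply hKW y hy
        rw [← h1.1]
        exact bal_succ_mono v _ hx
  · have e1 : ∑ I ∈ inds (pg H k) P, (∏ x ∈ I, act k lam x) *
        (if s ≤ (holes (I ∪ K) ∩ cn H v).card ∧
          ∀ j ∈ S, ¬ s ≤ (holes (I ∪ K) ∩ cn H j).card then (1 : ℝ) else 0) = 0 := by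
      refine sum_eq_zero fun I hI => ?_
      rw [if_neg, mul_zero]
      rintro ⟨-, h2⟩
      apply hgood
      intro j hj
      rw [← hfar I hI j hj]
      exact h2 j hj
    rw [e1]
    refine mul_nonneg (by positivity) (sum_nonneg fun I _ => mul_nonneg (wt_nonneg hact I) ?_)
    split_ifs
    · exact zero_le_one
    · exact le_rfl

/-- greedy colouring of a set in which every vertex has less than `s` neighbours -/
lemma greedy (U : Finset V) (s : ℕ)
    (hU : ∀ v ∈ U, (U ∩ H.neighborFinset v).card < s) :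
    ∀ T : Finset V, T ⊆ U → ∃ f : V → ℕ, (∀ v ∈ T, f v < s) ∧
      ∀ u ∈ T, ∀ v ∈ T, H.Adj u v → f u ≠ f v := by
  intro T
  induction T using Finset.induction_on with
  | empty => intro _; exact ⟨fun _ => 0, by simp, by simp⟩
  | insert a T ha ih =>
    intro hT
    obtain ⟨f, hf1, hf2⟩ := ih ((subset_insert a T).trans hT)
    have haU : a ∈ U := hT (mem_insert_self a T)
    have hcard : ((T ∩ H.neighborFinset a).image f).card < (range s).card := by
      rw [card_range]
      refine lt_of_le_of_lt card_image_le (lt_of_le_of_lt (card_le_card ?_) (hU a haU))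
      exact inter_subset_inter_right ((subset_insert a T).trans hT)
    obtain ⟨c, hc1, hc2⟩ := exists_mem_notMem_of_card_lt_card hcard
    refine ⟨fun v => if v = a then c else f v, ?_, ?_⟩
    · intro v hv
      by_cases hva : v = a
      · simp only [hva, if_true]
        exact mem_range.1 hc1
      · simp only [hva, if_false]
        exact hf1 v ((mem_insert.1 hv).resolve_left hva)
    · intro u hu v hv hadj
      by_cases hua : u = a
      · have hva : v ≠ a := fun h => hadj.ne (hua.trans h.symm)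
        simp only [hua, if_true, hva, if_false]
        have hvT := (mem_insert.1 hv).resolve_left hva
        intro hcf
        apply hc2
        rw [hcf]
        refine mem_image_of_mem f (mem_inter.2 ⟨hvT, ?_⟩)
        rw [SimpleGraph.mem_neighborFinset]
        rw [← hua]
        exact hadj
      · by_cases hva : v = a
        · simp only [hua, if_false, hva, if_true]
          have huT := (mem_insert.1 hu).resolve_left hua
          intro hcf
          apply hc2
          rw [← hcf]
          refine mem_image_of_mem f (mem_inter.2 ⟨huT, ?_⟩)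
          rw [SimpleGraph.mem_neighborFinset]
          rw [← hva]
          exact hadj.symm
        · simp only [hua, if_false, hva]
          exact hf2 u ((mem_insert.1 hu).resolve_left hua) v
            ((mem_insert.1 hv).resolve_left hva) hadj

/-- a partial colouring with few holes everywhere extends -/
lemma colorable_of_state (I : Finset (V × Fin k)) (hI : ind (pg H k) I) (s : ℕ)
    (hs : ∀ v, (holes I ∩ cn H v).card < s) : H.Colorable (k + s) := by
  obtain ⟨f, hf1, hf2⟩ := greedy (H := H) (holes I) s (fun v _ => by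
    refine lt_of_le_of_lt (card_le_card ?_) (hs v)
    exact inter_subset_inter_left (subset_insert _ _)) (holes I) (Subset.refl _)
  have hcol : ∀ v, v ∉ holes I → ∃ c, (v, c) ∈ I := by
    intro v hv
    rw [mem_holes] at hv
    push Not at hv
    exact hv
  let g : V → ℕ := fun v => if h : v ∈ holes I then k + f v else
    ((hcol v h).choose : ℕ)
  have hg : ∀ v, g v < k + s := by
    intro v
    by_cases h : v ∈ holes I
    · simp only [g, h, dif_pos]
      have := hf1 v h
      omega
    · simp only [g, h, dif_neg, not_false_iff]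
      have := (hcol v h).choose.2
      omega
  refine ⟨SimpleGraph.Coloring.mk (fun v => (⟨g v, hg v⟩ : Fin (k + s))) ?_⟩
  intro u v hadj heq
  have heq' : g u = g v := by
    have := congrArg Fin.val heq
    simpa using this
  by_cases hu : u ∈ holes I
  · by_cases hv : v ∈ holes I
    · simp only [g, hu, hv, dif_pos] at heq'
      exact hf2 u hu v hv hadj (by omega)
    · simp only [g, hu, hv, dif_pos, dif_neg, not_false_iff] at heq'
      have := (hcol v hv).choose.2
      omega
  · by_cases hv : v ∈ holes I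
    · simp only [g, hu, hv, dif_pos, dif_neg, not_false_iff] at heq'
      have := (hcol u hu).choose.2
      omega
    · simp only [g, hu, hv, dif_neg, not_false_iff] at heq'
      have h1 := (hcol u hu).choose_spec
      have h2 := (hcol v hv).choose_spec
      refine hI _ h1 _ h2 (pg_adj.2 (Or.inl ⟨hadj, ?_⟩))
      exact Fin.ext heq'

end

/-- The end: the hole bound at depth `J` (for all lists) gives a proper colouring with `k + s`
colours, where `s ≥ 4 rs n` and `n` exceeds the degrees. -/
theorem finish (H : SimpleGraph V) [DecidableRel H.Adj] (k : ℕ) (hk : 1 ≤ k) (lam : V → ℝ)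
    (hlam : ∀ v, 0 ≤ lam v) (rs : ℝ) (hrs : 0 < rs) (J : ℕ)
    (hHB : ∀ (P : Finset (V × Fin k)) (f : V), Deep H P J f → (∃ c, (f, c) ∈ P) →
      hc (pg H k) (act k lam) (er P {f}) ≤ rs * hc (pg H k) (act k lam) P)
    (n : ℕ) (hdeg : ∀ v, H.degree v + 1 ≤ n) (s : ℕ) (hs : 4 * rs * n ≤ s)
    (hbig : 4 * (3 / 4 : ℝ) ^ s * (n : ℝ) ^ (J + 4) ≤ 1) :
    H.Colorable (k + s) := by
  classical
  have hact : ∀ x, 0 ≤ act k lam x := fun x => hlam x.1
  rcases isEmpty_or_nonempty V with hV | ⟨⟨v0⟩⟩
  · exact ⟨SimpleGraph.Coloring.mk (fun v => (hV.false v).elim) (fun {v} => (hV.false v).elim)⟩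
  have hn1 : 1 ≤ n := le_trans (by omega) (hdeg v0)
  let w : Finset (V × Fin k) → ℝ := fun I =>
    if I ∈ inds (pg H k) univ then ∏ x ∈ I, act k lam x else 0
  let B : V → Finset (Finset (V × Fin k)) := fun v =>
    univ.filter fun I => s ≤ (holes I ∩ cn H v).card
  have hw : ∀ I, 0 ≤ w I := by
    intro I
    simp only [w]
    split_ifs
    · exact wt_nonneg hact I
    · exact le_rfl
  have hsumw : ∀ (A : Finset (Finset (V × Fin k))) (p : Finset (V × Fin k) → Prop)
      [DecidablePred p] (_ : ∀ I, I ∈ A ↔ p I),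
      ∑ I ∈ A, w I = ∑ I ∈ inds (pg H k) univ, (∏ x ∈ I, act k lam x) *
        (if p I then 1 else 0) := by
    intro A p _ hA
    have hA' : A = univ.filter p := by
      ext I
      rw [hA I, mem_filter]
      exact ⟨fun h => ⟨mem_univ _, h⟩, fun h => h.2⟩
    rw [hA', sum_filter, ← sum_subset (subset_univ (inds (pg H k) univ))]
    · refine sum_congr rfl fun I hI => ?_
      simp only [w, hI, if_true]
      split_ifs <;> simp
    · intro I _ hI
      simp [w, hI]
  have htot : 0 < ∑ I, w I := by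
    have h1 : ∑ I, w I = hc (pg H k) (act k lam) univ := by
      unfold hc
      rw [← sum_subset (subset_univ (inds (pg H k) univ))]
      · refine sum_congr rfl fun I hI => ?_
        simp only [w, hI, if_true]
      · intro I _ hI
        simp [w, hI]
    rw [h1]
    exact hc_pos _ hact _
  obtain ⟨I, hI, hB⟩ := lllg (univ : Finset V) w hw htot B (fun v => bal H v (J + 3))
    (fun v => self_mem_bal v _) ((3 / 4) ^ s) (by positivity) (n ^ (J + 4))
    (fun v => (card_bal n hdeg v (J + 3)).trans (Nat.pow_le_pow_right hn1 (by omega)))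
    (by push_cast; exact hbig)
    (fun v _ S hS => by
      have hcb := cond_bound hk lam hlam rs hrs J hHB n hdeg s hs v S hS
      refine (le_of_eq (hsumw _ (fun I => s ≤ (holes I ∩ cn H v).card ∧
        ∀ j ∈ S, ¬ s ≤ (holes I ∩ cn H j).card) (fun I => by simp [B]))).trans (hcb.trans ?_)
      refine mul_le_mul_of_nonneg_left (le_of_eq ?_) (by positivity)
      exact (hsumw _ (fun I => ∀ j ∈ S, ¬ s ≤ (holes I ∩ cn H j).card)
        (fun I => by simp [B])).symm)
  have hIm : I ∈ inds (pg H k) univ := by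
    by_contra hcon
    simp [w, hcon] at hI
  refine colorable_of_state I (mem_inds.1 hIm).2 s fun v => ?_
  have := hB v (mem_univ v)
  simp only [B, mem_filter, mem_univ, true_and, not_le] at this
  exact this

end MP433GB
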