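import Pool.Agent.Work.MP_433a35_co.GB.Static

/-!
# The hard-core model: Markov decomposition and elementary bounds
-/

namespace MP433GB

open Finset

variable {V : Type*} [Fintype V] [DecidableEq V]

set_option linter.unusedSectionVars false

/-- the elements of `Q` with no neighbour in `J` -/
def free (G : SimpleGraph V) [DecidableRel G.Adj] (Q J : Finset V) : Finset V :=
  Q.filter fun x => ∀ y ∈ J, ¬ G.Adj x y

lemma mem_inds {G : SimpleGraph V} [DecidableRel G.Adj] {P I : Finset V} :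
    I ∈ inds G P ↔ I ⊆ P ∧ ind G I := by
  simp [inds, mem_filter, mem_powerset]

lemma mem_free {G : SimpleGraph V} [DecidableRel G.Adj] {Q J : Finset V} {x : V} :
    x ∈ free G Q J ↔ x ∈ Q ∧ ∀ y ∈ J, ¬ G.Adj x y := by
  simp [free, mem_filter]

lemma free_subset (G : SimpleGraph V) [DecidableRel G.Adj] (Q J : Finset V) : free G Q J ⊆ Q :=
  filter_subset _ _

lemma inds_mono (G : SimpleGraph V) [DecidableRel G.Adj] {P Q : Finset V} (h : P ⊆ Q) :
    inds G P ⊆ inds G Q := by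
  intro I hI
  rw [mem_inds] at hI ⊢
  exact ⟨hI.1.trans h, hI.2⟩

lemma gb_empty_mem_inds (G : SimpleGraph V) [DecidableRel G.Adj] (P : Finset V) :
    ∅ ∈ inds G P := by
  rw [mem_inds]
  exact ⟨empty_subset _, by intro x hx; simp at hx⟩

lemma wt_nonneg {mu : V → ℝ} (hmu : ∀ v, 0 ≤ mu v) (I : Finset V) : 0 ≤ ∏ x ∈ I, mu x :=
  prod_nonneg fun x _ => hmu x

lemma hc_mono (G : SimpleGraph V) [DecidableRel G.Adj] {mu : V → ℝ} (hmu : ∀ v, 0 ≤ mu v)
    {P Q : Finset V} (h : P ⊆ Q) : hc G mu P ≤ hc G mu Q :=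
  sum_le_sum_of_subset_of_nonneg (inds_mono G h) fun I _ _ => wt_nonneg hmu I

lemma one_le_hc (G : SimpleGraph V) [DecidableRel G.Adj] {mu : V → ℝ} (hmu : ∀ v, 0 ≤ mu v)
    (P : Finset V) : 1 ≤ hc G mu P := by
  have h := single_le_sum (f := fun I : Finset V => ∏ x ∈ I, mu x)
    (fun I _ => wt_nonneg hmu I) (gb_empty_mem_inds G P)
  rw [prod_empty] at h
  exact h

lemma hc_pos (G : SimpleGraph V) [DecidableRel G.Adj] {mu : V → ℝ} (hmu : ∀ v, 0 ≤ mu v)
    (P : Finset V) : 0 < hc G mu P := lt_of_lt_of_le one_pos (one_le_hc G hmu P)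

lemma sum_le_hc (G : SimpleGraph V) [DecidableRel G.Adj] {mu : V → ℝ} (hmu : ∀ v, 0 ≤ mu v)
    (P : Finset V) : ∑ x ∈ P, mu x ≤ hc G mu P := by
  have h1 : (P.image fun x => ({x} : Finset V)) ⊆ inds G P := by
    intro I hI
    obtain ⟨x, hx, rfl⟩ := mem_image.1 hI
    rw [mem_inds]
    refine ⟨singleton_subset_iff.2 hx, ?_⟩
    intro a ha b hb
    rw [mem_singleton] at ha hb
    rw [ha, hb]
    exact G.irrefl
  have h2 : ∑ I ∈ P.image (fun x => ({x} : Finset V)), ∏ x ∈ I, mu x = ∑ x ∈ P, mu x := by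
    rw [sum_image (fun a _ b _ h => singleton_injective h)]
    exact sum_congr rfl fun x _ => prod_singleton _ _
  rw [← h2]
  exact sum_le_sum_of_subset_of_nonneg h1 fun I _ _ => wt_nonneg hmu I

/-- The Markov decomposition. -/
lemma markov (G : SimpleGraph V) [DecidableRel G.Adj] (mu : V → ℝ) (Q R : Finset V)
    (hQR : Disjoint Q R) (h : Finset V → ℝ) :
    ∑ I ∈ inds G (Q ∪ R), (∏ x ∈ I, mu x) * h I =
      ∑ J ∈ inds G R, (∏ x ∈ J, mu x) *
        ∑ I ∈ inds G (free G Q J), (∏ x ∈ I, mu x) * h (I ∪ J) := by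
  simp_rw [mul_sum]
  rw [sum_sigma']
  refine sum_bij' (fun I _ => (⟨I ∩ R, I ∩ Q⟩ : (_ : Finset V) × Finset V))
    (fun p _ => p.2 ∪ p.1) ?_ ?_ ?_ ?_ ?_
  · intro I hI
    rw [mem_inds] at hI
    rw [mem_sigma]
    constructor
    · rw [mem_inds]
      exact ⟨inter_subset_right, fun x hx y hy =>
        hI.2 x (mem_inter.1 hx).1 y (mem_inter.1 hy).1⟩
    · rw [mem_inds]
      refine ⟨fun x hx => ?_, fun x hx y hy => hI.2 x (mem_inter.1 hx).1 y (mem_inter.1 hy).1⟩
      rw [mem_free]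
      exact ⟨(mem_inter.1 hx).2, fun y hy => hI.2 x (mem_inter.1 hx).1 y (mem_inter.1 hy).1⟩
  · rintro ⟨J, I⟩ hp
    rw [mem_sigma] at hp
    obtain ⟨hJ, hI⟩ := hp
    simp only at hJ hI
    rw [mem_inds] at hJ hI
    rw [mem_inds]
    refine ⟨union_subset_union (hI.1.trans (free_subset G Q J)) hJ.1, ?_⟩
    intro x hx y hy
    rcases mem_union.1 hx with hx | hx <;> rcases mem_union.1 hy with hy | hy
    · exact hI.2 x hx y hy
    · exact (mem_free.1 (hI.1 hx)).2 y hy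
    · exact fun hadj => (mem_free.1 (hI.1 hy)).2 x hx hadj.symm
    · exact hJ.2 x hx y hy
  · intro I hI
    rw [mem_inds] at hI
    simp only
    rw [← inter_union_distrib_left]
    exact inter_eq_left.2 hI.1
  · rintro ⟨J, I⟩ hp
    rw [mem_sigma] at hp
    obtain ⟨hJ, hI⟩ := hp
    simp only at hJ hI
    rw [mem_inds] at hJ hI
    have hIQ : I ⊆ Q := hI.1.trans (free_subset G Q J)
    have e1 : (I ∪ J) ∩ R = J := by
      rw [union_inter_distrib_right, inter_eq_left.2 hJ.1,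
        disjoint_iff_inter_eq_empty.1 (hQR.mono_left hIQ), empty_union]
    have e2 : (I ∪ J) ∩ Q = I := by
      rw [union_inter_distrib_right, inter_eq_left.2 hIQ,
        disjoint_iff_inter_eq_empty.1 (hQR.symm.mono_left hJ.1), union_empty]
    simp only [e1, e2]
  · intro I hI
    rw [mem_inds] at hI
    have e1 : I ∩ Q ∪ I ∩ R = I := by
      rw [← inter_union_distrib_left]; exact inter_eq_left.2 hI.1
    have e2 : Disjoint (I ∩ Q) (I ∩ R) :=
      hQR.mono inter_subset_right inter_subset_right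
    simp only [e1]
    rw [← mul_assoc]
    congr 1
    conv_lhs => rw [← e1]
    rw [prod_union e2, mul_comm]

lemma hc_markov (G : SimpleGraph V) [DecidableRel G.Adj] (mu : V → ℝ) (Q R : Finset V)
    (hQR : Disjoint Q R) :
    hc G mu (Q ∪ R) = ∑ J ∈ inds G R, (∏ x ∈ J, mu x) * hc G mu (free G Q J) := by
  have h := markov G mu Q R hQR (fun _ => 1)
  simpa [hc] using h

lemma hc_le_prod (G : SimpleGraph V) [DecidableRel G.Adj] {mu : V → ℝ} (hmu : ∀ v, 0 ≤ mu v)
    (P : Finset V) : hc G mu P ≤ ∏ x ∈ P, (1 + mu x) := by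
  rw [prod_one_add]
  exact sum_le_sum_of_subset_of_nonneg (filter_subset _ _) fun I _ _ => wt_nonneg hmu I

lemma hc_union_le (G : SimpleGraph V) [DecidableRel G.Adj] {mu : V → ℝ} (hmu : ∀ v, 0 ≤ mu v)
    (Q R : Finset V) : hc G mu (Q ∪ R) ≤ (∏ x ∈ Q, (1 + mu x)) * hc G mu R := by
  have hprod : ∀ Q' ⊆ Q, ∏ x ∈ Q', (1 + mu x) ≤ ∏ x ∈ Q, (1 + mu x) := by
    intro Q' hQ'
    refine prod_le_prod_of_subset_of_one_le hQ' (fun x _ => by linarith [hmu x])
      (fun x _ _ => by linarith [hmu x])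
  have hdis : Disjoint (Q \ R) R := sdiff_disjoint
  have hun : Q ∪ R = (Q \ R) ∪ R := by rw [sdiff_union_self_eq_union]
  rw [hun, hc_markov G mu _ R hdis, hc, mul_sum]
  refine sum_le_sum fun J _ => ?_
  rw [mul_comm]
  refine mul_le_mul_of_nonneg_right ?_ (wt_nonneg hmu J)
  calc hc G mu (free G (Q \ R) J) ≤ hc G mu (Q \ R) := hc_mono G hmu (free_subset G _ _)
    _ ≤ ∏ x ∈ Q \ R, (1 + mu x) := hc_le_prod G hmu _
    _ ≤ _ := hprod _ sdiff_subset

end MP433GB
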