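import Pool.Agent.Work.MP_433a35_co.GB.Defs

/-!
# Lemma K: the weight of the ordered m-cliques of a set all of whose near-cliques have weight
at most 1 + e
-/

namespace MP433GB

open Finset

variable {V : Type*} [Fintype V] [DecidableEq V]

set_option linter.unusedSectionVars false

lemma cl_nonneg (G : SimpleGraph V) [DecidableRel G.Adj] (a : V → ℝ) (ha : ∀ v, 0 ≤ a v) (m : ℕ)
    (U : Finset V) : 0 ≤ cl G a m U :=
  Finset.sum_nonneg fun _ _ => Finset.prod_nonneg fun _ _ => ha _

lemma cl_zero (G : SimpleGraph V) [DecidableRel G.Adj] (a : V → ℝ) (U : Finset V) :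
    cl G a 0 U = 1 := by
  unfold cl
  have h : ((Fintype.piFinset fun _ : Fin 0 => U).filter
      (fun v : Fin 0 → V => ∀ i j, i ≠ j → G.Adj (v i) (v j))) = {fun i => i.elim0} := by
    ext s
    simp only [mem_filter, Fintype.mem_piFinset, mem_singleton]
    constructor
    · intro _
      exact Subsingleton.elim _ _
    · intro _
      exact ⟨fun i => i.elim0, fun i => i.elim0⟩
  rw [h]
  simp

/-- the clique weight is at most the power of the total weight -/
lemma cl_le_pow (G : SimpleGraph V) [DecidableRel G.Adj] (a : V → ℝ) (ha : ∀ v, 0 ≤ a v) (m : ℕ)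
    (U : Finset V) : cl G a m U ≤ (∑ u ∈ U, a u) ^ m := by
  unfold cl
  calc ∑ v ∈ (Fintype.piFinset fun _ : Fin m => U).filter
        (fun v => ∀ i j, i ≠ j → G.Adj (v i) (v j)), ∏ i, a (v i)
      ≤ ∑ v ∈ (Fintype.piFinset fun _ : Fin m => U), ∏ i, a (v i) :=
        Finset.sum_le_sum_of_subset_of_nonneg (Finset.filter_subset _ _)
          (fun _ _ _ => Finset.prod_nonneg fun _ _ => ha _)
    _ = ∏ _i : Fin m, ∑ u ∈ U, a u := (Finset.prod_univ_sum _ _).symm
    _ = (∑ u ∈ U, a u) ^ m := by simp

/-- removing one vertex -/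
lemma cl_succ_le (G : SimpleGraph V) [DecidableRel G.Adj] (a : V → ℝ) (ha : ∀ v, 0 ≤ a v) (m : ℕ)
    (U : Finset V) (v : V) :
    cl G a (m + 1) U ≤ cl G a (m + 1) (U.erase v) +
      (m + 1 : ℕ) * (a v * cl G a m (U.filter fun u => G.Adj v u)) := by
  classical
  set C := (Fintype.piFinset fun _ : Fin (m + 1) => U).filter
    (fun s : Fin (m + 1) → V => ∀ i j, i ≠ j → G.Adj (s i) (s j)) with hC
  have hg : ∀ s : Fin (m + 1) → V, 0 ≤ ∏ i, a (s i) := fun s => Finset.prod_nonneg fun _ _ => ha _
  have h1 : ∑ s ∈ C.filter (fun s => ¬ ∃ i, s i = v), ∏ i, a (s i) ≤ cl G a (m + 1) (U.erase v) := by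
    unfold cl
    refine Finset.sum_le_sum_of_subset_of_nonneg ?_ (fun s _ _ => hg s)
    intro s hs
    simp only [hC, mem_filter, Fintype.mem_piFinset, not_exists] at hs
    simp only [mem_filter, Fintype.mem_piFinset, mem_erase]
    exact ⟨fun i => ⟨hs.2 i, hs.1.1 i⟩, hs.1.2⟩
  have h2 : ∑ s ∈ C.filter (fun s => ∃ i, s i = v), ∏ i, a (s i) ≤
      ∑ i : Fin (m + 1), ∑ s ∈ C.filter (fun s => s i = v), ∏ j, a (s j) := by
    have e1 : ∑ i : Fin (m + 1), ∑ s ∈ C.filter (fun s => s i = v), ∏ j, a (s j) =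
        ∑ s ∈ C, ∑ i : Fin (m + 1), (if s i = v then ∏ j, a (s j) else 0) := by
      rw [Finset.sum_comm]
      refine Finset.sum_congr rfl fun i _ => ?_
      rw [Finset.sum_filter]
    rw [e1, Finset.sum_filter]
    refine Finset.sum_le_sum fun s _ => ?_
    split_ifs with h
    · obtain ⟨i, hi⟩ := h
      calc ∏ j, a (s j) = (if s i = v then ∏ j, a (s j) else 0) := by rw [if_pos hi]
        _ ≤ _ := Finset.single_le_sum
              (f := fun i => if s i = v then ∏ j, a (s j) else 0)
              (fun k _ => by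
                split_ifs
                · exact hg s
                · exact le_rfl) (Finset.mem_univ i)
    · exact Finset.sum_nonneg fun k _ => by
        split_ifs
        · exact hg s
        · exact le_rfl
  have h3 : ∀ i : Fin (m + 1), ∑ s ∈ C.filter (fun s => s i = v), ∏ j, a (s j) ≤
      a v * cl G a m (U.filter fun u => G.Adj v u) := by
    intro i
    unfold cl
    rw [Finset.mul_sum]
    have e2 : ∑ s ∈ C.filter (fun s => s i = v), ∏ j, a (s j) =
        ∑ s ∈ C.filter (fun s => s i = v), a v * ∏ j, a (s (i.succAbove j)) := by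
      refine Finset.sum_congr rfl fun s hs => ?_
      rw [Fin.prod_univ_succAbove _ i, (Finset.mem_filter.1 hs).2]
    rw [e2]
    have hinj : Set.InjOn (fun (s : Fin (m + 1) → V) (j : Fin m) => s (i.succAbove j))
        (C.filter (fun s => s i = v) : Finset (Fin (m + 1) → V)) := by
      intro s hs t ht hst
      have hs' := (Finset.mem_filter.1 (Finset.mem_coe.1 hs)).2
      have ht' := (Finset.mem_filter.1 (Finset.mem_coe.1 ht)).2
      funext j
      rcases Fin.eq_self_or_eq_succAbove i j with rfl | ⟨k, rfl⟩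
      · rw [hs', ht']
      · exact congrFun hst k
    calc ∑ s ∈ C.filter (fun s => s i = v), a v * ∏ j, a (s (i.succAbove j))
        = ∑ t ∈ (C.filter (fun s => s i = v)).image
            (fun (s : Fin (m + 1) → V) (j : Fin m) => s (i.succAbove j)), a v * ∏ j, a (t j) := by
          rw [Finset.sum_image hinj]
      _ ≤ _ := by
          refine Finset.sum_le_sum_of_subset_of_nonneg ?_
            (fun t _ _ => mul_nonneg (ha v) (Finset.prod_nonneg fun _ _ => ha _))
          intro t ht
          obtain ⟨s, hs, rfl⟩ := Finset.mem_image.1 ht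
          simp only [hC, mem_filter, Fintype.mem_piFinset] at hs
          simp only [mem_filter, Fintype.mem_piFinset]
          refine ⟨fun j => ⟨hs.1.1 _, ?_⟩, fun j k hjk => hs.1.2 _ _ ?_⟩
          · rw [← hs.2]
            exact hs.1.2 _ _ (Fin.succAbove_ne i j).symm
          · exact fun h => hjk (Fin.succAbove_right_injective h)
  have h0 : cl G a (m + 1) U = ∑ s ∈ C.filter (fun s => ∃ i, s i = v), ∏ i, a (s i) +
      ∑ s ∈ C.filter (fun s => ¬ ∃ i, s i = v), ∏ i, a (s i) := by
    unfold cl
    rw [Finset.sum_filter_add_sum_filter_not]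
  have h4 : ∑ i : Fin (m + 1), ∑ s ∈ C.filter (fun s => s i = v), ∏ j, a (s j) ≤
      (m + 1 : ℕ) * (a v * cl G a m (U.filter fun u => G.Adj v u)) := by
    calc _ ≤ ∑ _i : Fin (m + 1), a v * cl G a m (U.filter fun u => G.Adj v u) :=
          Finset.sum_le_sum fun i _ => h3 i
      _ = _ := by
          rw [Finset.sum_const, Finset.card_univ, Fintype.card_fin, nsmul_eq_mul]
  rw [h0]
  linarith

/-- many non-adjacent pairs give a vertex with many non-neighbours -/
lemma exists_many (G : SimpleGraph V) [DecidableRel G.Adj] (U : Finset V) (n : ℝ)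
    (hn : (U.card : ℝ) ≤ n) (del : ℝ) (hdel : 0 < del)
    (h : del * n < ((nonadj G U).card : ℝ)) :
    ∃ v ∈ U, ((U.filter fun u => G.Adj v u).card : ℝ) ≤ U.card - del := by
  classical
  by_contra hcon
  push Not at hcon
  have h1 : (nonadj G U).card = ∑ v ∈ U, (U.filter fun u => v ≠ u ∧ ¬ G.Adj v u).card := by
    unfold nonadj
    rw [Finset.card_filter, Finset.sum_product]
    refine Finset.sum_congr rfl fun v _ => ?_
    rw [Finset.card_filter]
  have h2 : ∀ v ∈ U, ((U.filter fun u => v ≠ u ∧ ¬ G.Adj v u).card : ℝ) ≤ del := by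
    intro v hv
    have h3 := hcon v hv
    have h4 : (U.filter fun u => v ≠ u ∧ ¬ G.Adj v u).card + (U.filter fun u => G.Adj v u).card ≤
        U.card := by
      rw [← Finset.card_union_of_disjoint]
      · exact Finset.card_le_card (Finset.union_subset (Finset.filter_subset _ _)
          (Finset.filter_subset _ _))
      · rw [Finset.disjoint_filter]
        intro u _ hu hu'
        exact hu.2 hu'
    have h5 : ((U.filter fun u => v ≠ u ∧ ¬ G.Adj v u).card : ℝ) +
        (U.filter fun u => G.Adj v u).card ≤ U.card := by exact_mod_cast h4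
    linarith
  have h6 : ((nonadj G U).card : ℝ) ≤ del * n := by
    rw [h1]
    push_cast
    calc ∑ v ∈ U, ((U.filter fun u => v ≠ u ∧ ¬ G.Adj v u).card : ℝ)
        ≤ ∑ _v ∈ U, del := Finset.sum_le_sum h2
      _ = del * U.card := by rw [Finset.sum_const, nsmul_eq_mul, mul_comm]
      _ ≤ del * n := mul_le_mul_of_nonneg_left hn hdel.le
  linarith

/-- Lemma K. `n` bounds the number of vertices of `W`, `al` the weights, and every subset of `W` with
at most `del * n` ordered non-adjacent pairs has total weight at most `1 + e`. -/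
theorem lemmaK (G : SimpleGraph V) [DecidableRel G.Adj] (a : V → ℝ) (al : ℝ) (hal0 : 0 ≤ al)
    (ha : ∀ v, 0 ≤ a v) (hal : ∀ v, a v ≤ al) (W : Finset V) (n : ℝ) (hn : (W.card : ℝ) ≤ n)
    (del : ℝ) (hdel : 0 < del) (e : ℝ) (he : 0 ≤ e)
    (hrob : ∀ U ⊆ W, ((nonadj G U).card : ℝ) ≤ del * n → ∑ u ∈ U, a u ≤ 1 + e)
    (m s : ℕ) (hs : n ≤ s * del) :
    cl G a m W ≤ (1 + e) ^ m * (1 + m * (al * n)) ^ s := by
  classical
  have hn0 : 0 ≤ n := le_trans (Nat.cast_nonneg _) hn
  have hA : 0 ≤ al * n := mul_nonneg hal0 hn0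
  have key : ∀ t : ℕ, ∀ m : ℕ, ∀ U ⊆ W, (U.card : ℝ) ≤ t * del →
      cl G a m U ≤ (1 + e) ^ m * (1 + m * (al * n)) ^ t := by
    intro t
    induction t with
    | zero =>
      intro m U hU hc
      have hU0 : U = ∅ := by
        rw [← Finset.card_eq_zero]
        have : (U.card : ℝ) ≤ 0 := by simpa using hc
        exact_mod_cast le_antisymm this (Nat.cast_nonneg _)
      subst hU0
      refine (cl_le_pow G a ha m ∅).trans ?_
      rw [Finset.sum_empty, pow_zero, mul_one]
      exact pow_le_pow_left₀ le_rfl (by linarith) m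
    | succ t ih =>
      intro m U hU hc
      rcases m with _ | m
      · rw [cl_zero]
        simp
      -- inner induction on the number of vertices
      have inner : ∀ c : ℕ, ∀ U ⊆ W, U.card = c → (U.card : ℝ) ≤ ((t + 1 : ℕ) : ℝ) * del →
          cl G a (m + 1) U ≤ (1 + e) ^ (m + 1) +
            (m + 1 : ℕ) * (al * c) * ((1 + e) ^ (m + 1) * (1 + (m + 1 : ℕ) * (al * n)) ^ t) := by
        intro c
        induction c with
        | zero =>
          intro U hU hc0 _
          rw [Finset.card_eq_zero] at hc0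
          subst hc0
          refine (cl_le_pow G a ha (m + 1) ∅).trans ?_
          rw [Finset.sum_empty]
          have : (0 : ℝ) ^ (m + 1) ≤ (1 + e) ^ (m + 1) := pow_le_pow_left₀ le_rfl (by linarith) _
          simpa using this
        | succ c ihc =>
          intro U hU hcU hcb
          have hUn : (U.card : ℝ) ≤ n :=
            le_trans (by exact_mod_cast Finset.card_le_card hU) hn
          have hpos : 0 ≤ (1 + e) ^ (m + 1) * (1 + (m + 1 : ℕ) * (al * n)) ^ t :=
            mul_nonneg (pow_nonneg (by linarith) _)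
              (pow_nonneg (by positivity) _)
          by_cases hq : ((nonadj G U).card : ℝ) ≤ del * n
          · have h1 := hrob U hU hq
            have h2 : cl G a (m + 1) U ≤ (1 + e) ^ (m + 1) :=
              (cl_le_pow G a ha (m + 1) U).trans
                (pow_le_pow_left₀ (Finset.sum_nonneg fun _ _ => ha _) h1 _)
            have h3 : 0 ≤ (m + 1 : ℕ) * (al * ((c + 1 : ℕ) : ℝ)) *
                ((1 + e) ^ (m + 1) * (1 + (m + 1 : ℕ) * (al * n)) ^ t) :=
              mul_nonneg (by positivity) hpos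
            linarith
          · push Not at hq
            obtain ⟨v, hv, hvc⟩ := exists_many G U n hUn del hdel hq
            have h1 := cl_succ_le G a ha m U v
            have hce : (U.erase v).card = c := by
              rw [Finset.card_erase_of_mem hv, hcU]
              rfl
            have h2 := ihc (U.erase v) ((Finset.erase_subset _ _).trans hU) hce
              (le_trans (by rw [hce, hcU]; push_cast; linarith) hcb)
            have h3 := ih m (U.filter fun u => G.Adj v u) ((Finset.filter_subset _ _).trans hU) (by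
              push_cast at hcb
              linarith)
            have h4 : cl G a m (U.filter fun u => G.Adj v u) ≤
                (1 + e) ^ (m + 1) * (1 + (m + 1 : ℕ) * (al * n)) ^ t := by
              refine h3.trans (mul_le_mul ?_ ?_ (pow_nonneg (by positivity) _)
                (pow_nonneg (by linarith) _))
              · exact pow_le_pow_right₀ (by linarith) (Nat.le_succ m)
              · refine pow_le_pow_left₀ (by positivity) ?_ _
                push_cast
                nlinarith
            have h5 : a v * cl G a m (U.filter fun u => G.Adj v u) ≤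
                al * ((1 + e) ^ (m + 1) * (1 + (m + 1 : ℕ) * (al * n)) ^ t) :=
              mul_le_mul (hal v) h4 (cl_nonneg G a ha m _) hal0
            have h6 : ((m + 1 : ℕ) : ℝ) * (a v * cl G a m (U.filter fun u => G.Adj v u)) ≤
                ((m + 1 : ℕ) : ℝ) *
                  (al * ((1 + e) ^ (m + 1) * (1 + (m + 1 : ℕ) * (al * n)) ^ t)) :=
              mul_le_mul_of_nonneg_left h5 (Nat.cast_nonneg _)
            calc cl G a (m + 1) U ≤ _ := h1
              _ ≤ ((1 + e) ^ (m + 1) + (m + 1 : ℕ) * (al * c) *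
                    ((1 + e) ^ (m + 1) * (1 + (m + 1 : ℕ) * (al * n)) ^ t)) +
                  ((m + 1 : ℕ) : ℝ) *
                  (al * ((1 + e) ^ (m + 1) * (1 + (m + 1 : ℕ) * (al * n)) ^ t)) := add_le_add h2 h6
              _ = _ := by push_cast; ring
      have h1 := inner U.card U hU rfl hc
      have hUn : (U.card : ℝ) ≤ n := le_trans (by exact_mod_cast Finset.card_le_card hU) hn
      have hx : (1 : ℝ) ≤ (1 + ((m + 1 : ℕ) : ℝ) * (al * n)) ^ t :=
        one_le_pow₀ (by
          have : 0 ≤ ((m + 1 : ℕ) : ℝ) * (al * n) := by positivity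
          linarith)
      have hE : 0 ≤ (1 + e) ^ (m + 1) := pow_nonneg (by linarith) _
      refine h1.trans ?_
      have h2 : ((m + 1 : ℕ) : ℝ) * (al * U.card) *
          ((1 + e) ^ (m + 1) * (1 + (m + 1 : ℕ) * (al * n)) ^ t) ≤
          ((m + 1 : ℕ) : ℝ) * (al * n) *
          ((1 + e) ^ (m + 1) * (1 + (m + 1 : ℕ) * (al * n)) ^ t) := by
        refine mul_le_mul_of_nonneg_right ?_ (mul_nonneg hE (by positivity))
        refine mul_le_mul_of_nonneg_left ?_ (Nat.cast_nonneg _)
        exact mul_le_mul_of_nonneg_left hUn hal0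
      have h3 : (1 + e) ^ (m + 1) ≤ (1 + e) ^ (m + 1) * (1 + ((m + 1 : ℕ) : ℝ) * (al * n)) ^ t :=
        le_mul_of_one_le_right hE hx
      calc (1 + e) ^ (m + 1) + ((m + 1 : ℕ) : ℝ) * (al * U.card) *
          ((1 + e) ^ (m + 1) * (1 + (m + 1 : ℕ) * (al * n)) ^ t)
          ≤ (1 + e) ^ (m + 1) * (1 + ((m + 1 : ℕ) : ℝ) * (al * n)) ^ t +
            ((m + 1 : ℕ) : ℝ) * (al * n) *
          ((1 + e) ^ (m + 1) * (1 + (m + 1 : ℕ) * (al * n)) ^ t) := add_le_add h3 h2
        _ = (1 + e) ^ (m + 1) * (1 + ((m + 1 : ℕ) : ℝ) * (al * n)) ^ (t + 1) := by ring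
  exact key s m W (Finset.Subset.refl _) (hn.trans hs)

/-- A polynomial in `m` times `(1+e)^m` is eventually smaller than `tg * (1+q)^m` if `e < q`. -/
theorem exists_large (e q A tg : ℝ) (he : 0 ≤ e) (heq : e < q) (hA : 0 ≤ A) (htg : 0 < tg)
    (s : ℕ) : ∃ m : ℕ, 1 ≤ m ∧ (1 + e) ^ m * (1 + m * A) ^ s ≤ tg * (1 + q) ^ m := by
  have hq : 0 < 1 + q := by linarith
  set r : ℝ := (1 + e) / (1 + q) with hr
  have hr0 : 0 ≤ r := div_nonneg (by linarith) hq.le
  have hr1 : r < 1 := by rw [hr, div_lt_one hq]; linarith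
  have habs : |r| < 1 := by rw [abs_of_nonneg hr0]; exact hr1
  have ht := tendsto_pow_const_mul_const_pow_of_abs_lt_one s habs
  have hB : 0 < (1 + A) ^ s := pow_pos (by linarith) s
  have hev := (ht.eventually (gt_mem_nhds (show (0 : ℝ) < tg / (1 + A) ^ s from
    div_pos htg hB))).and (Filter.eventually_ge_atTop 1)
  obtain ⟨m, hm1, hm2⟩ := hev.exists
  refine ⟨m, hm2, ?_⟩
  have hm2' : (1 : ℝ) ≤ m := by exact_mod_cast hm2
  have h1 : (1 + m * A) ^ s ≤ (m : ℝ) ^ s * (1 + A) ^ s := by
    rw [← mul_pow]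
    exact pow_le_pow_left₀ (by positivity) (by nlinarith) s
  have h2 : (m : ℝ) ^ s * r ^ m * (1 + A) ^ s ≤ tg := by
    have := (lt_div_iff₀ hB).1 hm1
    linarith
  have h3 : (1 + e) ^ m = r ^ m * (1 + q) ^ m := by
    rw [← mul_pow, hr, div_mul_cancel₀ _ hq.ne']
  calc (1 + e) ^ m * (1 + m * A) ^ s ≤ (1 + e) ^ m * ((m : ℝ) ^ s * (1 + A) ^ s) :=
        mul_le_mul_of_nonneg_left h1 (pow_nonneg (by linarith) _)
    _ = ((m : ℝ) ^ s * r ^ m * (1 + A) ^ s) * (1 + q) ^ m := by rw [h3]; ring
    _ ≤ tg * (1 + q) ^ m := mul_le_mul_of_nonneg_right h2 (pow_nonneg hq.le _)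

end MP433GB
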