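import Pool.Agent.Work.MP_433a35_co.GB.Step
import Pool.Agent.Work.MP_433a35_co.GB.Finish
import Pool.Agent.Work.MP_433a35_co.GB.LemmaK

/-!
# Theorem GB

`H` a graph, `X v ≥ x0 N`, `X v + deg v + 1 ≤ kap N`, and every near-clique `U` inside a neighbourhood
has `∑ 1/X ≤ 1 + e1`.  Then `H` is `(kap/2 + eps) N`-colourable, `N` large.
-/

namespace MP433GB

open Finset

set_option linter.unusedSectionVars false

universe u

variable {V : Type u} [Fintype V] [DecidableEq V]

/-- The hole bound at every depth. -/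
theorem hole_bound (H : SimpleGraph V) [DecidableRel H.Adj] (k : ℕ) (X : V → ℝ)
    (hX : ∀ v, 0 < X v) (g mm e : ℝ) (hg : 0 < g) (hmm : ∀ v, g / X v ≤ mm) (hmm0 : 0 ≤ mm)
    (he : 0 < e) (he2 : e ≤ 1 / 4) (m : ℕ) (rs : ℝ) (hrs : 0 < rs) (hrs1 : rs ≤ 1)
    (hk : ∀ v, (1 + 3 * e) * X v + H.degree v ≤ 2 * (1 - 2 * e) * k)
    (hLam : (m : ℝ) ^ 2 * (mm + 1 / e) ≤ g * rs) (hLam2 : 2 * (1 + 2 * e) ≤ e * (g * rs))
    (hK : ∀ v, 2 * ((1 + mm) ^ m * cl H (fun u => 1 / X u) m (H.neighborFinset v)) ≤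
      e * (1 + 2 * e) ^ m) (j : ℕ) :
    ∀ (P : Finset (V × Fin k)) (f : V), Deep H P j f → (∃ c, (f, c) ∈ P) →
      hc (pg H k) (act k fun v => g / X v) (er P {f}) ≤
        max rs ((1 / (1 + 2 * e)) ^ j) * hc (pg H k) (act k fun v => g / X v) P := by
  have hmu : ∀ y : V × Fin k, 0 ≤ act k (fun v => g / X v) y :=
    fun y => (div_pos hg (hX y.1)).le
  induction j with
  | zero =>
    intro P f _ _
    rw [pow_zero, max_eq_right hrs1, one_mul]
    exact hc_mono _ hmu (filter_subset _ _)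
  | succ j ih =>
    intro P f hd hf
    set rho := max rs ((1 / (1 + 2 * e)) ^ j) with hrho
    have hrho0 : 0 < rho := lt_of_lt_of_le hrs (le_max_left _ _)
    have hge : g * rs ≤ g * rho := mul_le_mul_of_nonneg_left (le_max_left _ _) hg.le
    have h := step H k X hX g mm e hg hmm hmm0 he he2 m rho hrho0 hk (hLam.trans hge)
      (hLam2.trans (mul_le_mul_of_nonneg_left hge he.le)) hK j ih P f hd hf
    refine h.trans (mul_le_mul_of_nonneg_right ?_ (hc_pos _ hmu P).le)
    have h1 : (0 : ℝ) < 1 + 2 * e := by linarith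
    rw [div_le_iff₀ h1]
    rw [hrho]
    apply max_le
    · have : rs ≤ max rs ((1 / (1 + 2 * e)) ^ (j + 1)) := le_max_left _ _
      nlinarith
    · have h2 : (1 / (1 + 2 * e)) ^ (j + 1) ≤ max rs ((1 / (1 + 2 * e)) ^ (j + 1)) :=
        le_max_right _ _
      have h3 : (1 / (1 + 2 * e)) ^ j = (1 / (1 + 2 * e)) ^ (j + 1) * (1 + 2 * e) := by
        rw [pow_succ]
        field_simp
      rw [h3]
      exact mul_le_mul_of_nonneg_right h2 h1.le

/-- **Theorem GB.** -/
theorem gb (kap x0 eps : ℝ) (hkap : 0 < kap) (hx0 : 0 < x0) (heps : 0 < eps) :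
    ∃ e1 : ℝ, 0 < e1 ∧ ∀ eta : ℝ, 0 < eta → ∃ N0 : ℝ, ∀ N : ℝ, N0 ≤ N →
      ∀ (V : Type u) [Fintype V] [DecidableEq V] (H : SimpleGraph V) [DecidableRel H.Adj]
        (X : V → ℝ), (∀ v, x0 * N ≤ X v) → (∀ v, X v + H.degree v + 1 ≤ kap * N) →
        (∀ v, ∀ U ⊆ H.neighborFinset v, ((nonadj H U).card : ℝ) ≤ eta * N ^ 2 →
          ∑ u ∈ U, 1 / X u ≤ 1 + e1) →
        ∀ K : ℕ, (kap / 2 + eps) * N ≤ K → H.Colorable K := by
  -- parameters
  set e : ℝ := min (1 / 12) (eps / (12 * kap)) with hedef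
  have he0 : 0 < e := lt_min (by norm_num) (by positivity)
  have he12 : e ≤ 1 / 12 := min_le_left _ _
  have hekap : 12 * (e * kap) ≤ eps := by
    have h : e ≤ eps / (12 * kap) := min_le_right _ _
    rw [le_div_iff₀ (by positivity)] at h
    linarith
  refine ⟨e, he0, fun eta heta => ?_⟩
  set s : ℕ := ⌈kap ^ 2 / eta⌉₊ with hsdef
  obtain ⟨m, hm1, hm⟩ := exists_large e (2 * e) (kap / x0) (e / 4) he0.le (by linarith)
    (by positivity) (by positivity) s
  set rs : ℝ := min 1 (eps / (16 * kap)) with hrsdef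
  have hrs0 : 0 < rs := lt_min one_pos (by positivity)
  have hrs1 : rs ≤ 1 := min_le_left _ _
  have hrskap : 16 * (rs * kap) ≤ eps := by
    have h : rs ≤ eps / (16 * kap) := min_le_right _ _
    rw [le_div_iff₀ (by positivity)] at h
    linarith
  set lam : ℝ := max ((m : ℝ) ^ 2 * (1 + 1 / e)) (2 * (1 + 2 * e) / e) with hlamdef
  have hlam0 : 0 < lam := lt_of_lt_of_le (by positivity) (le_max_right _ _)
  set g : ℝ := lam / rs with hgdef
  have hg0 : 0 < g := div_pos hlam0 hrs0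
  have hgrs : g * rs = lam := by rw [hgdef]; field_simp
  obtain ⟨J, hJ⟩ : ∃ J : ℕ, (1 / (1 + 2 * e)) ^ J ≤ rs := by
    obtain ⟨J, hJ⟩ := exists_pow_lt_of_lt_one hrs0 (show 1 / (1 + 2 * e) < 1 by
      rw [div_lt_one (by linarith)]; linarith)
    exact ⟨J, hJ.le⟩
  -- exponential beats polynomial
  obtain ⟨S0, hS0⟩ : ∃ S0 : ℕ, ∀ t : ℕ, S0 ≤ t →
      (t : ℝ) ^ (J + 4) * (3 / 4 : ℝ) ^ t ≤ (4 * rs) ^ (J + 4) / 4 := by
    have ht := tendsto_pow_const_mul_const_pow_of_lt_one (J + 4)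
      (show (0 : ℝ) ≤ 3 / 4 by norm_num) (by norm_num)
    have hev := ht.eventually (gt_mem_nhds (show (0 : ℝ) < (4 * rs) ^ (J + 4) / 4 by positivity))
    obtain ⟨S0, hS0⟩ := Filter.eventually_atTop.1 hev
    exact ⟨S0, fun t ht' => (hS0 t ht').le⟩
  refine ⟨max (max 1 (4 / eps)) (max (2 * m * g / x0) (S0 / (4 * rs * kap))), ?_⟩
  intro N hN V _ _ H _ X hXlow hXdeg hrob K hK
  have hN1 : 1 ≤ N := le_trans ((le_max_left _ _).trans (le_max_left _ _)) hN
  have hN2 : 4 / eps ≤ N := le_trans ((le_max_right _ _).trans (le_max_left _ _)) hN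
  have hN3 : 2 * m * g / x0 ≤ N := le_trans ((le_max_left _ _).trans (le_max_right _ _)) hN
  have hN4 : S0 / (4 * rs * kap) ≤ N := le_trans ((le_max_right _ _).trans (le_max_right _ _)) hN
  have hN0 : 0 < N := by linarith
  have hX : ∀ v, 0 < X v := fun v => lt_of_lt_of_le (by positivity) (hXlow v)
  have hm0 : (0 : ℝ) < m := by exact_mod_cast hm1
  -- mm
  set mm : ℝ := g / (x0 * N) with hmmdef
  have hmm0 : 0 ≤ mm := by positivity
  have hmmX : ∀ v, g / X v ≤ mm := fun v =>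
    div_le_div_of_nonneg_left hg0.le (by positivity) (hXlow v)
  have hmm2 : 2 * m * mm ≤ 1 := by
    rw [div_le_iff₀ hx0] at hN3
    rw [hmmdef, mul_div_assoc', div_le_one (by positivity)]
    linarith
  have hmm1 : mm ≤ 1 := by
    have h1 : (1 : ℝ) ≤ m := by exact_mod_cast hm1
    have h2 : 1 * mm ≤ m * mm := mul_le_mul_of_nonneg_right h1 hmm0
    linarith
  have hpow : (1 + mm) ^ m ≤ 2 := by
    have h1 : (1 + mm) ^ m ≤ Real.exp (m * mm) := by
      rw [Real.exp_nat_mul]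
      refine pow_le_pow_left₀ (by linarith) ?_ m
      linarith [Real.add_one_le_exp mm]
    have h2 : Real.exp (m * mm) ≤ Real.exp (1 / 2) := Real.exp_le_exp.2 (by linarith)
    have h3 : Real.exp (1 / 2) ≤ 2 := by
      have h4 : Real.exp (1 / 2) * Real.exp (1 / 2) = Real.exp 1 := by
        rw [← Real.exp_add]; norm_num
      have h5 := Real.exp_one_lt_d9
      have h6 := Real.exp_pos (1 / 2)
      nlinarith
    linarith
  -- the number of colours
  set k : ℕ := ⌈(1 + 6 * e) * kap * N / 2⌉₊ with hkdef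
  have hklow : (1 + 6 * e) * kap * N / 2 ≤ k := Nat.le_ceil _
  have hkup : (k : ℝ) < (1 + 6 * e) * kap * N / 2 + 1 := Nat.ceil_lt_add_one (by positivity)
  have hk1 : 1 ≤ k := by
    have h : (0 : ℝ) < k := lt_of_lt_of_le (by positivity) hklow
    exact_mod_cast h
  have hkk : ∀ v, (1 + 3 * e) * X v + H.degree v ≤ 2 * (1 - 2 * e) * k := by
    intro v
    have h1 := hXdeg v
    have h2 : (0 : ℝ) ≤ H.degree v := Nat.cast_nonneg _
    have h3 : (1 + 3 * e) * (kap * N) ≤ 2 * (1 - 2 * e) * k := by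
      have h4 : 2 * (1 - 2 * e) * ((1 + 6 * e) * kap * N / 2) ≤ 2 * (1 - 2 * e) * k :=
        mul_le_mul_of_nonneg_left hklow (by linarith)
      have h5 : (1 + 3 * e) * (kap * N) ≤ 2 * (1 - 2 * e) * ((1 + 6 * e) * kap * N / 2) := by
        have h6 : 0 ≤ kap * N := by positivity
        have h7 : 1 + 3 * e ≤ (1 - 2 * e) * (1 + 6 * e) := by
          have h11 : 0 ≤ e * (1 / 12 - e) := mul_nonneg he0.le (by linarith)
          linarith
        calc (1 + 3 * e) * (kap * N) ≤ ((1 - 2 * e) * (1 + 6 * e)) * (kap * N) :=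
              mul_le_mul_of_nonneg_right h7 h6
          _ = _ := by ring
      exact h5.trans h4
    have h8 : (1 + 3 * e) * X v + H.degree v ≤ (1 + 3 * e) * (kap * N) := by
      have h9 : (1 + 3 * e) * (X v + H.degree v + 1) ≤ (1 + 3 * e) * (kap * N) :=
        mul_le_mul_of_nonneg_left h1 (by linarith)
      have h10 : 0 ≤ e * (H.degree v : ℝ) := mul_nonneg he0.le h2
      linarith
    exact h8.trans h3
  -- Lemma K
  have hKl : ∀ v, 2 * ((1 + mm) ^ m * cl H (fun u => 1 / X u) m (H.neighborFinset v)) ≤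
      e * (1 + 2 * e) ^ m := by
    intro v
    have hdeg : ((H.neighborFinset v).card : ℝ) ≤ kap * N := by
      rw [SimpleGraph.card_neighborFinset_eq_degree]
      have := hXdeg v
      linarith [hX v]
    have hcard := lemmaK H (fun u => 1 / X u) (1 / (x0 * N)) (by positivity)
      (fun u => (div_pos one_pos (hX u)).le)
      (fun u => div_le_div_of_nonneg_left zero_le_one (by positivity) (hXlow u))
      (H.neighborFinset v) (kap * N) hdeg (eta * N / kap) (by positivity) e he0.le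
      (fun U hU hU2 => hrob v U hU (by
        have : eta * N / kap * (kap * N) = eta * N ^ 2 := by field_simp
        rwa [this] at hU2)) m s (by
        have h1 : kap ^ 2 / eta ≤ s := Nat.le_ceil _
        have h2 : 0 ≤ eta * N / kap := by positivity
        calc kap * N = kap ^ 2 / eta * (eta * N / kap) := by field_simp
          _ ≤ s * (eta * N / kap) := mul_le_mul_of_nonneg_right h1 h2)
    have hA : 1 / (x0 * N) * (kap * N) = kap / x0 := by field_simp
    rw [hA] at hcard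
    have h1 := hcard.trans hm
    have h2 : 0 ≤ cl H (fun u => 1 / X u) m (H.neighborFinset v) :=
      cl_nonneg H _ (fun u => (div_pos one_pos (hX u)).le) m _
    calc 2 * ((1 + mm) ^ m * cl H (fun u => 1 / X u) m (H.neighborFinset v))
        ≤ 2 * (2 * cl H (fun u => 1 / X u) m (H.neighborFinset v)) := by
          have := mul_le_mul_of_nonneg_right hpow h2
          linarith
      _ ≤ 2 * (2 * (e / 4 * (1 + 2 * e) ^ m)) := by linarith
      _ = e * (1 + 2 * e) ^ m := by ring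
  have hLam : (m : ℝ) ^ 2 * (mm + 1 / e) ≤ g * rs := by
    rw [hgrs]
    refine le_trans ?_ (le_max_left _ _)
    exact mul_le_mul_of_nonneg_left (by linarith) (by positivity)
  have hLam2 : 2 * (1 + 2 * e) ≤ e * (g * rs) := by
    rw [hgrs]
    have h : 2 * (1 + 2 * e) / e ≤ lam := le_max_right _ _
    rw [div_le_iff₀ he0] at h
    linarith
  have hHB := hole_bound H k X hX g mm e hg0 hmmX hmm0 he0 (by linarith) m rs hrs0 hrs1 hkk hLam
    hLam2 hKl J
  rw [max_eq_left hJ] at hHB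
  -- the finish
  set n : ℕ := ⌊kap * N⌋₊ with hndef
  have hnup : (n : ℝ) ≤ kap * N := Nat.floor_le (by positivity)
  have hndeg : ∀ v, H.degree v + 1 ≤ n := by
    intro v
    rw [hndef, Nat.le_floor_iff (by positivity)]
    push_cast
    linarith [hXdeg v, hX v]
  set t : ℕ := ⌈4 * rs * (kap * N)⌉₊ with htdef
  have htlow : 4 * rs * (kap * N) ≤ t := Nat.le_ceil _
  have htup : (t : ℝ) < 4 * rs * (kap * N) + 1 := Nat.ceil_lt_add_one (by positivity)
  have hS0t : S0 ≤ t := by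
    have h1 : (S0 : ℝ) ≤ t := by
      rw [div_le_iff₀ (by positivity)] at hN4
      linarith
    exact_mod_cast h1
  have hbig : 4 * (3 / 4 : ℝ) ^ t * (n : ℝ) ^ (J + 4) ≤ 1 := by
    have h1 : (4 * rs) ^ (J + 4) * (n : ℝ) ^ (J + 4) ≤ (t : ℝ) ^ (J + 4) := by
      rw [← mul_pow]
      refine pow_le_pow_left₀ (by positivity) ?_ _
      have : 4 * rs * n ≤ 4 * rs * (kap * N) := mul_le_mul_of_nonneg_left hnup (by positivity)
      linarith
    have h2 := hS0 t hS0t
    have h3 : 0 < (4 * rs) ^ (J + 4) := by positivity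
    have h4 : (4 * rs) ^ (J + 4) * (4 * (3 / 4 : ℝ) ^ t * (n : ℝ) ^ (J + 4)) ≤
        (4 * rs) ^ (J + 4) * 1 := by
      have h5 := mul_le_mul_of_nonneg_right h1 (show (0 : ℝ) ≤ (3 / 4) ^ t by positivity)
      calc (4 * rs) ^ (J + 4) * (4 * (3 / 4 : ℝ) ^ t * (n : ℝ) ^ (J + 4))
          = 4 * ((4 * rs) ^ (J + 4) * (n : ℝ) ^ (J + 4) * (3 / 4) ^ t) := by ring
        _ ≤ 4 * ((t : ℝ) ^ (J + 4) * (3 / 4) ^ t) := by linarith
        _ ≤ 4 * ((4 * rs) ^ (J + 4) / 4) := by linarith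
        _ = _ := by ring
    exact le_of_mul_le_mul_left h4 h3
  have hcol := finish H k hk1 (fun v => g / X v) (fun v => (div_pos hg0 (hX v)).le) rs hrs0 J hHB n
    hndeg t (le_trans (mul_le_mul_of_nonneg_left hnup (by positivity)) htlow) hbig
  refine hcol.mono ?_
  have h1 : (k : ℝ) + t ≤ K := by
    have h2 : (kap / 2 + eps) * N ≤ K := hK
    have h3 : 4 ≤ eps * N := by
      rw [div_le_iff₀ heps] at hN2
      linarith
    have h4 : 12 * (e * kap) * N ≤ eps * N := mul_le_mul_of_nonneg_right hekap hN0.le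
    have h5 : 16 * (rs * kap) * N ≤ eps * N := mul_le_mul_of_nonneg_right hrskap hN0.le
    linarith
  exact_mod_cast h1

end MP433GB
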