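import Pool.Agent.Work.MP_433a35_co.GB.Gibbs

/-!
# List colourings as the hard-core model on `V × Fin k`

A partial proper colouring of `H` from lists is an independent set of `pg H k` inside
`P : Finset (V × Fin k)` (`(v, c) ∈ P`: the colour `c` is on the list of `v`).  A vertex is a hole
of the independent set `I` if no `(v, c)` lies in `I`.
-/

namespace MP433GB

open Finset

set_option linter.unusedSectionVars false

variable {V : Type*} [Fintype V] [DecidableEq V]

/-- the graph on `V × Fin k` whose independent sets are the partial proper `k`-colourings -/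
def pg (H : SimpleGraph V) (k : ℕ) : SimpleGraph (V × Fin k) where
  Adj x y := (H.Adj x.1 y.1 ∧ x.2 = y.2) ∨ (x.1 = y.1 ∧ x.2 ≠ y.2)
  symm := by
    constructor
    rintro x y (⟨h1, h2⟩ | ⟨h1, h2⟩)
    · exact Or.inl ⟨h1.symm, h2.symm⟩
    · exact Or.inr ⟨h1.symm, h2.symm⟩
  loopless := by
    constructor
    rintro x (⟨h1, _⟩ | ⟨_, h2⟩)
    · exact H.irrefl h1
    · exact h2 rfl

variable (H : SimpleGraph V) [DecidableRel H.Adj] {k : ℕ}

instance : DecidableRel (pg H k).Adj := fun x y => by
  unfold pg; infer_instance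

lemma pg_adj {H : SimpleGraph V} {x y : V × Fin k} :
    (pg H k).Adj x y ↔ (H.Adj x.1 y.1 ∧ x.2 = y.2) ∨ (x.1 = y.1 ∧ x.2 ≠ y.2) := Iff.rfl

/-- remove the vertices of `S`: force them to be holes -/
def er (P : Finset (V × Fin k)) (S : Finset V) : Finset (V × Fin k) := P.filter fun x => x.1 ∉ S

lemma mem_er {P : Finset (V × Fin k)} {S : Finset V} {x : V × Fin k} :
    x ∈ er P S ↔ x ∈ P ∧ x.1 ∉ S := by simp [er]

/-- `v` is `j`-deep: every vertex at distance `< j` from `v` has the full or the empty list. -/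
def Deep (P : Finset (V × Fin k)) : ℕ → V → Prop
  | 0, _ => True
  | (j + 1), v => ((∀ c, (v, c) ∈ P) ∨ (∀ c, (v, c) ∉ P)) ∧ ∀ g, H.Adj v g → Deep P j g

/-- the activities on `V × Fin k` -/
def act (k : ℕ) (lam : V → ℝ) : V × Fin k → ℝ := fun x => lam x.1

lemma deep_er (P : Finset (V × Fin k)) (S : Finset V) (j : ℕ) (v : V) (h : Deep H P j v) :
    Deep H (er P S) j v := by
  induction j generalizing v with
  | zero => trivial
  | succ j ih =>
    refine ⟨?_, fun g hg => ih g (h.2 g hg)⟩
    rcases h.1 with h1 | h1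
    · by_cases hv : v ∈ S
      · right
        intro c hc
        exact (mem_er.1 hc).2 hv
      · left
        intro c
        exact mem_er.2 ⟨h1 c, hv⟩
    · right
      intro c hc
      exact h1 c (mem_er.1 hc).1

lemma er_er (P : Finset (V × Fin k)) (S : Finset V) (v : V) :
    er (er P S) {v} = er P (insert v S) := by
  ext x
  simp only [mem_er, mem_singleton, mem_insert]
  tauto

/-- the product bound -/
lemma prod_bound (lam : V → ℝ) (j : ℕ) (rho : ℝ) (hrho : 0 ≤ rho)
    (hcl : ∀ (P : Finset (V × Fin k)) (f : V), Deep H P j f → (∃ c, (f, c) ∈ P) →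
      hc (pg H k) (act k lam) (er P {f}) ≤ rho * hc (pg H k) (act k lam) P)
    (P : Finset (V × Fin k)) (S : Finset V) (hS : ∀ v ∈ S, Deep H P j v ∧ ∃ c, (v, c) ∈ P) :
    hc (pg H k) (act k lam) (er P S) ≤ rho ^ S.card * hc (pg H k) (act k lam) P := by
  induction S using Finset.induction_on with
  | empty => simp [er]
  | insert v S hv ih =>
    have h1 := ih fun u hu => hS u (mem_insert_of_mem hu)
    obtain ⟨h2, c, hc2⟩ := hS v (mem_insert_self v S)
    have h3 := hcl (er P S) v (deep_er H P S j v h2) ⟨c, mem_er.2 ⟨hc2, hv⟩⟩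
    rw [er_er] at h3
    rw [card_insert_of_notMem hv, pow_succ]
    calc _ ≤ rho * hc (pg H k) (act k lam) (er P S) := h3
      _ ≤ rho * (rho ^ S.card * hc (pg H k) (act k lam) P) :=
        mul_le_mul_of_nonneg_left h1 hrho
      _ = _ := by ring

end MP433GB
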