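import Pool.Agent.Work.MP_433a35_co.GB.Edge

/-!
# It suffices to prove the harmonic clique inequality for regular graphs

`reg G D`: the graph on `V × Finset (Fin D)`; `(u, x)` and `(v, y)` are adjacent if `x = y` and `uv`
is an edge, or if `u = v` and `y` is `x` with the element `i` changed, `i < D - deg u`.  It is
`D`-regular and contains `G` as `V × {∅}`.
-/

namespace MP433GB

open Finset
open scoped symmDiff

set_option linter.unusedSectionVars false

variable {V : Type*} [Fintype V] [DecidableEq V]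

/-- `RStar` for regular graphs -/
def RStarReg (kap : ℝ) : Prop :=
  ∀ e1 : ℝ, 0 < e1 → ∃ eta : ℝ, 0 < eta ∧ ∃ D0 : ℕ, ∀ (V : Type) [Fintype V] [DecidableEq V]
    (G F : SimpleGraph V) [DecidableRel G.Adj] [DecidableRel F.Adj] (D : ℕ), D0 ≤ D → F ≤ G →
    (∀ v, G.degree v = D) →
    (((univ : Finset ((V × V) × (V × V))).filter fun q => F.Adj q.1.1 q.1.2 ∧ F.Adj q.2.1 q.2.2 ∧
      nonconf G q.1.1 q.1.2 q.2.1 q.2.2).card : ℝ) ≤ eta * (D : ℝ) ^ 4 →
    ∑ q ∈ (univ : Finset (V × V)).filter (fun q => F.Adj q.1 q.2),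
      1 / ((kap - 2) * (D : ℝ) ^ 2 + codeg G q.1 q.2 * D + (inn G q.1 q.2 : ℝ) / 2) ≤ 2 * (1 + e1)

section

variable (G F : SimpleGraph V) [DecidableRel G.Adj] [DecidableRel F.Adj] (D : ℕ)

/-- the regular graph -/
def reg : SimpleGraph (V × Finset (Fin D)) where
  Adj p q := (p.2 = q.2 ∧ G.Adj p.1 q.1) ∨
    (p.1 = q.1 ∧ ∃ i : Fin D, (i : ℕ) < D - G.degree p.1 ∧ q.2 = p.2 ∆ {i})
  symm := by
    constructor
    rintro p q (⟨h1, h2⟩ | ⟨h1, i, h2, h3⟩)
    · exact Or.inl ⟨h1.symm, h2.symm⟩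
    · refine Or.inr ⟨h1.symm, i, h1 ▸ h2, ?_⟩
      rw [h3, symmDiff_assoc, symmDiff_self, symmDiff_bot]
  loopless := by
    constructor
    rintro p (⟨-, h2⟩ | ⟨-, i, -, h3⟩)
    · exact G.loopless.irrefl _ h2
    · have h4 : p.2 ∆ ⊥ = p.2 ∆ {i} := by rw [symmDiff_bot]; exact h3
      have h5 := symmDiff_right_injective _ h4
      have h6 : i ∈ (⊥ : Finset (Fin D)) := by rw [h5]; exact mem_singleton_self _
      simp at h6

instance : DecidableRel (reg G D).Adj := by
  intro p q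
  unfold reg
  infer_instance

lemma reg_adj {p q : V × Finset (Fin D)} : (reg G D).Adj p q ↔
    (p.2 = q.2 ∧ G.Adj p.1 q.1) ∨
    (p.1 = q.1 ∧ ∃ i : Fin D, (i : ℕ) < D - G.degree p.1 ∧ q.2 = p.2 ∆ {i}) := Iff.rfl

/-- the copy of `F` -/
def regF : SimpleGraph (V × Finset (Fin D)) where
  Adj p q := p.2 = ∅ ∧ q.2 = ∅ ∧ F.Adj p.1 q.1
  symm := by
    constructor
    rintro p q ⟨h1, h2, h3⟩
    exact ⟨h2, h1, h3.symm⟩
  loopless := by
    constructor
    rintro p ⟨-, -, h⟩
    exact F.loopless.irrefl _ h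

instance : DecidableRel (regF F D).Adj := by
  intro p q
  unfold regF
  infer_instance

lemma regF_adj {p q : V × Finset (Fin D)} :
    (regF F D).Adj p q ↔ p.2 = ∅ ∧ q.2 = ∅ ∧ F.Adj p.1 q.1 := Iff.rfl

lemma reg_degree (hD : ∀ v, G.degree v ≤ D) (p : V × Finset (Fin D)) :
    (reg G D).degree p = D := by
  classical
  have h1 : (reg G D).neighborFinset p =
      ((G.neighborFinset p.1).image fun w => (w, p.2)) ∪
        ((univ.filter fun i : Fin D => (i : ℕ) < D - G.degree p.1).image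
          fun i => (p.1, p.2 ∆ {i})) := by
    ext q
    rw [SimpleGraph.mem_neighborFinset, reg_adj, mem_union, mem_image, mem_image]
    constructor
    · rintro (⟨h1, h2⟩ | ⟨h1, i, h2, h3⟩)
      · exact Or.inl ⟨q.1, (G.mem_neighborFinset _ _).2 h2, Prod.ext rfl h1⟩
      · exact Or.inr ⟨i, mem_filter.2 ⟨mem_univ _, h2⟩, Prod.ext h1 h3.symm⟩
    · rintro (⟨w, h1, h2⟩ | ⟨i, h1, h2⟩)
      · rw [← h2]
        exact Or.inl ⟨rfl, (G.mem_neighborFinset _ _).1 h1⟩
      · rw [← h2]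
        exact Or.inr ⟨rfl, i, (mem_filter.1 h1).2, rfl⟩
  rw [← SimpleGraph.card_neighborFinset_eq_degree, h1, card_union_of_disjoint, card_image_of_injective,
    card_image_of_injective, SimpleGraph.card_neighborFinset_eq_degree, Fin.card_filter_val_lt]
  · have := hD p.1
    omega
  · intro i j hij
    have := symmDiff_right_injective _ (congrArg Prod.snd hij)
    exact singleton_injective this
  · intro w w' h
    exact congrArg Prod.fst h
  · rw [disjoint_left]
    intro q h1 h2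
    obtain ⟨w, h3, rfl⟩ := mem_image.1 h1
    obtain ⟨i, -, h4⟩ := mem_image.1 h2
    have h5 : p.1 = w := congrArg Prod.fst h4
    rw [SimpleGraph.mem_neighborFinset, h5] at h3
    exact G.loopless.irrefl _ h3

lemma reg_adj_zero {u v : V} : (reg G D).Adj (u, ∅) (v, ∅) ↔ G.Adj u v := by
  rw [reg_adj]
  constructor
  · rintro (⟨-, h⟩ | ⟨-, i, -, h⟩)
    · exact h
    · exfalso
      have h1 : (∅ : Finset (Fin D)) = ⊥ ∆ {i} := h
      rw [bot_symmDiff] at h1
      exact singleton_ne_empty i h1.symm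
  · intro h
    exact Or.inl ⟨rfl, h⟩

lemma reg_nonconf {a b c d : V} : nonconf (reg G D) (a, ∅) (b, ∅) (c, ∅) (d, ∅) ↔
    nonconf G a b c d := by
  unfold nonconf
  simp only [reg_adj_zero, ne_eq, Prod.mk.injEq, and_true]

/-- the neighbours of `(u, ∅)` -/
lemma mem_nbr_zero {u : V} {q : V × Finset (Fin D)} :
    (reg G D).Adj (u, ∅) q ↔ (q.2 = ∅ ∧ G.Adj u q.1) ∨
      (q.1 = u ∧ ∃ i : Fin D, (i : ℕ) < D - G.degree u ∧ q.2 = {i}) := by
  rw [reg_adj]
  constructor
  · rintro (⟨h1, h2⟩ | ⟨h1, i, h2, h3⟩)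
    · exact Or.inl ⟨h1.symm, h2⟩
    · refine Or.inr ⟨h1.symm, i, h2, ?_⟩
      have h4 : q.2 = ⊥ ∆ {i} := h3
      rwa [bot_symmDiff] at h4
  · rintro (⟨h1, h2⟩ | ⟨h1, i, h2, h3⟩)
    · exact Or.inl ⟨h1.symm, h2⟩
    · refine Or.inr ⟨h1.symm, i, h2, ?_⟩
      show q.2 = ⊥ ∆ {i}
      rw [bot_symmDiff, h3]

lemma reg_codeg {u v : V} (huv : u ≠ v) :
    codeg (reg G D) (u, ∅) (v, ∅) = codeg G u v := by
  classical
  unfold codeg
  symm
  refine card_bij (fun w _ => (w, ∅)) ?_ ?_ ?_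
  · intro w hw
    simp only [mem_inter, SimpleGraph.mem_neighborFinset] at hw ⊢
    exact ⟨(reg_adj_zero G D).2 hw.1, (reg_adj_zero G D).2 hw.2⟩
  · intro w _ w' _ h
    exact congrArg Prod.fst h
  · rintro ⟨w, x⟩ hq
    simp only [mem_inter, SimpleGraph.mem_neighborFinset, mem_nbr_zero] at hq
    obtain ⟨h1 | ⟨h1, i, -, h2⟩, h3 | ⟨h3, j, -, h4⟩⟩ := hq
    · refine ⟨w, ?_, ?_⟩
      · simp only [mem_inter, SimpleGraph.mem_neighborFinset]
        exact ⟨h1.2, h3.2⟩
      · rw [h1.1]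
    · exfalso
      rw [h1.1] at h4
      exact singleton_ne_empty j h4.symm
    · exfalso
      rw [h3.1] at h2
      exact singleton_ne_empty i h2.symm
    · exfalso
      exact huv (h1.symm.trans h3)

/-- ordered adjacent pairs inside `N(u) ∪ N(v)`, as a set -/
def innSet {W : Type*} [Fintype W] [DecidableEq W] (H : SimpleGraph W) [DecidableRel H.Adj]
    (u v : W) : Finset (W × W) :=
  (((H.neighborFinset u ∪ H.neighborFinset v) ×ˢ (H.neighborFinset u ∪ H.neighborFinset v)).filter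
    fun q => H.Adj q.1 q.2)

lemma mem_innSet {W : Type*} [Fintype W] [DecidableEq W] {H : SimpleGraph W} [DecidableRel H.Adj]
    {u v : W} {q : W × W} : q ∈ innSet H u v ↔
      ((H.Adj u q.1 ∨ H.Adj v q.1) ∧ (H.Adj u q.2 ∨ H.Adj v q.2)) ∧ H.Adj q.1 q.2 := by
  unfold innSet
  simp only [mem_filter, mem_product, mem_union, SimpleGraph.mem_neighborFinset]

lemma reg_pair {u v : V} {p q : V × Finset (Fin D)}
    (hp : (reg G D).Adj (u, ∅) p ∨ (reg G D).Adj (v, ∅) p)
    (hq : (reg G D).Adj (u, ∅) q ∨ (reg G D).Adj (v, ∅) q)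
    (hpq : (reg G D).Adj p q) (hne : p.2 ≠ ∅) :
    ∃ z : Bool × Bool × Fin D, (p, q) =
      (((if z.1 then u else v), ({z.2.2} : Finset (Fin D))),
        if z.2.1 then ((if z.1 then u else v), (∅ : Finset (Fin D)))
          else ((if z.1 then v else u), ({z.2.2} : Finset (Fin D)))) := by
  have key : ∀ r : V × Finset (Fin D),
      ((reg G D).Adj (u, ∅) r ∨ (reg G D).Adj (v, ∅) r) → r.2 ≠ ∅ →
      (r.1 = u ∨ r.1 = v) ∧ ∃ i : Fin D, r.2 = {i} := by
    intro r hr h0
    rw [mem_nbr_zero, mem_nbr_zero] at hr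
    rcases hr with (h | ⟨h1, i, -, h2⟩) | (h | ⟨h1, i, -, h2⟩)
    · exact absurd h.1 h0
    · exact ⟨Or.inl h1, i, h2⟩
    · exact absurd h.1 h0
    · exact ⟨Or.inr h1, i, h2⟩
  obtain ⟨hp1, i, hp2⟩ := key p hp hne
  rw [reg_adj] at hpq
  rcases hpq with ⟨h1, h2⟩ | ⟨h1, j, -, h3⟩
  · have hq0 : q.2 ≠ ∅ := by rw [← h1]; exact hne
    obtain ⟨hq1, -⟩ := key q hq hq0
    have hne' : p.1 ≠ q.1 := h2.ne
    rcases hp1 with hp1 | hp1
    · have hqv : q.1 = v := by
        rcases hq1 with h | h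
        · exact absurd (hp1.trans h.symm) hne'
        · exact h
      refine ⟨(true, false, i), ?_⟩
      simp only [if_true, Bool.false_eq_true, if_false]
      exact Prod.ext (Prod.ext hp1 hp2) (Prod.ext hqv (by rw [← h1]; exact hp2))
    · have hqu : q.1 = u := by
        rcases hq1 with h | h
        · exact h
        · exact absurd (hp1.trans h.symm) hne'
      refine ⟨(false, false, i), ?_⟩
      simp only [Bool.false_eq_true, if_false]
      exact Prod.ext (Prod.ext hp1 hp2) (Prod.ext hqu (by rw [← h1]; exact hp2))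
  · have hq2 : q.2 = ∅ := by
      by_contra hq0
      obtain ⟨-, k, hk⟩ := key q hq hq0
      rw [hp2, hk] at h3
      by_cases hij : i = j
      · rw [hij, symmDiff_self] at h3
        exact singleton_ne_empty k h3
      · have h4 : ({i} : Finset (Fin D)) ∆ {j} = {i, j} := by
          ext x
          simp only [mem_symmDiff, mem_singleton, mem_insert]
          constructor
          · rintro (h | h)
            · exact Or.inl h.1
            · exact Or.inr h.1
          · rintro (h | h)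
            · exact Or.inl ⟨h, fun h' => hij (h.symm.trans h')⟩
            · exact Or.inr ⟨h, fun h' => hij (h'.symm.trans h)⟩
        rw [h4] at h3
        have h5 := congrArg card h3
        rw [card_singleton, card_pair hij] at h5
        omega
    rcases hp1 with hp1 | hp1
    · refine ⟨(true, true, i), ?_⟩
      simp only [if_true]
      exact Prod.ext (Prod.ext hp1 hp2) (Prod.ext (h1.symm.trans hp1) hq2)
    · refine ⟨(false, true, i), ?_⟩
      simp only [if_true, Bool.false_eq_true, if_false]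
      exact Prod.ext (Prod.ext hp1 hp2) (Prod.ext (h1.symm.trans hp1) hq2)

lemma reg_inn (u v : V) : inn (reg G D) (u, ∅) (v, ∅) ≤ inn G u v + 8 * D := by
  classical
  show (innSet (reg G D) (u, ∅) (v, ∅)).card ≤ (innSet G u v).card + 8 * D
  let f : Bool × Bool × Fin D → (V × Finset (Fin D)) × (V × Finset (Fin D)) := fun z =>
    (((if z.1 then u else v), ({z.2.2} : Finset (Fin D))),
        if z.2.1 then ((if z.1 then u else v), (∅ : Finset (Fin D)))
          else ((if z.1 then v else u), ({z.2.2} : Finset (Fin D))))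
  have hsub : innSet (reg G D) (u, ∅) (v, ∅) ⊆
      ((innSet G u v).image fun q => ((q.1, ∅), (q.2, ∅))) ∪
        ((univ : Finset (Bool × Bool × Fin D)).image f ∪
          (univ : Finset (Bool × Bool × Fin D)).image fun z => (f z).swap) := by
    rintro ⟨p, q⟩ hpq
    rw [mem_innSet] at hpq
    obtain ⟨⟨hp, hq⟩, ha⟩ := hpq
    rw [mem_union, mem_union]
    by_cases hp0 : p.2 = ∅
    · by_cases hq0 : q.2 = ∅
      · left
        obtain ⟨p1, p2⟩ := p
        obtain ⟨q1, q2⟩ := q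
        simp only at hp0 hq0
        subst hp0 hq0
        rw [mem_image]
        refine ⟨(p1, q1), ?_, rfl⟩
        rw [mem_innSet]
        simp only [reg_adj_zero] at hp hq ha
        exact ⟨⟨hp, hq⟩, ha⟩
      · right
        right
        obtain ⟨z, hz⟩ := reg_pair G D hq hp ha.symm hq0
        rw [mem_image]
        refine ⟨z, mem_univ _, ?_⟩
        show (f z).swap = (p, q)
        have : f z = (q, p) := hz.symm
        rw [this]
        rfl
    · right
      left
      obtain ⟨z, hz⟩ := reg_pair G D hp hq ha hp0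
      rw [mem_image]
      exact ⟨z, mem_univ _, hz.symm⟩
  have hc : (univ : Finset (Bool × Bool × Fin D)).card = 4 * D := by
    rw [card_univ, Fintype.card_prod, Fintype.card_prod, Fintype.card_fin, Fintype.card_bool]
    ring
  calc (innSet (reg G D) (u, ∅) (v, ∅)).card ≤ _ := card_le_card hsub
    _ ≤ _ := card_union_le _ _
    _ ≤ (innSet G u v).card + (4 * D + 4 * D) := by
        refine Nat.add_le_add card_image_le ((card_union_le _ _).trans (Nat.add_le_add ?_ ?_))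
        · exact card_image_le.trans hc.le
        · exact card_image_le.trans hc.le
    _ = (innSet G u v).card + 8 * D := by ring

end

/-- **Reduction to regular graphs.** -/
theorem rstar_of_reg (kap : ℝ) (hkap : 2 < kap) (h : RStarReg kap) : RStar kap := by
  intro e1 he1
  obtain ⟨eta, heta, D0, hD0⟩ := h (e1 / 2) (half_pos he1)
  set δ : ℝ := e1 / (2 + e1) with hδ
  have hδ0 : 0 < δ := by positivity
  obtain ⟨D1, hD1⟩ := exists_nat_ge (4 / ((kap - 2) * δ))
  refine ⟨eta, heta, max D0 (max D1 1), ?_⟩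
  intro V _ _ G F _ _ D hD hFG hdeg hbad
  have hDD0 : D0 ≤ D := (le_max_left _ _).trans hD
  have hDD1 : D1 ≤ D := ((le_max_left _ _).trans (le_max_right _ _)).trans hD
  have hD1' : 1 ≤ D := ((le_max_right _ _).trans (le_max_right _ _)).trans hD
  have hDpos : (0 : ℝ) < D := by exact_mod_cast hD1'
  have hk : 0 < kap - 2 := by linarith
  have hFG' : regF F D ≤ reg G D := by
    intro p q hpq
    rw [regF_adj] at hpq
    rw [reg_adj]
    exact Or.inl ⟨hpq.1.trans hpq.2.1.symm, hFG hpq.2.2⟩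
  have hbad' : (((univ : Finset (((V × Finset (Fin D)) × (V × Finset (Fin D))) ×
      ((V × Finset (Fin D)) × (V × Finset (Fin D))))).filter fun q =>
      (regF F D).Adj q.1.1 q.1.2 ∧ (regF F D).Adj q.2.1 q.2.2 ∧
      nonconf (reg G D) q.1.1 q.1.2 q.2.1 q.2.2).card : ℝ) ≤ eta * (D : ℝ) ^ 4 := by
    refine le_trans ?_ hbad
    rw [Nat.cast_le]
    apply card_le_card_of_injOn (fun q => ((q.1.1.1, q.1.2.1), (q.2.1.1, q.2.2.1)))
    · rintro ⟨⟨⟨a, x⟩, ⟨b, y⟩⟩, ⟨⟨c, z⟩, ⟨d, w⟩⟩⟩ hq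
      rw [mem_coe, mem_filter] at hq
      obtain ⟨-, ⟨h1, h2, h3⟩, ⟨h4, h5, h6⟩, h7⟩ := hq
      simp only at h1 h2 h3 h4 h5 h6 h7
      subst h1 h2 h4 h5
      rw [reg_nonconf] at h7
      rw [mem_coe, mem_filter]
      exact ⟨mem_univ _, h3, h6, h7⟩
    · rintro ⟨⟨⟨a, x⟩, ⟨b, y⟩⟩, ⟨⟨c, z⟩, ⟨d, w⟩⟩⟩ hq ⟨⟨⟨a', x'⟩, ⟨b', y'⟩⟩, ⟨⟨c', z'⟩, ⟨d', w'⟩⟩⟩ hq'
        heq
      rw [mem_coe, mem_filter] at hq hq'
      obtain ⟨-, ⟨h1, h2, h3⟩, ⟨h4, h5, h6⟩, h7⟩ := hq
      obtain ⟨-, ⟨h1', h2', h3'⟩, ⟨h4', h5', h6'⟩, h7'⟩ := hq'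
      simp only at h1 h2 h4 h5 h1' h2' h4' h5' heq
      simp only [Prod.mk.injEq] at heq
      obtain ⟨⟨e1, e2⟩, e3, e4⟩ := heq
      rw [h1, h2, h4, h5, h1', h2', h4', h5', e1, e2, e3, e4]
  have hmain := hD0 (V × Finset (Fin D)) (reg G D) (regF F D) D hDD0 hFG'
    (reg_degree G D hdeg) hbad'
  set X : V × V → ℝ := fun q =>
    (kap - 2) * (D : ℝ) ^ 2 + codeg G q.1 q.2 * D + (inn G q.1 q.2 : ℝ) / 2 with hX
  set X' : (V × Finset (Fin D)) × (V × Finset (Fin D)) → ℝ := fun q =>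
    (kap - 2) * (D : ℝ) ^ 2 + codeg (reg G D) q.1 q.2 * D +
      (inn (reg G D) q.1 q.2 : ℝ) / 2 with hX'
  have hXpos : ∀ q, 0 < X q := by
    intro q
    have : 0 < (kap - 2) * (D : ℝ) ^ 2 := by positivity
    have h2 : (0 : ℝ) ≤ codeg G q.1 q.2 * D := by positivity
    have h3 : (0 : ℝ) ≤ (inn G q.1 q.2 : ℝ) / 2 := by positivity
    simp only [hX]
    linarith
  have hXpos' : ∀ q, 0 < X' q := by
    intro q
    have : 0 < (kap - 2) * (D : ℝ) ^ 2 := by positivity
    have h2 : (0 : ℝ) ≤ codeg (reg G D) q.1 q.2 * D := by positivity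
    have h3 : (0 : ℝ) ≤ (inn (reg G D) q.1 q.2 : ℝ) / 2 := by positivity
    simp only [hX']
    linarith
  have hterm : ∀ q ∈ (univ : Finset (V × V)).filter (fun q => F.Adj q.1 q.2),
      1 / X q ≤ (1 + δ) * (1 / X' ((q.1, ∅), (q.2, ∅))) := by
    intro q hq
    rw [mem_filter] at hq
    have hne : q.1 ≠ q.2 := hq.2.ne
    have h1 : X' ((q.1, ∅), (q.2, ∅)) ≤ X q + 4 * D := by
      have h2 := reg_inn G D q.1 q.2
      have h3 : (inn (reg G D) (q.1, ∅) (q.2, ∅) : ℝ) ≤ inn G q.1 q.2 + 8 * D := by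
        exact_mod_cast h2
      simp only [hX, hX', reg_codeg G D hne]
      linarith
    have h2 : (kap - 2) * (D : ℝ) ^ 2 ≤ X q := by
      have h2 : (0 : ℝ) ≤ codeg G q.1 q.2 * D := by positivity
      have h3 : (0 : ℝ) ≤ (inn G q.1 q.2 : ℝ) / 2 := by positivity
      simp only [hX]
      linarith
    have h3 : 4 * (D : ℝ) ≤ δ * X q := by
      have h4 : 4 / ((kap - 2) * δ) ≤ (D : ℝ) := hD1.trans (by exact_mod_cast hDD1)
      rw [div_le_iff₀ (by positivity)] at h4
      calc 4 * (D : ℝ) ≤ (D * ((kap - 2) * δ)) * D :=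
            mul_le_mul_of_nonneg_right h4 hDpos.le
        _ = δ * ((kap - 2) * (D : ℝ) ^ 2) := by ring
        _ ≤ δ * X q := mul_le_mul_of_nonneg_left h2 hδ0.le
    have h5 : X' ((q.1, ∅), (q.2, ∅)) ≤ (1 + δ) * X q := by linarith
    rw [mul_one_div, div_le_div_iff₀ (hXpos q) (hXpos' _), one_mul]
    exact h5
  have hsum : ∑ q ∈ (univ : Finset (V × V)).filter (fun q => F.Adj q.1 q.2),
      1 / X' ((q.1, ∅), (q.2, ∅)) ≤
      ∑ q ∈ (univ : Finset ((V × Finset (Fin D)) × (V × Finset (Fin D)))).filter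
        (fun q => (regF F D).Adj q.1 q.2), 1 / X' q := by
    have hinj : Function.Injective (fun q : V × V =>
        (((q.1, ∅), (q.2, ∅)) : (V × Finset (Fin D)) × (V × Finset (Fin D)))) := by
      intro q r hqr
      simp only [Prod.mk.injEq, and_true] at hqr
      exact Prod.ext hqr.1 hqr.2
    rw [← sum_image (f := fun q => 1 / X' q) (fun q _ r _ hqr => hinj hqr)]
    apply sum_le_sum_of_subset_of_nonneg
    · intro q hq
      obtain ⟨r, hr, rfl⟩ := mem_image.1 hq
      rw [mem_filter] at hr ⊢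
      exact ⟨mem_univ _, rfl, rfl, hr.2⟩
    · intro q _ _
      exact (one_div_pos.2 (hXpos' q)).le
  calc ∑ q ∈ (univ : Finset (V × V)).filter (fun q => F.Adj q.1 q.2), 1 / X q
      ≤ ∑ q ∈ (univ : Finset (V × V)).filter (fun q => F.Adj q.1 q.2),
        (1 + δ) * (1 / X' ((q.1, ∅), (q.2, ∅))) := sum_le_sum hterm
    _ = (1 + δ) * ∑ q ∈ (univ : Finset (V × V)).filter (fun q => F.Adj q.1 q.2),
        1 / X' ((q.1, ∅), (q.2, ∅)) := by rw [mul_sum]
    _ ≤ (1 + δ) * (2 * (1 + e1 / 2)) :=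
        mul_le_mul_of_nonneg_left (hsum.trans hmain) (by positivity)
    _ = 2 * (1 + e1) := by
        rw [hδ]
        field_simp
        ring

end MP433GB
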