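import Pool.Agent.Work.MP_433a35_co.GB.Defs

/-!
# The static inequality for one colour, and what a bad set contains
-/

namespace MP433GB

open Finset

variable {V : Type*} [Fintype V] [DecidableEq V]

lemma ind_empty (G : SimpleGraph V) : ind G ∅ := fun x hx => absurd hx (notMem_empty x)

lemma ind_single (G : SimpleGraph V) (v : V) : ind G {v} := by
  intro x hx y hy
  rw [mem_singleton] at hx hy
  subst hx
  subst hy
  exact G.loopless.irrefl _

lemma empty_mem_inds (G : SimpleGraph V) [DecidableRel G.Adj] (F : Finset V) : ∅ ∈ inds G F := by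
  unfold inds
  rw [mem_filter, mem_powerset]
  exact ⟨empty_subset _, ind_empty G⟩

lemma sum_single (G : SimpleGraph V) [DecidableRel G.Adj] (mu : V → ℝ) (F : Finset V) :
    ∑ I ∈ (inds G F).filter (fun I => I.card = 1), ∏ x ∈ I, mu x = ∑ v ∈ F, mu v := by
  have h1 : (inds G F).filter (fun I => I.card = 1) = F.image (fun v => ({v} : Finset V)) := by
    ext I
    simp only [inds, mem_filter, mem_powerset, mem_image]
    constructor
    · rintro ⟨⟨h1, -⟩, h2⟩
      obtain ⟨v, rfl⟩ := card_eq_one.1 h2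
      exact ⟨v, h1 (mem_singleton_self v), rfl⟩
    · rintro ⟨v, hv, rfl⟩
      exact ⟨⟨singleton_subset_iff.2 hv, ind_single G v⟩, card_singleton v⟩
  rw [h1, sum_image (fun x _ y _ h => singleton_injective h)]
  exact sum_congr rfl fun v _ => prod_singleton _ _

/-- The static inequality. -/
theorem static_ineq (G : SimpleGraph V) [DecidableRel G.Adj] (mu : V → ℝ) (hmu : ∀ v, 0 ≤ mu v)
    (F : Finset V) (Lam : ℝ) :
    hc G mu F - (∑ v ∈ F, mu v - Lam) / 2 ≤
      ∑ I ∈ inds G F, (∏ x ∈ I, mu x) * ((if I = ∅ then 1 + Lam / 2 else 0) + (I.card : ℝ) / 2) := by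
  have h1 : ∑ v ∈ F, mu v = ∑ I ∈ inds G F, if I.card = 1 then ∏ x ∈ I, mu x else 0 := by
    rw [← sum_single G mu F, sum_filter]
  have h2 : Lam = ∑ I ∈ inds G F, if I = ∅ then Lam else 0 := by
    rw [sum_ite_eq', if_pos (empty_mem_inds G F)]
  have h3 : hc G mu F - (∑ v ∈ F, mu v - Lam) / 2 =
      ∑ I ∈ inds G F, ((∏ x ∈ I, mu x) - ((if I.card = 1 then ∏ x ∈ I, mu x else 0) -
        (if I = ∅ then Lam else 0)) / 2) := by
    rw [sum_sub_distrib, ← sum_div, sum_sub_distrib, ← h1, ← h2]
    rfl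
  rw [h3]
  apply sum_le_sum
  intro I _
  have hp : 0 ≤ ∏ x ∈ I, mu x := prod_nonneg fun x _ => hmu x
  by_cases h4 : I = ∅
  · subst h4
    simp only [prod_empty, card_empty, if_true, Nat.cast_zero, zero_div, add_zero, one_mul,
      OfNat.zero_ne_ofNat, if_false]
    norm_num
    linarith
  · rw [if_neg h4, if_neg h4]
    by_cases h5 : I.card = 1
    · rw [if_pos h5, h5]
      push_cast
      linarith
    · rw [if_neg h5]
      have h6 : 2 ≤ I.card := by
        have := card_pos.2 (nonempty_iff_ne_empty.2 h4)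
        omega
      have h7 : (2 : ℝ) ≤ I.card := by exact_mod_cast h6
      nlinarith

/-- The weight of the ordered pairs of distinct non-adjacent vertices. -/
lemma nonadj_weight (G : SimpleGraph V) [DecidableRel G.Adj] (mu : V → ℝ) (hmu : ∀ v, 0 ≤ mu v)
    (F : Finset V) :
    ∑ q ∈ nonadj G F, mu q.1 * mu q.2 + 2 * ∑ v ∈ F, mu v + 2 ≤ 2 * hc G mu F := by
  -- the pairs
  have h1 : ∑ q ∈ nonadj G F, mu q.1 * mu q.2 =
      2 * ∑ I ∈ (inds G F).filter (fun I => I.card = 2), ∏ x ∈ I, mu x := by
    have hmaps : ∀ q ∈ nonadj G F, ({q.1, q.2} : Finset V) ∈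
        (inds G F).filter (fun I => I.card = 2) := by
      intro q hq
      unfold nonadj at hq
      rw [mem_filter, mem_product] at hq
      obtain ⟨⟨ha, hb⟩, hne, hnadj⟩ := hq
      unfold inds
      rw [mem_filter, mem_filter, mem_powerset]
      refine ⟨⟨?_, ?_⟩, card_pair hne⟩
      · intro x hx
        rw [mem_insert, mem_singleton] at hx
        rcases hx with rfl | rfl
        · exact ha
        · exact hb
      · intro x hx y hy
        rw [mem_insert, mem_singleton] at hx hy
        rcases hx with rfl | rfl <;> rcases hy with rfl | rfl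
        · exact G.loopless.irrefl _
        · exact hnadj
        · exact fun h => hnadj h.symm
        · exact G.loopless.irrefl _
    rw [← sum_fiberwise_of_maps_to hmaps, mul_sum]
    apply sum_congr rfl
    intro I hI
    unfold inds at hI
    rw [mem_filter, mem_filter, mem_powerset] at hI
    obtain ⟨⟨hIF, hind⟩, hc2⟩ := hI
    obtain ⟨u, v, huv, rfl⟩ := card_eq_two.1 hc2
    have hu : u ∈ F := hIF (mem_insert_self _ _)
    have hv : v ∈ F := hIF (mem_insert_of_mem (mem_singleton_self _))
    have hn : ¬ G.Adj u v := hind u (mem_insert_self _ _) v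
      (mem_insert_of_mem (mem_singleton_self _))
    have h2 : (nonadj G F).filter (fun q => ({q.1, q.2} : Finset V) = {u, v}) =
        {(u, v), (v, u)} := by
      ext ⟨x, y⟩
      simp only [nonadj, mem_filter, mem_product, mem_insert, mem_singleton, Prod.mk.injEq]
      constructor
      · rintro ⟨⟨-, hne, -⟩, he⟩
        have hx : x ∈ ({u, v} : Finset V) := by
          rw [← he]
          exact mem_insert_self _ _
        have hy : y ∈ ({u, v} : Finset V) := by
          rw [← he]
          exact mem_insert_of_mem (mem_singleton_self _)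
        rw [mem_insert, mem_singleton] at hx hy
        rcases hx with rfl | rfl <;> rcases hy with rfl | rfl
        · exact absurd rfl hne
        · exact Or.inl ⟨rfl, rfl⟩
        · exact Or.inr ⟨rfl, rfl⟩
        · exact absurd rfl hne
      · rintro (⟨rfl, rfl⟩ | ⟨rfl, rfl⟩)
        · exact ⟨⟨⟨hu, hv⟩, huv, hn⟩, rfl⟩
        · exact ⟨⟨⟨hv, hu⟩, huv.symm, fun h => hn h.symm⟩, pair_comm _ _⟩
    rw [h2, sum_pair (by
      intro h
      rw [Prod.mk.injEq] at h
      exact huv h.1), prod_pair huv]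
    ring
  rw [h1]
  -- the partition function
  have h2 : hc G mu F ≥ ∑ I ∈ (inds G F).filter (fun I => I.card = 2), ∏ x ∈ I, mu x +
      ∑ I ∈ (inds G F).filter (fun I => I.card = 1), ∏ x ∈ I, mu x + 1 := by
    unfold hc
    have h3 : (1 : ℝ) = ∑ I ∈ inds G F, if I = ∅ then 1 else 0 := by
      rw [sum_ite_eq', if_pos (empty_mem_inds G F)]
    rw [sum_filter, sum_filter, h3, ← sum_add_distrib, ← sum_add_distrib]
    apply sum_le_sum
    intro I _
    have hp : 0 ≤ ∏ x ∈ I, mu x := prod_nonneg fun x _ => hmu x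
    by_cases h4 : I = ∅
    · subst h4
      simp
    · rw [if_neg h4]
      by_cases h5 : I.card = 2
      · rw [if_pos h5, if_neg (by omega)]
        linarith
      · rw [if_neg h5]
        split_ifs <;> linarith
  rw [sum_single G mu F] at h2
  linarith

/-- The tuples whose coordinates `i` and `j` are not adjacent. -/
lemma tuple_pair (G : SimpleGraph V) [DecidableRel G.Adj] (mu : V → ℝ) (F : Finset V) {m : ℕ}
    (i j : Fin m) (hij : i ≠ j) :
    ∑ v ∈ (Fintype.piFinset fun _ : Fin m => F).filter (fun v => ¬ G.Adj (v i) (v j)),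
      ∏ k, mu (v k) =
    (∑ q ∈ (F ×ˢ F).filter (fun q => ¬ G.Adj q.1 q.2), mu q.1 * mu q.2) *
      (∑ v ∈ F, mu v) ^ (m - 2) := by
  have hmaps : ∀ v ∈ (Fintype.piFinset fun _ : Fin m => F).filter (fun v => ¬ G.Adj (v i) (v j)),
      (v i, v j) ∈ (F ×ˢ F).filter (fun q => ¬ G.Adj q.1 q.2) := by
    intro v hv
    rw [mem_filter, Fintype.mem_piFinset] at hv
    rw [mem_filter, mem_product]
    exact ⟨⟨hv.1 i, hv.1 j⟩, hv.2⟩
  rw [← sum_fiberwise_of_maps_to hmaps, sum_mul]
  apply sum_congr rfl
  rintro ⟨x, y⟩ hq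
  rw [mem_filter, mem_product] at hq
  obtain ⟨⟨hx, hy⟩, hxy⟩ := hq
  simp only at hx hy hxy
  have h1 : ((Fintype.piFinset fun _ : Fin m => F).filter (fun v => ¬ G.Adj (v i) (v j))).filter
      (fun v => (v i, v j) = (x, y)) =
      Fintype.piFinset (fun k : Fin m => if k = i then {x} else if k = j then {y} else F) := by
    ext v
    simp only [mem_filter, Fintype.mem_piFinset, Prod.mk.injEq]
    constructor
    · rintro ⟨⟨h1, -⟩, h2, h3⟩ k
      split_ifs with h4 h5
      · rw [h4, h2]
        exact mem_singleton_self _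
      · rw [h5, h3]
        exact mem_singleton_self _
      · exact h1 k
    · intro h1
      have h2 : v i = x := by
        have := h1 i
        rw [if_pos rfl, mem_singleton] at this
        exact this
      have h3 : v j = y := by
        have := h1 j
        rw [if_neg hij.symm, if_pos rfl, mem_singleton] at this
        exact this
      refine ⟨⟨fun k => ?_, ?_⟩, h2, h3⟩
      · have := h1 k
        split_ifs at this with h4 h5
        · rw [mem_singleton] at this
          rw [this]
          exact hx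
        · rw [mem_singleton] at this
          rw [this]
          exact hy
        · exact this
      · rw [h2, h3]
        exact hxy
  rw [h1, ← Finset.prod_univ_sum (fun k : Fin m => if k = i then {x} else if k = j then {y} else F)
    (fun _ t => mu t), ← mul_prod_erase univ _ (mem_univ i),
    ← mul_prod_erase (univ.erase i) _ (mem_erase.2 ⟨hij.symm, mem_univ j⟩)]
  rw [if_pos rfl, sum_singleton, if_neg hij.symm, if_pos rfl, sum_singleton, mul_assoc]
  congr 2
  have h2 : ∀ k ∈ (univ.erase i).erase j,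
      (∑ t ∈ (if k = i then {x} else if k = j then {y} else F), mu t) = ∑ v ∈ F, mu v := by
    intro k hk
    rw [mem_erase, mem_erase] at hk
    rw [if_neg hk.2.1, if_neg hk.1]
  rw [prod_congr rfl h2, prod_const, card_erase_of_mem (mem_erase.2 ⟨hij.symm, mem_univ j⟩),
    card_erase_of_mem (mem_univ i), card_univ, Fintype.card_fin]
  congr 1

/-- A bad set contains many `m`-cliques. -/
theorem bad_cliques (G : SimpleGraph V) [DecidableRel G.Adj] (mu : V → ℝ) (hmu : ∀ v, 0 ≤ mu v)
    (mm : ℝ) (hmm : ∀ v, mu v ≤ mm) (hmm0 : 0 ≤ mm) (F : Finset V) (Lam e : ℝ) (he : 0 < e)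
    (he2 : e ≤ 1 / 4)
    (m : ℕ) (hLam : (m : ℝ) ^ 2 * (mm + 1 / e) ≤ Lam)
    (hbad : 2 * e * hc G mu F < ∑ v ∈ F, mu v - Lam) :
    ((1 + 2 * e) * Lam) ^ m / 2 ≤ cl G mu m F := by
  set z := ∑ v ∈ F, mu v with hz
  have hz0 : 0 ≤ z := sum_nonneg fun v _ => hmu v
  have hLam0 : 0 ≤ Lam := le_trans (by positivity) hLam
  have hnw := nonadj_weight G mu hmu F
  have hnn : 0 ≤ ∑ q ∈ nonadj G F, mu q.1 * mu q.2 :=
    sum_nonneg fun q _ => mul_nonneg (hmu _) (hmu _)
  rw [← hz] at hnw
  have hzL : (1 + 2 * e) * Lam ≤ z := by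
    have a1 : 2 * e * (z + 1) ≤ 2 * e * hc G mu F :=
      mul_le_mul_of_nonneg_left (by linarith) (by linarith)
    have a2 : Lam ≤ (1 - 2 * e) * z := by nlinarith
    have a3 : (1 + 2 * e) * Lam ≤ (1 + 2 * e) * ((1 - 2 * e) * z) :=
      mul_le_mul_of_nonneg_left a2 (by linarith)
    have a4 : 0 ≤ 4 * (e * e) * z := by positivity
    nlinarith
  -- the pairs
  set P0 := ∑ q ∈ (F ×ˢ F).filter (fun q => ¬ G.Adj q.1 q.2), mu q.1 * mu q.2 with hP0
  have hP : P0 ≤ (mm + 1 / e) * z := by
    have h1 : P0 ≤ ∑ q ∈ nonadj G F, mu q.1 * mu q.2 + ∑ v ∈ F, mu v * mu v := by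
      have h2 : (F ×ˢ F).filter (fun q => ¬ G.Adj q.1 q.2) ⊆
          nonadj G F ∪ F.image (fun v => (v, v)) := by
        rintro ⟨x, y⟩ hq
        rw [mem_filter] at hq
        rw [mem_union]
        by_cases hxy : x = y
        · right
          rw [mem_image]
          subst hxy
          exact ⟨x, (mem_product.1 hq.1).1, rfl⟩
        · left
          unfold nonadj
          rw [mem_filter]
          exact ⟨hq.1, hxy, hq.2⟩
      refine (sum_le_sum_of_subset_of_nonneg h2 fun q _ _ => mul_nonneg (hmu _) (hmu _)).trans ?_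
      have h3 := sum_union_inter (s₁ := nonadj G F) (s₂ := F.image (fun v => (v, v)))
        (f := fun q : V × V => mu q.1 * mu q.2)
      have h4 : 0 ≤ ∑ q ∈ nonadj G F ∩ F.image (fun v => (v, v)), mu q.1 * mu q.2 :=
        sum_nonneg fun q _ => mul_nonneg (hmu _) (hmu _)
      have h5 : ∑ q ∈ F.image (fun v => (v, v)), mu q.1 * mu q.2 = ∑ v ∈ F, mu v * mu v := by
        rw [sum_image (fun x _ y _ h => (Prod.mk.inj h).1)]
      rw [← h5]
      linarith
    have h2 : ∑ v ∈ F, mu v * mu v ≤ mm * z := by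
      rw [hz, mul_sum]
      exact sum_le_sum fun v _ => mul_le_mul_of_nonneg_right (hmm v) (hmu v)
    have h3 : 2 * hc G mu F ≤ 1 / e * z := by
      rw [one_div, inv_mul_eq_div, le_div_iff₀ he]
      nlinarith
    nlinarith
  -- the tuples
  have htot : z ^ m = ∑ v ∈ Fintype.piFinset (fun _ : Fin m => F), ∏ i, mu (v i) := by
    rw [← Finset.prod_univ_sum (fun _ : Fin m => F) (fun _ t => mu t), prod_const, card_univ,
      Fintype.card_fin]
  have hsplit : z ^ m = cl G mu m F + ∑ v ∈ (Fintype.piFinset fun _ : Fin m => F).filter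
      (fun v => ¬ ∀ i j, i ≠ j → G.Adj (v i) (v j)), ∏ i, mu (v i) := by
    rw [htot]
    unfold cl
    rw [sum_filter_add_sum_filter_not]
  have hbadt : 2 * ∑ v ∈ (Fintype.piFinset fun _ : Fin m => F).filter
      (fun v => ¬ ∀ i j, i ≠ j → G.Adj (v i) (v j)), ∏ i, mu (v i) ≤
      ∑ q ∈ (univ : Finset (Fin m)).offDiag,
        ∑ v ∈ (Fintype.piFinset fun _ : Fin m => F).filter
          (fun v => ¬ G.Adj (v q.1) (v q.2)), ∏ k, mu (v k) := by
    simp only [sum_filter]
    rw [sum_comm, mul_sum]
    apply sum_le_sum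
    intro v _
    have hp : 0 ≤ ∏ k, mu (v k) := prod_nonneg fun k _ => hmu _
    by_cases h1 : ∀ i j, i ≠ j → G.Adj (v i) (v j)
    · rw [if_neg (not_not.2 h1), mul_zero]
      exact sum_nonneg fun q _ => by
        split_ifs <;> first | exact hp | exact le_rfl
    · rw [if_pos h1]
      push Not at h1
      obtain ⟨i, j, hij, hn⟩ := h1
      have hsub : ({(i, j), (j, i)} : Finset (Fin m × Fin m)) ⊆
          (univ : Finset (Fin m)).offDiag := by
        intro q hq
        rw [mem_insert, mem_singleton] at hq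
        rw [mem_offDiag]
        rcases hq with rfl | rfl
        · exact ⟨mem_univ _, mem_univ _, hij⟩
        · exact ⟨mem_univ _, mem_univ _, hij.symm⟩
      refine le_trans ?_ (sum_le_sum_of_subset_of_nonneg hsub fun q _ _ => by
        split_ifs <;> first | exact hp | exact le_rfl)
      rw [sum_pair (by
        intro h
        rw [Prod.mk.injEq] at h
        exact hij h.1), if_pos hn, if_pos (fun h => hn h.symm)]
      linarith
  have hcount : ∑ q ∈ (univ : Finset (Fin m)).offDiag,
        ∑ v ∈ (Fintype.piFinset fun _ : Fin m => F).filter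
          (fun v => ¬ G.Adj (v q.1) (v q.2)), ∏ k, mu (v k) ≤ z ^ m := by
    have h1 : ∀ q ∈ (univ : Finset (Fin m)).offDiag,
        ∑ v ∈ (Fintype.piFinset fun _ : Fin m => F).filter
          (fun v => ¬ G.Adj (v q.1) (v q.2)), ∏ k, mu (v k) = P0 * z ^ (m - 2) := by
      intro q hq
      rw [mem_offDiag] at hq
      exact tuple_pair G mu F q.1 q.2 hq.2.2
    rw [sum_congr rfl h1, sum_const, offDiag_card, card_univ, Fintype.card_fin, nsmul_eq_mul]
    rcases le_or_gt m 1 with hm | hm
    · have : m * m - m = 0 := by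
        interval_cases m <;> rfl
      rw [this, Nat.cast_zero, zero_mul]
      positivity
    · have h2 : ((m * m - m : ℕ) : ℝ) ≤ (m : ℝ) ^ 2 := by
        have : m * m - m ≤ m ^ 2 := by
          rw [sq]
          exact Nat.sub_le _ _
        exact_mod_cast this
      have h3 : 0 ≤ P0 := sum_nonneg fun q _ => mul_nonneg (hmu _) (hmu _)
      have h4 : z ^ m = z * (z * z ^ (m - 2)) := by
        rw [← pow_succ', ← pow_succ']
        congr 1
        omega
      have h5 : 0 ≤ z ^ (m - 2) := by positivity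
      have h6 : (m : ℝ) ^ 2 * P0 ≤ z * z := by
        calc (m : ℝ) ^ 2 * P0 ≤ (m : ℝ) ^ 2 * ((mm + 1 / e) * z) :=
              mul_le_mul_of_nonneg_left hP (by positivity)
          _ = ((m : ℝ) ^ 2 * (mm + 1 / e)) * z := by ring
          _ ≤ Lam * z := mul_le_mul_of_nonneg_right hLam hz0
          _ ≤ z * z := mul_le_mul_of_nonneg_right (by nlinarith) hz0
      calc ((m * m - m : ℕ) : ℝ) * (P0 * z ^ (m - 2)) ≤ (m : ℝ) ^ 2 * (P0 * z ^ (m - 2)) :=
            mul_le_mul_of_nonneg_right h2 (mul_nonneg h3 h5)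
        _ = ((m : ℝ) ^ 2 * P0) * z ^ (m - 2) := by ring
        _ ≤ (z * z) * z ^ (m - 2) := mul_le_mul_of_nonneg_right h6 h5
        _ = z ^ m := by rw [h4]; ring
  have hfin : ((1 + 2 * e) * Lam) ^ m ≤ z ^ m :=
    pow_le_pow_left₀ (by positivity) hzL _
  linarith

end MP433GB
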