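import Pool.Agent.Work.MP_433a35_co.GB.Colour

/-!
# The induction step on the depth
-/

namespace MP433GB

open Finset

set_option linter.unusedSectionVars false

variable {V : Type*} [Fintype V] [DecidableEq V]

/-- the pairs `(v, c)` of `P` with `v ∈ N` -/
def cls {k : ℕ} (P : Finset (V × Fin k)) (N : Finset V) (c : Fin k) : Finset (V × Fin k) :=
  P.filter fun x => x.2 = c ∧ x.1 ∈ N

lemma mem_cls {k : ℕ} {P : Finset (V × Fin k)} {N : Finset V} {c : Fin k} {x : V × Fin k} :
    x ∈ cls P N c ↔ x ∈ P ∧ x.2 = c ∧ x.1 ∈ N := by simp [cls]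

lemma adj_of_cls {H : SimpleGraph V} {k : ℕ} {x y : V × Fin k} {c : Fin k} (hx : x.2 = c)
    (hy : y.2 = c) (h : (pg H k).Adj x y) : H.Adj x.1 y.1 := by
  rcases pg_adj.1 h with h | h
  · exact h.1
  · exact absurd (hx.trans hy.symm) h.2

/-- the weight of the event that a clique lies in the free set -/
lemma tuple_bound (H : SimpleGraph V) [DecidableRel H.Adj] (k : ℕ) (lam : V → ℝ)
    (hlam : ∀ v, 0 ≤ lam v) (mm : ℝ) (hmm : ∀ v, lam v ≤ mm) (hmm0 : 0 ≤ mm)
    (P : Finset (V × Fin k)) (N : Finset V) (c : Fin k) (m : ℕ) (rho : ℝ)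
    (hpb : ∀ S ⊆ N, (∀ v ∈ S, (v, c) ∈ P) →
      hc (pg H k) (act k lam) (er P S) ≤ rho ^ S.card * hc (pg H k) (act k lam) P)
    (x : Fin m → V × Fin k) (hx : ∀ i, x i ∈ cls P N c)
    (hadj : ∀ i j, i ≠ j → (pg H k).Adj (x i) (x j)) :
    ∑ J ∈ (inds (pg H k) (P \ cls P N c)).filter
        (fun J => ∀ i, x i ∈ free (pg H k) (cls P N c) J),
      (∏ y ∈ J, act k lam y) * hc (pg H k) (act k lam) (free (pg H k) (cls P N c) J) ≤
      ((1 + mm) * rho) ^ m * hc (pg H k) (act k lam) (cls P N c ∪ (P \ cls P N c)) := by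
  have hmu : ∀ y : V × Fin k, 0 ≤ act k lam y := fun y => hlam y.1
  set S : Finset V := univ.image fun i => (x i).1 with hS
  set T : Finset (V × Fin k) := univ.image x with hT
  have hxc : ∀ i, (x i).2 = c := fun i => (mem_cls.1 (hx i)).2.1
  have hinj : Function.Injective fun i => (x i).1 := by
    intro i j hij
    by_contra hne
    have h1 := adj_of_cls (hxc i) (hxc j) (hadj i j hne)
    have h2 : (x i).1 = (x j).1 := hij
    rw [h2] at h1
    exact H.irrefl h1
  have hScard : S.card = m := by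
    rw [hS, card_image_of_injective _ hinj, card_univ, Fintype.card_fin]
  have hTcard : T.card ≤ m := by
    refine card_image_le.trans ?_
    rw [card_univ, Fintype.card_fin]
  have hSN : S ⊆ N := by
    intro v hv
    obtain ⟨i, _, rfl⟩ := mem_image.1 hv
    exact (mem_cls.1 (hx i)).2.2
  have hSP : ∀ v ∈ S, (v, c) ∈ P := by
    intro v hv
    obtain ⟨i, _, rfl⟩ := mem_image.1 hv
    have h1 := (mem_cls.1 (hx i)).1
    have h2 : x i = ((x i).1, c) := Prod.ext rfl (hxc i)
    rwa [h2] at h1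
  have hun : cls P N c ∪ (P \ cls P N c) = P :=
    union_sdiff_of_subset (filter_subset _ _)
  rw [hun]
  -- the sum is at most the partition function of `cls ∪ er R S`
  have h1 : ∑ J ∈ (inds (pg H k) (P \ cls P N c)).filter
        (fun J => ∀ i, x i ∈ free (pg H k) (cls P N c) J),
      (∏ y ∈ J, act k lam y) * hc (pg H k) (act k lam) (free (pg H k) (cls P N c) J) ≤
      hc (pg H k) (act k lam) (cls P N c ∪ er (P \ cls P N c) S) := by
    rw [hc_markov (pg H k) (act k lam) (cls P N c) (er (P \ cls P N c) S)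
      (disjoint_sdiff.mono_right (filter_subset _ _))]
    refine sum_le_sum_of_subset_of_nonneg ?_ fun J _ _ =>
      mul_nonneg (wt_nonneg hmu J) (hc_pos (pg H k) hmu _).le
    intro J hJ
    rw [mem_filter, mem_inds] at hJ
    rw [mem_inds]
    refine ⟨?_, hJ.1.2⟩
    intro y hy
    rw [mem_er]
    refine ⟨hJ.1.1 hy, ?_⟩
    intro hyS
    obtain ⟨i, _, hi⟩ := mem_image.1 hyS
    have h2 := (mem_free.1 (hJ.2 i)).2 y hy
    apply h2
    rw [pg_adj]
    right
    refine ⟨hi, ?_⟩
    intro h3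
    have h4 := mem_sdiff.1 (hJ.1.1 hy)
    apply h4.2
    rw [mem_cls]
    exact ⟨h4.1, h3 ▸ hxc i, hi ▸ (mem_cls.1 (hx i)).2.2⟩
  have h2 : cls P N c ∪ er (P \ cls P N c) S ⊆ T ∪ er P S := by
    intro y hy
    rw [mem_union] at hy ⊢
    rcases hy with hy | hy
    · by_cases hyS : y.1 ∈ S
      · left
        obtain ⟨i, _, hi⟩ := mem_image.1 hyS
        rw [hT, mem_image]
        refine ⟨i, mem_univ i, Prod.ext hi ?_⟩
        rw [hxc i, (mem_cls.1 hy).2.1]
      · right
        exact mem_er.2 ⟨(mem_cls.1 hy).1, hyS⟩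
    · right
      rw [mem_er] at hy ⊢
      exact ⟨(mem_sdiff.1 hy.1).1, hy.2⟩
  have h3 : ∏ y ∈ T, (1 + act k lam y) ≤ (1 + mm) ^ m := by
    calc ∏ y ∈ T, (1 + act k lam y) ≤ ∏ _y ∈ T, (1 + mm) :=
          prod_le_prod (fun y _ => by linarith [hmu y]) (fun y _ => by
            have := hmm y.1
            unfold act; linarith)
      _ = (1 + mm) ^ T.card := by rw [prod_const]
      _ ≤ (1 + mm) ^ m := pow_le_pow_right₀ (by linarith) hTcard
  have hprodnn : 0 ≤ ∏ y ∈ T, (1 + act k lam y) := prod_nonneg fun y _ => by linarith [hmu y]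
  have h4 := hpb S hSN hSP
  rw [hScard] at h4
  calc _ ≤ hc (pg H k) (act k lam) (cls P N c ∪ er (P \ cls P N c) S) := h1
    _ ≤ hc (pg H k) (act k lam) (T ∪ er P S) := hc_mono _ hmu h2
    _ ≤ (∏ y ∈ T, (1 + act k lam y)) * hc (pg H k) (act k lam) (er P S) :=
        hc_union_le _ hmu T _
    _ ≤ (1 + mm) ^ m * (rho ^ m * hc (pg H k) (act k lam) P) :=
        mul_le_mul h3 h4 (hc_pos _ hmu _).le (by positivity)
    _ = _ := by rw [mul_pow]; ring

/-- cliques of one colour are cliques of `H` -/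
lemma cl_cls_le (H : SimpleGraph V) [DecidableRel H.Adj] (k : ℕ) (lam : V → ℝ)
    (hlam : ∀ v, 0 ≤ lam v) (P : Finset (V × Fin k)) (N : Finset V) (c : Fin k) (m : ℕ) :
    cl (pg H k) (act k lam) m (cls P N c) ≤ cl H lam m N := by
  unfold cl
  have hinj : Set.InjOn (fun (x : Fin m → V × Fin k) i => (x i).1)
      ((Fintype.piFinset fun _ : Fin m => cls P N c).filter
        (fun v => ∀ i j, i ≠ j → (pg H k).Adj (v i) (v j)) : Finset (Fin m → V × Fin k)) := by
    intro x hx y hy hxy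
    simp only [coe_filter, Fintype.mem_piFinset, Set.mem_ofPred_eq] at hx hy
    funext i
    refine Prod.ext (congrFun hxy i) ?_
    rw [(mem_cls.1 (hx.1 i)).2.1, (mem_cls.1 (hy.1 i)).2.1]
  have h1 : ∑ x ∈ (Fintype.piFinset fun _ : Fin m => cls P N c).filter
        (fun v => ∀ i j, i ≠ j → (pg H k).Adj (v i) (v j)), ∏ i, act k lam (x i) =
      ∑ v ∈ ((Fintype.piFinset fun _ : Fin m => cls P N c).filter
        (fun v => ∀ i j, i ≠ j → (pg H k).Adj (v i) (v j))).image
          (fun (x : Fin m → V × Fin k) i => (x i).1), ∏ i, lam (v i) := by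
    rw [sum_image hinj]
    rfl
  rw [h1]
  refine sum_le_sum_of_subset_of_nonneg ?_ fun v _ _ => prod_nonneg fun i _ => hlam _
  intro v hv
  obtain ⟨x, hx, rfl⟩ := mem_image.1 hv
  rw [mem_filter, Fintype.mem_piFinset] at hx ⊢
  exact ⟨fun i => (mem_cls.1 (hx.1 i)).2.2, fun i j hij =>
    adj_of_cls (mem_cls.1 (hx.1 i)).2.1 (mem_cls.1 (hx.1 j)).2.1 (hx.2 i j hij)⟩

/-- the number of coloured neighbours -/
lemma sum_cls_card (H : SimpleGraph V) (k : ℕ) (P : Finset (V × Fin k)) (N : Finset V)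
    (I : Finset (V × Fin k)) (hI : ind (pg H k) I) :
    ∑ c : Fin k, (I ∩ cls P N c).card ≤ N.card := by
  classical
  have hdis : ∀ c ∈ (univ : Finset (Fin k)), ∀ d ∈ (univ : Finset (Fin k)), c ≠ d →
      Disjoint (I ∩ cls P N c) (I ∩ cls P N d) := by
    intro c _ d _ hcd
    rw [disjoint_left]
    intro x hx hx'
    rw [mem_inter, mem_cls] at hx hx'
    exact hcd (hx.2.2.1.symm.trans hx'.2.2.1)
  rw [← card_biUnion hdis]
  refine card_le_card_of_injOn Prod.fst ?_ ?_
  · intro x hx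
    rw [mem_coe, mem_biUnion] at hx
    obtain ⟨c, _, hc⟩ := hx
    rw [mem_inter, mem_cls] at hc
    exact hc.2.2.2
  · intro x hx y hy hxy
    rw [mem_coe, mem_biUnion] at hx hy
    obtain ⟨c, _, hc⟩ := hx
    obtain ⟨d, _, hd⟩ := hy
    by_contra hne
    apply hI x (mem_inter.1 hc).1 y (mem_inter.1 hd).1
    rw [pg_adj]
    right
    exact ⟨hxy, fun h => hne (Prod.ext hxy h)⟩

/-- the hole identity, as an inequality -/
lemma hole_ge (H : SimpleGraph V) [DecidableRel H.Adj] (k : ℕ) (lam : V → ℝ)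
    (hlam : ∀ v, 0 ≤ lam v) (P : Finset (V × Fin k)) (f : V) (hf : ∀ c, (f, c) ∈ P) :
    lam f * ∑ I ∈ inds (pg H k) (er P {f}), (∏ x ∈ I, act k lam x) *
      ((univ.filter fun c => I ∩ cls (er P {f}) (H.neighborFinset f) c = ∅).card : ℝ) ≤
      hc (pg H k) (act k lam) P := by
  classical
  have hmu : ∀ y : V × Fin k, 0 ≤ act k lam y := fun y => hlam y.1
  set Q : Finset (V × Fin k) := univ.image fun c => (f, c) with hQ
  have hmQ : ∀ x : V × Fin k, x ∈ Q ↔ x.1 = f := by
    intro x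
    rw [hQ, mem_image]
    constructor
    · rintro ⟨c, _, rfl⟩; rfl
    · intro h
      exact ⟨x.2, mem_univ _, Prod.ext h.symm rfl⟩
  have hun : P = Q ∪ er P {f} := by
    ext x
    rw [mem_union, hmQ, mem_er, mem_singleton]
    constructor
    · intro h
      by_cases h1 : x.1 = f
      · exact Or.inl h1
      · exact Or.inr ⟨h, h1⟩
    · rintro (h | h)
      · have := hf x.2
        rwa [← h] at this
      · exact h.1
  have hdis : Disjoint Q (er P {f}) := by
    rw [disjoint_left]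
    intro x hx hx'
    rw [mem_er, mem_singleton] at hx'
    exact hx'.2 ((hmQ x).1 hx)
  conv_rhs => rw [hun, hc_markov _ _ _ _ hdis]
  rw [mul_sum]
  refine sum_le_sum fun J hJ => ?_
  rw [mem_inds] at hJ
  have h1 : (univ.filter fun c => J ∩ cls (er P {f}) (H.neighborFinset f) c = ∅).image
      (fun c => (f, c)) ⊆ free (pg H k) Q J := by
    intro x hx
    obtain ⟨c, hc, rfl⟩ := mem_image.1 hx
    rw [mem_filter] at hc
    rw [mem_free, hmQ]
    refine ⟨rfl, fun y hy hadj => ?_⟩
    rw [pg_adj] at hadj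
    have hy2 := mem_er.1 (hJ.1 hy)
    rcases hadj with h | h
    · have : y ∈ J ∩ cls (er P {f}) (H.neighborFinset f) c := by
        rw [mem_inter, mem_cls]
        exact ⟨hy, hJ.1 hy, h.2.symm, by rw [SimpleGraph.mem_neighborFinset]; exact h.1⟩
      rw [hc.2] at this
      exact absurd this (notMem_empty _)
    · exact hy2.2 (mem_singleton.2 h.1.symm)
  have h2 : lam f * ((univ.filter fun c =>
      J ∩ cls (er P {f}) (H.neighborFinset f) c = ∅).card : ℝ) ≤
      hc (pg H k) (act k lam) (free (pg H k) Q J) := by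
    refine le_trans ?_ (sum_le_hc _ hmu _)
    refine le_trans ?_ (sum_le_sum_of_subset_of_nonneg h1 fun y _ _ => hmu y)
    rw [sum_image (fun a _ b _ h => (Prod.mk.inj h).2)]
    simp only [act]
    rw [sum_const, nsmul_eq_mul, mul_comm]
  calc _ = (∏ x ∈ J, act k lam x) * (lam f * ((univ.filter fun c =>
      J ∩ cls (er P {f}) (H.neighborFinset f) c = ∅).card : ℝ)) := by ring
    _ ≤ _ := mul_le_mul_of_nonneg_left h2 (wt_nonneg hmu J)

/-- The induction step. -/
theorem step (H : SimpleGraph V) [DecidableRel H.Adj] (k : ℕ) (X : V → ℝ) (hX : ∀ v, 0 < X v)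
    (g mm e : ℝ) (hg : 0 < g) (hmm : ∀ v, g / X v ≤ mm) (hmm0 : 0 ≤ mm) (he : 0 < e)
    (he2 : e ≤ 1 / 4) (m : ℕ) (rho : ℝ) (hrho : 0 < rho)
    (hk : ∀ v, (1 + 3 * e) * X v + H.degree v ≤ 2 * (1 - 2 * e) * k)
    (hLam : (m : ℝ) ^ 2 * (mm + 1 / e) ≤ g * rho) (hLam2 : 2 * (1 + 2 * e) ≤ e * (g * rho))
    (hK : ∀ v, 2 * ((1 + mm) ^ m * cl H (fun u => 1 / X u) m (H.neighborFinset v)) ≤
      e * (1 + 2 * e) ^ m) (j : ℕ)
    (hcl : ∀ (P : Finset (V × Fin k)) (f : V), Deep H P j f → (∃ c, (f, c) ∈ P) →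
      hc (pg H k) (act k fun v => g / X v) (er P {f}) ≤
        rho * hc (pg H k) (act k fun v => g / X v) P)
    (P : Finset (V × Fin k)) (f : V) (hdeep : Deep H P (j + 1) f) (hf : ∃ c, (f, c) ∈ P) :
    hc (pg H k) (act k fun v => g / X v) (er P {f}) ≤
      rho / (1 + 2 * e) * hc (pg H k) (act k fun v => g / X v) P := by
  classical
  set lam : V → ℝ := fun v => g / X v with hlamdef
  have hlam : ∀ v, 0 ≤ lam v := fun v => (div_pos hg (hX v)).le
  have hmu : ∀ y : V × Fin k, 0 ≤ act k lam y := fun y => hlam y.1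
  have hmmu : ∀ y : V × Fin k, act k lam y ≤ mm := fun y => hmm y.1
  obtain ⟨hfull, hnb⟩ := hdeep
  have hfull' : ∀ c, (f, c) ∈ P := by
    rcases hfull with h | h
    · exact h
    · obtain ⟨c, hc⟩ := hf
      exact absurd hc (h c)
  set P' := er P {f} with hP'
  set N := H.neighborFinset f with hN
  set Z := hc (pg H k) (act k lam) P' with hZ
  have hZpos : 0 < Z := hc_pos _ hmu _
  set Lam := g * rho with hLamdef
  have hLam0 : 0 < Lam := mul_pos hg hrho
  -- one colour
  have hcol : ∀ c : Fin k, (1 - 2 * e) * Z ≤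
      ∑ I ∈ inds (pg H k) P', (∏ x ∈ I, act k lam x) *
        ((if I ∩ cls P' N c = ∅ then 1 + Lam / 2 else 0) + ((I ∩ cls P' N c).card : ℝ) / 2) := by
    intro c
    have hun : cls P' N c ∪ (P' \ cls P' N c) = P' := union_sdiff_of_subset (filter_subset _ _)
    have htup : ∀ x : Fin m → V × Fin k, (∀ i, x i ∈ cls P' N c) →
        (∀ i j, i ≠ j → (pg H k).Adj (x i) (x j)) →
        ∑ J ∈ (inds (pg H k) (P' \ cls P' N c)).filter
          (fun J => ∀ i, x i ∈ free (pg H k) (cls P' N c) J),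
          (∏ y ∈ J, act k lam y) * hc (pg H k) (act k lam) (free (pg H k) (cls P' N c) J) ≤
          ((1 + mm) * rho) ^ m * hc (pg H k) (act k lam) (cls P' N c ∪ (P' \ cls P' N c)) := by
      intro x hx hadj
      refine tuple_bound H k lam hlam mm hmm hmm0 P' N c m rho ?_ x hx hadj
      intro S hSN hSP
      refine prod_bound H lam j rho hrho.le hcl P' S fun v hv => ⟨?_, c, hSP v hv⟩
      refine deep_er H P {f} j v (hnb v ?_)
      have := hSN hv
      rwa [hN, SimpleGraph.mem_neighborFinset] at this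
    have hcl2 : 2 * (((1 + mm) * rho) ^ m * cl (pg H k) (act k lam) m (cls P' N c)) ≤
        e * ((1 + 2 * e) * Lam) ^ m := by
      have h1 := cl_cls_le H k lam hlam P' N c m
      have h2 : cl H lam m N = g ^ m * cl H (fun u => 1 / X u) m N := by
        unfold cl
        rw [mul_sum]
        refine sum_congr rfl fun v _ => ?_
        simp only [hlamdef]
        have : (∏ i : Fin m, g / X (v i)) = ∏ i : Fin m, (g * (1 / X (v i))) :=
          prod_congr rfl fun i _ => by ring
        rw [this, prod_mul_distrib, prod_const, card_univ, Fintype.card_fin]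
      have h3 := hK f
      have h4 : 0 ≤ ((1 + mm) * rho) ^ m := by positivity
      have h5 : 0 ≤ (rho * g) ^ m := by positivity
      calc 2 * (((1 + mm) * rho) ^ m * cl (pg H k) (act k lam) m (cls P' N c))
          ≤ 2 * (((1 + mm) * rho) ^ m * cl H lam m N) := by
            have := mul_le_mul_of_nonneg_left h1 h4
            linarith
        _ = (rho * g) ^ m * (2 * ((1 + mm) ^ m * cl H (fun u => 1 / X u) m N)) := by
            rw [h2, mul_pow, mul_pow]; ring
        _ ≤ (rho * g) ^ m * (e * (1 + 2 * e) ^ m) := mul_le_mul_of_nonneg_left h3 h5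
        _ = e * ((1 + 2 * e) * Lam) ^ m := by
            rw [hLamdef, mul_pow, mul_pow, mul_pow]; ring
    have h := colour_ineq (pg H k) (act k lam) hmu mm hmmu hmm0 (cls P' N c) (P' \ cls P' N c)
      disjoint_sdiff m (((1 + mm) * rho) ^ m) Lam e he he2 hLam hLam0 htup hcl2
    rwa [hun] at h
  -- sum over the colours
  set Y := ∑ I ∈ inds (pg H k) P', (∏ x ∈ I, act k lam x) *
      ((univ.filter fun c => I ∩ cls P' N c = ∅).card : ℝ) with hY
  have hsum : (k : ℝ) * ((1 - 2 * e) * Z) ≤ (1 + Lam / 2) * Y + (H.degree f : ℝ) / 2 * Z := by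
    calc (k : ℝ) * ((1 - 2 * e) * Z) = ∑ _c : Fin k, (1 - 2 * e) * Z := by
          rw [sum_const, card_univ, Fintype.card_fin, nsmul_eq_mul]
      _ ≤ ∑ c : Fin k, ∑ I ∈ inds (pg H k) P', (∏ x ∈ I, act k lam x) *
          ((if I ∩ cls P' N c = ∅ then 1 + Lam / 2 else 0) + ((I ∩ cls P' N c).card : ℝ) / 2) :=
          sum_le_sum fun c _ => hcol c
      _ = ∑ I ∈ inds (pg H k) P', (∏ x ∈ I, act k lam x) *
          ((1 + Lam / 2) * ((univ.filter fun c => I ∩ cls P' N c = ∅).card : ℝ) +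
            (∑ c : Fin k, ((I ∩ cls P' N c).card : ℝ)) / 2) := by
          rw [sum_comm]
          refine sum_congr rfl fun I _ => ?_
          rw [← mul_sum, sum_add_distrib, ← sum_div, ← sum_filter, sum_const, nsmul_eq_mul]
          ring
      _ ≤ ∑ I ∈ inds (pg H k) P', (∏ x ∈ I, act k lam x) *
          ((1 + Lam / 2) * ((univ.filter fun c => I ∩ cls P' N c = ∅).card : ℝ) +
            (H.degree f : ℝ) / 2) := by
          refine sum_le_sum fun I hI => mul_le_mul_of_nonneg_left ?_ (wt_nonneg hmu I)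
          have h1 := sum_cls_card H k P' N I (mem_inds.1 hI).2
          have h2 : (∑ c : Fin k, ((I ∩ cls P' N c).card : ℝ)) ≤ H.degree f := by
            have : ((∑ c : Fin k, (I ∩ cls P' N c).card : ℕ) : ℝ) ≤ (N.card : ℝ) := by
              exact_mod_cast h1
            rw [hN, SimpleGraph.card_neighborFinset_eq_degree] at this
            push_cast at this
            exact this
          linarith
      _ = (1 + Lam / 2) * Y + (H.degree f : ℝ) / 2 * Z := by
          rw [hY, hZ, hc, mul_sum, mul_sum, ← sum_add_distrib]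
          refine sum_congr rfl fun I _ => ?_
          ring
  have hhole := hole_ge H k lam hlam P f hfull'
  -- arithmetic
  have hkf := hk f
  have hXf := hX f
  have h1 : (1 + 3 * e) * X f / 2 * Z ≤ (1 + Lam / 2) * Y := by
    have : ((1 + 3 * e) * X f + H.degree f) / 2 * Z ≤ (1 - 2 * e) * k * Z :=
      mul_le_mul_of_nonneg_right (by linarith) hZpos.le
    nlinarith
  have h2 : g * (1 + 3 * e) * Z ≤ (2 + Lam) * (lam f * Y) := by
    have h3 : lam f * X f = g := by
      simp only [hlamdef]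
      field_simp
    have h4 := mul_le_mul_of_nonneg_left h1 (hlam f)
    have h5 : lam f * ((1 + 3 * e) * X f / 2 * Z) = g * (1 + 3 * e) * Z / 2 := by
      calc _ = (lam f * X f) * (1 + 3 * e) * Z / 2 := by ring
        _ = _ := by rw [h3]
    rw [h5] at h4
    linarith
  have h3 : g * (1 + 3 * e) * Z ≤ (2 + Lam) * hc (pg H k) (act k lam) P :=
    h2.trans (mul_le_mul_of_nonneg_left hhole (by linarith))
  -- multiply by rho and use e Lam ≥ 2 (1 + 2e)
  have hZP := hc_pos (pg H k) hmu P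
  have h4 : (1 + 2 * e) * (2 + Lam) ≤ Lam * (1 + 3 * e) := by linarith
  have h5 : (1 + 2 * e) * (2 + Lam) * Z ≤ (2 + Lam) * (rho * hc (pg H k) (act k lam) P) := by
    calc (1 + 2 * e) * (2 + Lam) * Z ≤ Lam * (1 + 3 * e) * Z :=
          mul_le_mul_of_nonneg_right h4 hZpos.le
      _ = rho * (g * (1 + 3 * e) * Z) := by rw [hLamdef]; ring
      _ ≤ rho * ((2 + Lam) * hc (pg H k) (act k lam) P) := mul_le_mul_of_nonneg_left h3 hrho.le
      _ = _ := by ring
  have h6 : (1 + 2 * e) * Z ≤ rho * hc (pg H k) (act k lam) P := by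
    have h7 : (2 + Lam) * ((1 + 2 * e) * Z) ≤ (2 + Lam) * (rho * hc (pg H k) (act k lam) P) := by
      linarith
    exact le_of_mul_le_mul_left h7 (by linarith)
  rw [div_mul_eq_mul_div, le_div_iff₀ (by linarith), mul_comm]
  exact h6

end MP433GB
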